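import Mathlib
import Pool.Agent.Helper95.LK.Reading

/-!
# Truncated readings
-/

set_option autoImplicit false

namespace Pool.Agent.Helper7.LK

open Pool.Agent.Helper95.LK

/-- a stopping condition of a reading: `OK t r` is determined by the answers before step `t - 1` -/
structure Trunc {E Γ : Type*} (R : Reading E Γ) where
  OK : ℕ → (E → Γ) → Prop
  zero : ∀ r, OK 0 r
  anti : ∀ t r, OK (t + 1) r → OK t r
  adapted : ∀ t r r', (∀ i < t, ∀ e f, R.act i r = some (e, f) → f (r' e) = f (r e)) →
    (OK (t + 1) r' ↔ OK (t + 1) r)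

namespace Trunc

variable {E Γ : Type*} {R : Reading E Γ} (K : Trunc R)

lemma anti_le {t t' : ℕ} (h : t ≤ t') (r : E → Γ) (hr : K.OK t' r) : K.OK t r := by
  induction h with
  | refl => exact hr
  | step _ ih => exact ih (K.anti _ r hr)

open Classical in
/-- the questions of the truncated reading -/
noncomputable def act (t : ℕ) (r : E → Γ) : Option (E × (Γ → Bool)) :=
  if K.OK (t + 1) r then R.act t r else none

lemma agree {s : ℕ} {r r' : E → Γ}
    (h : ∀ i < s, ∀ e f, K.act i r = some (e, f) → f (r' e) = f (r e)) {t : ℕ} (ht : t ≤ s)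
    (hr : K.OK t r) : ∀ i < t, ∀ e f, R.act i r = some (e, f) → f (r' e) = f (r e) := by
  intro i hi e f hf
  apply h i (by omega) e f
  unfold act
  rw [if_pos (K.anti_le (by omega : i + 1 ≤ t) r hr)]
  exact hf

lemma ok_iff {s : ℕ} {r r' : E → Γ}
    (h : ∀ i < s, ∀ e f, K.act i r = some (e, f) → f (r' e) = f (r e)) (t : ℕ) (ht : t ≤ s + 1) :
    K.OK t r' ↔ K.OK t r := by
  induction t with
  | zero => exact ⟨fun _ => K.zero r, fun _ => K.zero r'⟩
  | succ t ih =>
    have ih' := ih (by omega)
    by_cases hr : K.OK t r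
    · exact K.adapted t r r' (K.agree h (by omega) hr)
    · have hr' : ¬ K.OK t r' := fun h' => hr (ih'.1 h')
      exact ⟨fun h' => absurd (K.anti t r' h') hr', fun h' => absurd (K.anti t r h') hr⟩

/-- the truncated reading -/
noncomputable def read : Reading E Γ where
  act := K.act
  adapted s r r' h := by
    classical
    have h1 := K.ok_iff h (s + 1) le_rfl
    unfold act
    by_cases hr : K.OK (s + 1) r
    · rw [if_pos hr, if_pos (h1.2 hr)]
      exact R.adapted s r r' (K.agree h le_rfl (K.anti s r hr))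
    · rw [if_neg hr, if_neg fun h' => hr (h1.1 h')]

open Classical in
/-- the last time at which the condition holds -/
noncomputable def tau (L : ℕ) (r : E → Γ) : ℕ := Nat.findGreatest (fun t => K.OK t r) L

lemma tau_le (L : ℕ) (r : E → Γ) : K.tau L r ≤ L := by
  classical
  exact Nat.findGreatest_le L

lemma ok_tau (L : ℕ) (r : E → Γ) : K.OK (K.tau L r) r := by
  classical
  exact Nat.findGreatest_spec (P := fun t => K.OK t r) (Nat.zero_le L) (K.zero r)

lemma le_tau {L t : ℕ} {r : E → Γ} (ht : t ≤ L) (hr : K.OK t r) : t ≤ K.tau L r := by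
  classical
  exact Nat.le_findGreatest ht hr

section cell

variable [Fintype E] [DecidableEq E] [Fintype Γ] [DecidableEq Γ] {L : ℕ} {r r' : E → Γ}
  (hc : ∀ e, r' e ∈ K.read.cell L r e)

include hc

lemma hyp_of_cell : ∀ i < L, ∀ e f, K.act i r = some (e, f) → f (r' e) = f (r e) := by
  intro i hi e f hf
  exact (Reading.mem_cell _).1 (hc e) i hi f hf

lemma tau_eq : K.tau L r' = K.tau L r := by
  have h := K.hyp_of_cell hc
  apply le_antisymm
  · apply K.le_tau (K.tau_le L r')
    exact (K.ok_iff h _ (by have := K.tau_le L r'; omega)).1 (K.ok_tau L r')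
  · apply K.le_tau (K.tau_le L r)
    exact (K.ok_iff h _ (by have := K.tau_le L r; omega)).2 (K.ok_tau L r)

lemma agree_tau : ∀ i < K.tau L r, ∀ e f, R.act i r = some (e, f) → f (r' e) = f (r e) :=
  K.agree (K.hyp_of_cell hc) (K.tau_le L r) (K.ok_tau L r)

end cell

end Trunc

end Pool.Agent.Helper7.LK
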