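import Mathlib
import Pool.Agent.Helper95.LK.Core

/-!
# Leakage with a general planted law

The core theorem of `Pool/Agent/Helper95/LK/Core.lean` for a planted law which is uniform on a set of
the form `{r | ind T r = 1}` where `ind T r` depends on the three edges of `T` only and, the other
coordinates being fixed, at most one value of every edge of `T` is possible.
-/

set_option autoImplicit false

namespace Pool.Agent.Helper7.LK

open Finset Pool.Agent.Helper95.LK

/-- A family of planted laws: `ind T` is the indicator of the support, `g T` the normalization. -/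
structure Plant (n : ℕ) (Γ : Type*) [Fintype Γ] [DecidableEq Γ] where
  ind : Tri n → (Edge n → Γ) → ℝ
  g : Tri n → ℝ
  C : ℝ
  one_le_C : 1 ≤ C
  g_nonneg : ∀ T, 0 ≤ g T
  g_le : ∀ T, g T ≤ C * (Fintype.card Γ : ℝ)
  ind_01 : ∀ T r, ind T r = 0 ∨ ind T r = 1
  ind_congr : ∀ T r r', (∀ i, r (ed i T) = r' (ed i T)) → ind T r = ind T r'
  ind_unique : ∀ T i r α β, ind T (Function.update r (ed i T) α) = 1 →
    ind T (Function.update r (ed i T) β) = 1 → α = β
  sum_ind : ∀ T, g T * ∑ r : Edge n → Γ, ind T r = (Fintype.card (Edge n → Γ) : ℝ)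

section
variable {n : ℕ} {Γ : Type*} [Fintype Γ] [DecidableEq Γ] (X : Plant n Γ)

namespace Plant

lemma ind_nonneg (T : Tri n) (r : Edge n → Γ) : 0 ≤ X.ind T r := by
  rcases X.ind_01 T r with h | h <;> rw [h] <;> norm_num

lemma sum_ind_update (T : Tri n) (i : Fin 3) (r : Edge n → Γ) :
    ∑ α, X.ind T (Function.update r (ed i T) α) ≤ 1 := by
  by_cases hex : ∃ α, X.ind T (Function.update r (ed i T) α) = 1
  · obtain ⟨α, hα⟩ := hex
    rw [Finset.sum_eq_single_of_mem α (Finset.mem_univ α)]
    · exact hα.le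
    · intro β _ hβ
      rcases X.ind_01 T (Function.update r (ed i T) β) with h | h
      · exact h
      · exact absurd (X.ind_unique T i r β α h hα) hβ
  · push Not at hex
    rw [Finset.sum_eq_zero]
    · norm_num
    · intro α _
      rcases X.ind_01 T (Function.update r (ed i T) α) with h | h
      · exact h
      · exact absurd h (hex α)

lemma resample_univ {E : Type*} [Fintype E] [DecidableEq E] (d : E) (φ : (E → Γ) → ℝ) :
    ∑ r, ∑ α, φ (Function.update r d α) = (Fintype.card Γ : ℝ) * ∑ r, φ r := by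
  have h := resample (fun _ : E => (Finset.univ : Finset Γ)) d φ
  simpa [Fintype.piFinset_univ] using h

/-- pairs of different triangles -/
lemma sum_ind_mul {T T' : Tri n} (h : T ≠ T') :
    X.g T * X.g T' * ∑ r : Edge n → Γ, X.ind T r * X.ind T' r ≤
      X.C * (Fintype.card (Edge n → Γ) : ℝ) := by
  obtain ⟨i, hi⟩ := exists_ed_ne h
  have h1 : (Fintype.card Γ : ℝ) * ∑ r : Edge n → Γ, X.ind T r * X.ind T' r ≤
      ∑ r : Edge n → Γ, X.ind T' r := by
    rw [← resample_univ (ed i T) (fun r => X.ind T r * X.ind T' r)]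
    refine Finset.sum_le_sum fun r _ => ?_
    have h2 : ∀ α, X.ind T' (Function.update r (ed i T) α) = X.ind T' r := by
      intro α
      apply X.ind_congr
      intro j
      rw [Function.update_of_ne]
      by_cases hij : i = j
      · subst hij; exact fun h => hi h.symm
      · exact fun h => ed_ne_of_ne hij T T' h.symm
    simp only [h2]
    rw [← Finset.sum_mul]
    calc (∑ α, X.ind T (Function.update r (ed i T) α)) * X.ind T' r ≤ 1 * X.ind T' r :=
          mul_le_mul_of_nonneg_right (X.sum_ind_update T i r) (X.ind_nonneg T' r)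
      _ = X.ind T' r := one_mul _
  have hS : 0 ≤ ∑ r : Edge n → Γ, X.ind T r * X.ind T' r :=
    Finset.sum_nonneg fun r _ => mul_nonneg (X.ind_nonneg T r) (X.ind_nonneg T' r)
  have hC0 : 0 ≤ X.C := le_trans zero_le_one X.one_le_C
  calc X.g T * X.g T' * ∑ r : Edge n → Γ, X.ind T r * X.ind T' r
      ≤ (X.C * (Fintype.card Γ : ℝ)) * X.g T' * ∑ r : Edge n → Γ, X.ind T r * X.ind T' r := by
        apply mul_le_mul_of_nonneg_right _ hS
        exact mul_le_mul_of_nonneg_right (X.g_le T) (X.g_nonneg T')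
    _ = X.C * X.g T' * ((Fintype.card Γ : ℝ) * ∑ r : Edge n → Γ, X.ind T r * X.ind T' r) := by
        ring
    _ ≤ X.C * X.g T' * ∑ r : Edge n → Γ, X.ind T' r :=
        mul_le_mul_of_nonneg_left h1 (mul_nonneg hC0 (X.g_nonneg T'))
    _ = X.C * (X.g T' * ∑ r : Edge n → Γ, X.ind T' r) := by ring
    _ = X.C * (Fintype.card (Edge n → Γ) : ℝ) := by rw [X.sum_ind]

/-- Boxes whose side in the direction of an edge of `T` has at least `|Γ| / K` elements. -/
lemma avg_ind_le (P : BoxPart (Edge n) Γ) (T : Tri n) (i : Fin 3) (r : Edge n → Γ) (K : ℕ)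
    (hK : Fintype.card Γ ≤ (P.C r (ed i T)).card * K) :
    X.g T * P.avg (X.ind T) r ≤ X.C * (K : ℝ) := by
  have h := P.avg_le_of_unique (X.ind T) (ed i T) r (X.ind_01 T)
    (fun r α β => X.ind_unique T i r α β)
  have hc := P.card_C_pos r (ed i T)
  have hK' : (Fintype.card Γ : ℝ) ≤ ((P.C r (ed i T)).card : ℝ) * (K : ℝ) := by exact_mod_cast hK
  have hC0 : 0 ≤ X.C := le_trans zero_le_one X.one_le_C
  calc X.g T * P.avg (X.ind T) r
      ≤ (X.C * (Fintype.card Γ : ℝ)) * (1 / ((P.C r (ed i T)).card : ℝ)) :=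
        mul_le_mul (X.g_le T) h (P.avg_nonneg (X.ind_nonneg T) r) (by positivity)
    _ = X.C * ((Fintype.card Γ : ℝ) / ((P.C r (ed i T)).card : ℝ)) := by ring
    _ ≤ X.C * (K : ℝ) := by
        apply mul_le_mul_of_nonneg_left _ hC0
        rw [div_le_iff₀ hc]
        linarith

/-- Independence of two triangles that share one frozen edge. -/
lemma avg_mul_freeze (P : BoxPart (Edge n) Γ) {T T' : Tri n} (h : T ≠ T') (i : Fin 3)
    (hi : ed i T = ed i T') (r : Edge n → Γ) :
    (P.freeze (ed i T)).avg (fun r => X.ind T r * X.ind T' r) r =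
      (P.freeze (ed i T)).avg (X.ind T) r * (P.freeze (ed i T)).avg (X.ind T') r := by
  apply BoxPart.avg_mul (P.freeze (ed i T)) ((Finset.univ.erase i).image fun j => ed j T)
  · intro r₁ h₁ r₂ h₂ hK
    apply X.ind_congr
    intro j
    by_cases hj : j = i
    · subst hj
      rw [P.freeze_apply h₁, P.freeze_apply h₂]
    · apply hK
      rw [Finset.mem_image]
      exact ⟨j, Finset.mem_erase.2 ⟨hj, Finset.mem_univ j⟩, rfl⟩
  · intro r₁ _ r₂ _ hK
    apply X.ind_congr
    intro j
    apply hK
    rw [Finset.mem_image]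
    rintro ⟨k, hk, hkj⟩
    have hki : k ≠ i := Finset.ne_of_mem_erase hk
    by_cases hkj' : k = j
    · subst hkj'
      exact h (tri_eq_of_two hki hkj hi)
    · exact ed_ne_of_ne hkj' T T' hkj

/-- Independence of two triangles without a common edge. -/
lemma avg_mul_disjoint (P : BoxPart (Edge n) Γ) {T T' : Tri n} (h : ∀ i, ed i T ≠ ed i T')
    (r : Edge n → Γ) :
    P.avg (fun r => X.ind T r * X.ind T' r) r = P.avg (X.ind T) r * P.avg (X.ind T') r := by
  apply BoxPart.avg_mul P (Finset.univ.image fun j => ed j T)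
  · intro r₁ _ r₂ _ hK
    apply X.ind_congr
    intro j
    apply hK
    rw [Finset.mem_image]
    exact ⟨j, Finset.mem_univ j, rfl⟩
  · intro r₁ _ r₂ _ hK
    apply X.ind_congr
    intro j
    apply hK
    rw [Finset.mem_image]
    rintro ⟨k, _, hkj⟩
    by_cases hkj' : k = j
    · subst hkj'
      exact h k hkj
    · exact ed_ne_of_ne hkj' T T' hkj

/-- the trivial partition -/
def triv : BoxPart (Edge n) Γ where
  C _ _ := Finset.univ
  mem _ _ := Finset.mem_univ _
  eqv _ _ _ := rfl

lemma avg_triv (φ : (Edge n → Γ) → ℝ) (r : Edge n → Γ) :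
    (triv (n := n) (Γ := Γ)).avg φ r = (∑ r', φ r') / (Fintype.card (Edge n → Γ) : ℝ) := by
  unfold BoxPart.avg BoxPart.box triv
  simp [Fintype.piFinset_univ]

/-- edge-disjoint triangles are independent -/
lemma sum_ind_mul_disjoint {T T' : Tri n} (h : ∀ i, ed i T ≠ ed i T') :
    X.g T * X.g T' * ∑ r : Edge n → Γ, X.ind T r * X.ind T' r ≤
      (Fintype.card (Edge n → Γ) : ℝ) := by
  set M : ℝ := (Fintype.card (Edge n → Γ) : ℝ) with hM
  by_cases hM0 : M = 0
  · have hemp : IsEmpty (Edge n → Γ) := by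
      rw [← Fintype.card_eq_zero_iff]
      rw [hM] at hM0
      exact_mod_cast hM0
    simp [hM0]
  · have hMpos : 0 < M := lt_of_le_of_ne (Nat.cast_nonneg _) (Ne.symm hM0)
    have hne : Nonempty (Edge n → Γ) := by
      rw [← Fintype.card_pos_iff]
      rw [hM] at hMpos
      exact_mod_cast hMpos
    obtain ⟨r0⟩ := hne
    have h1 := X.avg_mul_disjoint (triv (n := n) (Γ := Γ)) h r0
    rw [avg_triv, avg_triv, avg_triv, ← hM] at h1
    have h2 := X.sum_ind T
    have h3 := X.sum_ind T'
    rw [← hM] at h2 h3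
    have h4 : (∑ r : Edge n → Γ, X.ind T r * X.ind T' r) =
        (∑ r, X.ind T r) * (∑ r, X.ind T' r) / M := by
      field_simp at h1
      field_simp
      linarith
    rw [h4]
    have h5 : X.g T * X.g T' * ((∑ r, X.ind T r) * (∑ r, X.ind T' r) / M) =
        (X.g T * ∑ r, X.ind T r) * (X.g T' * ∑ r, X.ind T' r) / M := by ring
    rw [h5, h2, h3]
    field_simp
    exact le_rfl

end Plant

/-- Second moment bound over the `n` triangles of the edge `(i, p)`. -/
lemma edge_bound (P : BoxPart (Edge n) Γ) (i : Fin 3) (p : Fin n × Fin n) (K t : ℕ)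
    (hK : K ≤ n) (rare : (Edge n → Γ) → Prop) [DecidablePred rare]
    (hrm : ∀ r r', r' ∈ P.box r → (rare r' ↔ rare r))
    (hrare : (2 : ℝ) ^ t * ((Finset.univ.filter rare).card : ℝ) ≤
      (Fintype.card (Edge n → Γ) : ℝ))
    (good : Fin n → (Edge n → Γ) → Prop) [∀ c, DecidablePred (good c)]
    (hgm : ∀ c r r', r' ∈ P.box r → (good c r' ↔ good c r))
    (hgood : ∀ c r, good c r →
      ∀ j, j ≠ i → Fintype.card Γ ≤ (P.C r (ed j (mkTri i (p, c)))).card * K) :
    ∑ c, ∑ r : Edge n → Γ, (if rare r ∧ good c r then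
        X.g (mkTri i (p, c)) * X.ind (mkTri i (p, c)) r else 0) ≤
      (n : ℝ) * (Fintype.card (Edge n → Γ) : ℝ) * Real.sqrt (2 * X.C * (1 / 2) ^ t) := by
  classical
  set M : ℝ := (Fintype.card (Edge n → Γ) : ℝ) with hM
  have hM0 : 0 ≤ M := Nat.cast_nonneg _
  have hC1 := X.one_le_C
  have hC0 : 0 ≤ X.C := le_trans zero_le_one hC1
  set e : Edge n := (i, p.1, p.2) with he
  have hed : ∀ c, ed i (mkTri i (p, c)) = e := fun c => ed_mkTri i (p, c)
  set Q := P.freeze e with hQ
  let G : Fin n → ℝ := fun c => X.g (mkTri i (p, c))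
  have hG0 : ∀ c, 0 ≤ G c := fun c => X.g_nonneg _
  -- indicators
  let ρ : (Edge n → Γ) → ℝ := fun r => if rare r then 1 else 0
  let γ : Fin n → (Edge n → Γ) → ℝ := fun c r => if good c r then 1 else 0
  have hρP : P.Meas ρ := by
    intro r r' h
    simp only [ρ, hrm r r' h]
  have hγP : ∀ c, P.Meas (γ c) := by
    intro c r r' h
    simp only [γ, hgm c r r' h]
  have hρQ : Q.Meas ρ := P.freeze_meas e hρP
  have hγQ : ∀ c, Q.Meas (γ c) := fun c => P.freeze_meas e (hγP c)
  have hγ0 : ∀ c r, 0 ≤ γ c r := by intro c r; simp only [γ]; split_ifs <;> norm_num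
  have hγ1 : ∀ c r, γ c r ≤ 1 := by intro c r; simp only [γ]; split_ifs <;> norm_num
  have hρ0 : ∀ r, 0 ≤ ρ r := by intro r; simp only [ρ]; split_ifs <;> norm_num
  let A : Fin n → (Edge n → Γ) → ℝ := fun c r => Q.avg (X.ind (mkTri i (p, c))) r
  have hA0 : ∀ c r, 0 ≤ A c r := fun c r => Q.avg_nonneg (fun r => X.ind_nonneg _ r) r
  let F : (Edge n → Γ) → ℝ := fun r => ∑ c, G c * A c r * γ c r
  -- step 1: rewrite with the averages
  have step1 : ∑ c, ∑ r : Edge n → Γ, (if rare r ∧ good c r then
        G c * X.ind (mkTri i (p, c)) r else 0) = ∑ r, ρ r * F r := by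
    have h1 : ∀ c, ∑ r : Edge n → Γ, (if rare r ∧ good c r then
        G c * X.ind (mkTri i (p, c)) r else 0) = ∑ r, ρ r * (G c * A c r * γ c r) := by
      intro c
      have h2 := Q.tower (fun r => ρ r * γ c r) (X.ind (mkTri i (p, c)))
        (BoxPart.Meas.mul Q hρQ (hγQ c))
      have h3 : ∑ r : Edge n → Γ, (if rare r ∧ good c r then
          G c * X.ind (mkTri i (p, c)) r else 0) =
          G c * ∑ r, (ρ r * γ c r) * X.ind (mkTri i (p, c)) r := by
        rw [Finset.mul_sum]
        refine Finset.sum_congr rfl fun r _ => ?_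
        simp only [ρ, γ]
        by_cases h4 : rare r <;> by_cases h5 : good c r <;> simp [h4, h5]
      rw [h3, ← h2, Finset.mul_sum]
      refine Finset.sum_congr rfl fun r _ => ?_
      simp only [A]
      ring
    rw [Finset.sum_congr rfl fun c _ => h1 c, Finset.sum_comm]
    refine Finset.sum_congr rfl fun r _ => ?_
    simp only [F]
    rw [Finset.mul_sum]
  have step1' : ∑ c, ∑ r : Edge n → Γ, (if rare r ∧ good c r then
        X.g (mkTri i (p, c)) * X.ind (mkTri i (p, c)) r else 0) = ∑ r, ρ r * F r := step1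
  rw [step1']
  -- step 2: Cauchy-Schwarz
  have hCS := Finset.sum_mul_sq_le_sq_mul_sq Finset.univ ρ F
  have hρsq : ∑ r, ρ r ^ 2 = ((Finset.univ.filter rare).card : ℝ) := by
    have : ∀ r, ρ r ^ 2 = if rare r then (1 : ℝ) else 0 := by
      intro r; simp only [ρ]; split_ifs <;> norm_num
    rw [Finset.sum_congr rfl fun r _ => this r, Finset.sum_ite]
    simp
  -- step 3: second moment of F
  have hoff : ∀ c c', c ≠ c' → ∑ r, (G c * A c r * γ c r) * (G c' * A c' r * γ c' r) ≤
      X.C * M := by
    intro c c' hcc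
    have hne : mkTri i (p, c) ≠ mkTri i (p, c') := fun h => hcc (mkTri_inj h)
    have h1 : ∀ r, A c r * A c' r =
        Q.avg (fun r => X.ind (mkTri i (p, c)) r * X.ind (mkTri i (p, c')) r) r := by
      intro r
      have := X.avg_mul_freeze P hne i ((hed c).trans (hed c').symm) r
      rw [hed c] at this
      exact this.symm
    have h2 : ∑ r, A c r * A c' r =
        ∑ r : Edge n → Γ, X.ind (mkTri i (p, c)) r * X.ind (mkTri i (p, c')) r := by
      have h3 := Q.tower (fun _ => 1)
        (fun r => X.ind (mkTri i (p, c)) r * X.ind (mkTri i (p, c')) r) (fun _ _ _ => rfl)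
      simp only [one_mul] at h3
      rw [← h3]
      exact Finset.sum_congr rfl fun r _ => h1 r
    have h4 : ∑ r, (G c * A c r * γ c r) * (G c' * A c' r * γ c' r) ≤
        ∑ r, G c * G c' * (A c r * A c' r) := by
      refine Finset.sum_le_sum fun r _ => ?_
      have h5 : γ c r * γ c' r ≤ 1 := by
        calc γ c r * γ c' r ≤ 1 * 1 :=
              mul_le_mul (hγ1 c r) (hγ1 c' r) (hγ0 c' r) (by norm_num)
          _ = 1 := by norm_num
      have h6 : 0 ≤ G c * G c' * (A c r * A c' r) := by
        have := hA0 c r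
        have := hA0 c' r
        have := hG0 c
        have := hG0 c'
        positivity
      calc (G c * A c r * γ c r) * (G c' * A c' r * γ c' r)
          = G c * G c' * (A c r * A c' r) * (γ c r * γ c' r) := by ring
        _ ≤ G c * G c' * (A c r * A c' r) * 1 := mul_le_mul_of_nonneg_left h5 h6
        _ = G c * G c' * (A c r * A c' r) := by ring
    refine h4.trans ?_
    rw [← Finset.mul_sum, h2]
    exact X.sum_ind_mul hne
  have hdiag : ∀ c, ∑ r, (G c * A c r * γ c r) * (G c * A c r * γ c r) ≤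
      X.C * (K : ℝ) * M := by
    intro c
    have h1 : ∀ r, (G c * A c r * γ c r) * (G c * A c r * γ c r) ≤
        X.C * (K : ℝ) * (G c * A c r) := by
      intro r
      have hgA : 0 ≤ G c * A c r := mul_nonneg (hG0 c) (hA0 c r)
      by_cases h2 : good c r
      · obtain ⟨j, hj⟩ : ∃ j : Fin 3, j ≠ i := ⟨i + 1, by fin_cases i <;> decide⟩
        have h3 := hgood c r h2 j hj
        have h4 : Fintype.card Γ ≤ (Q.C r (ed j (mkTri i (p, c)))).card * K := by
          rw [hQ, P.freeze_C_ne]
          · exact h3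
          · rw [← hed c]
            exact ed_ne_of_ne hj _ _
        have h5 := X.avg_ind_le Q (mkTri i (p, c)) j r K h4
        have h6 : γ c r = 1 := by simp only [γ, if_pos h2]
        rw [h6, mul_one]
        exact mul_le_mul_of_nonneg_right h5 hgA
      · have h6 : γ c r = 0 := by simp only [γ, if_neg h2]
        rw [h6]
        simp only [mul_zero]
        positivity
    refine (Finset.sum_le_sum fun r _ => h1 r).trans ?_
    rw [← Finset.mul_sum, ← Finset.mul_sum]
    have h3 := Q.tower (fun _ => 1) (X.ind (mkTri i (p, c))) (fun _ _ _ => rfl)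
    simp only [one_mul] at h3
    have h4 : G c * ∑ r, A c r = M := by
      simp only [A]
      rw [h3]
      exact X.sum_ind _
    rw [h4]
  have hF2 : ∑ r, F r ^ 2 ≤ 2 * X.C * (n : ℝ) ^ 2 * M := by
    have h1 : ∀ r, F r ^ 2 = ∑ c, ∑ c', (G c * A c r * γ c r) * (G c' * A c' r * γ c' r) := by
      intro r
      simp only [F]
      rw [pow_two, Finset.sum_mul_sum]
    rw [Finset.sum_congr rfl fun r _ => h1 r, Finset.sum_comm]
    have h2 : ∀ c, ∑ r, ∑ c', (G c * A c r * γ c r) * (G c' * A c' r * γ c' r) ≤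
        2 * X.C * (n : ℝ) * M := by
      intro c
      rw [Finset.sum_comm]
      have hKM : 0 ≤ X.C * (K : ℝ) * M := by positivity
      have hCM : 0 ≤ X.C * M := by positivity
      calc ∑ c', ∑ r, (G c * A c r * γ c r) * (G c' * A c' r * γ c' r)
          ≤ ∑ c', (if c' = c then X.C * (K : ℝ) * M else X.C * M) := by
            refine Finset.sum_le_sum fun c' _ => ?_
            split_ifs with h3
            · subst h3; exact hdiag c'
            · exact hoff c c' (fun h => h3 h.symm)
        _ ≤ ∑ c', ((if c' = c then X.C * (K : ℝ) * M else 0) + X.C * M) := by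
            refine Finset.sum_le_sum fun c' _ => ?_
            split_ifs
            · linarith
            · linarith
        _ = X.C * (K : ℝ) * M + (n : ℝ) * (X.C * M) := by
            rw [Finset.sum_add_distrib]
            simp
        _ ≤ 2 * X.C * (n : ℝ) * M := by
            have : (K : ℝ) ≤ (n : ℝ) := by exact_mod_cast hK
            nlinarith [mul_le_mul_of_nonneg_left this hCM]
    calc ∑ c, ∑ r, ∑ c', (G c * A c r * γ c r) * (G c' * A c' r * γ c' r)
        ≤ ∑ _c : Fin n, 2 * X.C * (n : ℝ) * M := Finset.sum_le_sum fun c _ => h2 c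
      _ = 2 * X.C * (n : ℝ) ^ 2 * M := by
          rw [Finset.sum_const]
          simp only [Finset.card_univ, Fintype.card_fin, nsmul_eq_mul]
          ring
  -- conclusion
  have hρ2 : ∑ r, ρ r ^ 2 ≤ (1 / 2 : ℝ) ^ t * M := by
    rw [hρsq]
    have h2t : (1 / 2 : ℝ) ^ t * 2 ^ t = 1 := by rw [← mul_pow]; norm_num
    have h3 := mul_le_mul_of_nonneg_left hrare (show (0 : ℝ) ≤ (1 / 2 : ℝ) ^ t by positivity)
    calc ((Finset.univ.filter rare).card : ℝ)
        = (1 / 2 : ℝ) ^ t * (2 ^ t * ((Finset.univ.filter rare).card : ℝ)) := by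
          rw [← mul_assoc, h2t, one_mul]
      _ ≤ (1 / 2 : ℝ) ^ t * M := h3
  have hfin : (∑ r, ρ r * F r) ^ 2 ≤
      ((n : ℝ) * M * Real.sqrt (2 * X.C * (1 / 2) ^ t)) ^ 2 := by
    refine hCS.trans ?_
    have h1 : (∑ r, ρ r ^ 2) * ∑ r, F r ^ 2 ≤
        ((1 / 2 : ℝ) ^ t * M) * (2 * X.C * (n : ℝ) ^ 2 * M) :=
      mul_le_mul hρ2 hF2 (Finset.sum_nonneg fun _ _ => sq_nonneg _) (by positivity)
    refine h1.trans (le_of_eq ?_)
    rw [mul_pow, Real.sq_sqrt (by positivity)]
    ring
  exact (le_abs_self _).trans (abs_le_of_sq_le_sq hfin (by positivity))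

end

end Pool.Agent.Helper7.LK
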