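import Mathlib
import Pool.Agent.Helper7.LK.Plant

/-!
# The leakage core for a general planted law
-/

set_option autoImplicit false

namespace Pool.Agent.Helper7.LK

open Finset Pool.Agent.Helper95.LK

variable {n : ℕ} {Γ : Type*} [Fintype Γ] [DecidableEq Γ] [AddCommGroup Γ] (X : Plant n Γ)

section Core
variable (R : Reading (Edge n) Γ)

open Classical in
/-- The averaged probability that some edge of the planted triangle becomes rare. -/
lemma sum_bad_le (L b t : ℕ) (hK : 2 ^ (b + t) ≤ n) (hb : ∀ r e, R.used L r e ≤ b) :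
    ∑ T : Tri n, ∑ r : Edge n → Γ, (if ∃ j, Rare R (2 ^ (b + t)) L (ed j T) r then
        X.g T * X.ind T r else 0) ≤
      3 * ((n : ℝ) ^ 3 * (Fintype.card (Edge n → Γ) : ℝ) * Real.sqrt (2 * X.C * (1 / 2) ^ t)) := by
  set K := 2 ^ (b + t) with hKdef
  set M : ℝ := (Fintype.card (Edge n → Γ) : ℝ) with hM
  have hK1 : 1 ≤ K := Nat.one_le_two_pow
  have h1 : ∀ T : Tri n, ∀ r : Edge n → Γ,
      (if ∃ j, Rare R K L (ed j T) r then X.g T * X.ind T r else 0) ≤
        ∑ i : Fin 3, (if First R K L i T r then X.g T * X.ind T r else 0) := by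
    intro T r
    have hnn : ∀ i ∈ (Finset.univ : Finset (Fin 3)),
        0 ≤ (if First R K L i T r then X.g T * X.ind T r else 0) := by
      intro i _
      split_ifs
      · exact mul_nonneg (X.g_nonneg T) (X.ind_nonneg T r)
      · exact le_rfl
    split_ifs with h
    · obtain ⟨i, hi⟩ := exists_first R K L hK1 T r h
      have := Finset.single_le_sum hnn (Finset.mem_univ i)
      rw [if_pos hi] at this
      exact this
    · exact Finset.sum_nonneg hnn
  have h2 : ∀ i : Fin 3, ∑ T : Tri n, ∑ r : Edge n → Γ,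
      (if First R K L i T r then X.g T * X.ind T r else 0) ≤
        (n : ℝ) ^ 3 * M * Real.sqrt (2 * X.C * (1 / 2) ^ t) := by
    intro i
    rw [sum_tri i]
    have h3 : ∀ p : Fin n × Fin n, ∑ c : Fin n, ∑ r : Edge n → Γ,
        (if First R K L i (mkTri i (p, c)) r then X.g (mkTri i (p, c)) * X.ind (mkTri i (p, c)) r else 0) ≤
          (n : ℝ) * M * Real.sqrt (2 * X.C * (1 / 2) ^ t) := by
      intro p
      set e : Edge n := (i, p.1, p.2) with he
      have hed : ∀ c, ed i (mkTri i (p, c)) = e := fun c => ed_mkTri i (p, c)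
      set P := stopPart R K L e with hP
      have hcell : ∀ r r', r' ∈ P.box r →
          stopT R K L e r' = stopT R K L e r ∧
            R.cell (stopT R K L e r) r' = R.cell (stopT R K L e r) r := by
        intro r r' h
        have hm : ∀ e', r' e' ∈ R.cell (stopT R K L e r) r e' := P.mem_box.1 h
        exact ⟨stopT_eq R K L e r r' hm, R.cell_eq_of_mem hm _ le_rfl⟩
      have key := edge_bound X P i p K t hK
        (fun r => Rare R K (stopT R K L e r) e r)
        (by
          intro r r' h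
          obtain ⟨h4, h5⟩ := hcell r r' h
          simp only [Rare, h4, h5])
        (by
          have h4 := R.card_rare_le L b t e (fun r => hb r e)
          refine le_trans ?_ h4
          apply mul_le_mul_of_nonneg_left _ (by positivity)
          exact_mod_cast Finset.card_le_card (by
            intro r hr
            rw [Finset.mem_filter] at hr ⊢
            exact ⟨Finset.mem_univ r, rare_mono R K (stopT_le R K L e r) hr.2⟩))
        (fun c r => ∀ j, j ≠ i → ¬ Rare R K (stopT R K L e r) (ed j (mkTri i (p, c))) r)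
        (by
          intro c r r' h
          obtain ⟨h4, h5⟩ := hcell r r' h
          simp only [Rare, h4, h5])
        (by
          intro c r h j hj
          have := h j hj
          unfold Rare at this
          rw [not_lt] at this
          exact this)
      refine le_trans (le_of_eq ?_) key
      refine Finset.sum_congr rfl fun c _ => Finset.sum_congr rfl fun r _ => ?_
      unfold First
      rw [hed c]
      by_cases hcond : Rare R K (stopT R K L e r) e r ∧
          ∀ j, j ≠ i → ¬ Rare R K (stopT R K L e r) (ed j (mkTri i (p, c))) r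
      · rw [if_pos hcond, if_pos hcond]
      · rw [if_neg hcond, if_neg hcond]
    calc ∑ p : Fin n × Fin n, ∑ c : Fin n, ∑ r : Edge n → Γ,
        (if First R K L i (mkTri i (p, c)) r then X.g (mkTri i (p, c)) * X.ind (mkTri i (p, c)) r else 0)
        ≤ ∑ _p : Fin n × Fin n, (n : ℝ) * M * Real.sqrt (2 * X.C * (1 / 2) ^ t) :=
          Finset.sum_le_sum fun p _ => h3 p
      _ = (n : ℝ) ^ 3 * M * Real.sqrt (2 * X.C * (1 / 2) ^ t) := by
          rw [Finset.sum_const]
          simp only [Finset.card_univ, Fintype.card_prod, Fintype.card_fin, nsmul_eq_mul]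
          push_cast
          ring
  calc ∑ T : Tri n, ∑ r : Edge n → Γ,
        (if ∃ j, Rare R K L (ed j T) r then X.g T * X.ind T r else 0)
      ≤ ∑ T : Tri n, ∑ r : Edge n → Γ, ∑ i : Fin 3,
          (if First R K L i T r then X.g T * X.ind T r else 0) :=
        Finset.sum_le_sum fun T _ => Finset.sum_le_sum fun r _ => h1 T r
    _ = ∑ i : Fin 3, ∑ T : Tri n, ∑ r : Edge n → Γ,
          (if First R K L i T r then X.g T * X.ind T r else 0) := by
        rw [Finset.sum_congr rfl fun T _ => Finset.sum_comm]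
        rw [Finset.sum_comm]
    _ ≤ ∑ _i : Fin 3, (n : ℝ) ^ 3 * M * Real.sqrt (2 * X.C * (1 / 2) ^ t) :=
        Finset.sum_le_sum fun i _ => h2 i
    _ = 3 * ((n : ℝ) ^ 3 * M * Real.sqrt (2 * X.C * (1 / 2) ^ t)) := by
        rw [Finset.sum_const]
        simp

open Classical in
/-- **Leakage core.** -/
theorem leak_core (L b t N : ℕ) (hn : 0 < n) (hK : 2 ^ (b + t) ≤ n)
    (hb : ∀ r e, R.used L r e ≤ b)
    (acc : (Edge n → Γ) → ℝ) (h0 : ∀ r, 0 ≤ acc r) (h1 : ∀ r, acc r ≤ 1)
    (hacc : ∀ r r', (∀ e, r' e ∈ R.cell L r e) → acc r' = acc r)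
    (Cov : (Edge n → Γ) → Finset (Tri n))
    (hCov : ∀ r r', (∀ e, r' e ∈ R.cell L r e) → Cov r' = Cov r)
    (hN : ∀ r, (Cov r).card ≤ N) :
    (n : ℝ) ^ 3 * ∑ r, acc r - (n : ℝ) ^ 3 * (Fintype.card (Edge n → Γ) : ℝ) *
        (Real.sqrt (3 * (X.C * 2 ^ (b + t)) / (n : ℝ) ^ 2 +
            6 * Real.sqrt (2 * X.C * (1 / 2) ^ t)) +
          (N : ℝ) * (X.C * 2 ^ (b + t)) / (n : ℝ) ^ 3) ≤
      ∑ T : Tri n, ∑ r : Edge n → Γ, (if T ∉ Cov r then X.g T * X.ind T r * acc r else 0) := by
  set K := 2 ^ (b + t) with hKdef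
  set ε := Real.sqrt (2 * X.C * (1 / 2) ^ t) with hε
  set M : ℝ := (Fintype.card (Edge n → Γ) : ℝ) with hM
  have hC0 : 0 ≤ X.C := le_trans zero_le_one X.one_le_C
  have hM0 : 0 ≤ M := Nat.cast_nonneg _
  have hn0 : (0 : ℝ) < (n : ℝ) := by exact_mod_cast hn
  set Kc : ℝ := X.C * ((K : ℕ) : ℝ) with hKc
  have hKc0 : 0 ≤ Kc := mul_nonneg hC0 (Nat.cast_nonneg _)
  have hKr : Kc = X.C * 2 ^ (b + t) := by rw [hKc, hKdef]; push_cast; rfl
  set P := R.partAt L with hP
  have hmem : ∀ r r', r' ∈ P.box r → ∀ e, r' e ∈ R.cell L r e := fun r r' h => P.mem_box.1 h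
  -- good triangles
  let γ : Tri n → (Edge n → Γ) → ℝ := fun T r => if ∃ j, Rare R K L (ed j T) r then 0 else 1
  have hγP : ∀ T, P.Meas (γ T) := by
    intro T r r' h
    have hc := R.cell_eq_of_mem (hmem r r' h) L le_rfl
    have hiff : (∃ j, Rare R K L (ed j T) r') ↔ ∃ j, Rare R K L (ed j T) r := by
      simp only [Rare, hc]
    by_cases h6 : ∃ j, Rare R K L (ed j T) r
    · have h7 := hiff.2 h6
      simp only [γ, if_pos h6, if_pos h7]
    · have h7 := fun h => h6 (hiff.1 h)
      simp only [γ, if_neg h6, if_neg h7]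
  have hγ0 : ∀ T r, 0 ≤ γ T r := by intro T r; simp only [γ]; split_ifs <;> norm_num
  have hγ1 : ∀ T r, γ T r ≤ 1 := by intro T r; simp only [γ]; split_ifs <;> norm_num
  let A : Tri n → (Edge n → Γ) → ℝ := fun T r => P.avg (X.ind T) r
  have hA0 : ∀ T r, 0 ≤ A T r := fun T r => P.avg_nonneg (fun r => X.ind_nonneg _ r) r
  have hAK : ∀ T r, X.g T * A T r * γ T r ≤ Kc := by
    intro T r
    by_cases h2 : ∃ j, Rare R K L (ed j T) r
    · simp only [γ, if_pos h2, mul_zero]
      exact hKc0
    · simp only [γ, if_neg h2, mul_one]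
      have h3 : ¬ Rare R K L (ed 0 T) r := fun h => h2 ⟨0, h⟩
      unfold Rare at h3
      rw [not_lt] at h3
      exact X.avg_ind_le P T 0 r K h3
  have hAnn : ∀ T r, 0 ≤ X.g T * A T r * γ T r := fun T r =>
    mul_nonneg (mul_nonneg (X.g_nonneg T) (hA0 T r)) (hγ0 T r)
  let Y : (Edge n → Γ) → ℝ := fun r => ∑ T, X.g T * A T r * γ T r
  have hAsum : ∀ T, X.g T * ∑ r, A T r = M := by
    intro T
    have h3 := P.tower (fun _ => 1) (X.ind T) (fun _ _ _ => rfl)
    simp only [one_mul] at h3
    simp only [A]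
    rw [h3]
    exact X.sum_ind T
  have hcardT : (Fintype.card (Tri n) : ℝ) = (n : ℝ) ^ 3 := by
    simp [Tri]
  -- first moment of X
  have hX1 : (n : ℝ) ^ 3 * M - 3 * ((n : ℝ) ^ 3 * M * ε) ≤ ∑ r, Y r := by
    have hbad := sum_bad_le X R L b t hK hb
    have h2 : ∀ T : Tri n, ∑ r, X.g T * A T r * γ T r =
        M - ∑ r : Edge n → Γ, (if ∃ j, Rare R K L (ed j T) r then
          X.g T * X.ind T r else 0) := by
      intro T
      have h3 := P.tower (γ T) (X.ind T) (hγP T)
      have h4 : ∑ r, X.g T * A T r * γ T r = X.g T * ∑ r, γ T r * P.avg (X.ind T) r := by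
        rw [Finset.mul_sum]
        exact Finset.sum_congr rfl fun r _ => by simp only [A]; ring
      have hMeq : M = X.g T * ∑ r : Edge n → Γ, X.ind T r := (X.sum_ind T).symm
      rw [h4, h3, hMeq, Finset.mul_sum, Finset.mul_sum, ← Finset.sum_sub_distrib]
      refine Finset.sum_congr rfl fun r _ => ?_
      simp only [γ]
      split_ifs <;> ring
    have h5 : ∑ r, Y r = ∑ T : Tri n, ∑ r, X.g T * A T r * γ T r := by
      simp only [Y]
      rw [Finset.sum_comm]
    rw [h5, Finset.sum_congr rfl fun T _ => h2 T, Finset.sum_sub_distrib, Finset.sum_const,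
      Finset.card_univ, nsmul_eq_mul, hcardT]
    linarith
  -- second moment of X
  have hX2 : ∑ r, Y r ^ 2 ≤ ((n : ℝ) ^ 6 + 3 * (n : ℝ) ^ 4 * Kc) * M := by
    have h2 : ∀ r, Y r ^ 2 = ∑ T, ∑ T', (X.g T * A T r * γ T r) * (X.g T' * A T' r * γ T' r) := by
      intro r
      simp only [Y]
      rw [pow_two, Finset.sum_mul_sum]
    have hgen : ∀ T T' : Tri n, ∑ r, (X.g T * A T r * γ T r) * (X.g T' * A T' r * γ T' r) ≤
        M + ∑ i : Fin 3, (if ed i T = ed i T' then Kc * M else 0) := by
      intro T T'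
      have hKM : 0 ≤ Kc * M := mul_nonneg hKc0 hM0
      by_cases hs : ∃ i, ed i T = ed i T'
      · obtain ⟨i, hi⟩ := hs
        have h3 : ∑ r, (X.g T * A T r * γ T r) * (X.g T' * A T' r * γ T' r) ≤ Kc * M := by
          have h4 : ∀ r, (X.g T * A T r * γ T r) * (X.g T' * A T' r * γ T' r) ≤
              Kc * (X.g T' * A T' r) := by
            intro r
            have h5 : X.g T' * A T' r * γ T' r ≤ X.g T' * A T' r := by
              calc X.g T' * A T' r * γ T' r ≤ X.g T' * A T' r * 1 :=
                    mul_le_mul_of_nonneg_left (hγ1 T' r) (mul_nonneg (X.g_nonneg T') (hA0 T' r))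
                _ = X.g T' * A T' r := mul_one _
            exact mul_le_mul (hAK T r) h5 (hAnn T' r) hKc0
          calc ∑ r, (X.g T * A T r * γ T r) * (X.g T' * A T' r * γ T' r)
              ≤ ∑ r, Kc * (X.g T' * A T' r) := Finset.sum_le_sum fun r _ => h4 r
            _ = Kc * M := by rw [← Finset.mul_sum, ← Finset.mul_sum, hAsum T']
        have h6 : Kc * M ≤ ∑ i : Fin 3, (if ed i T = ed i T' then Kc * M else 0) := by
          have h7 : ∀ j ∈ (Finset.univ : Finset (Fin 3)),
              0 ≤ (if ed j T = ed j T' then Kc * M else 0) := by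
            intro j _
            split_ifs
            · exact hKM
            · exact le_rfl
          have h8 := Finset.single_le_sum h7 (Finset.mem_univ i)
          rw [if_pos hi] at h8
          exact h8
        linarith
      · push Not at hs
        have hne : T ≠ T' := by
          intro h
          exact hs 0 (by rw [h])
        have h3 : ∑ r, (X.g T * A T r * γ T r) * (X.g T' * A T' r * γ T' r) ≤ M := by
          have h4 : ∀ r, (X.g T * A T r * γ T r) * (X.g T' * A T' r * γ T' r) ≤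
              X.g T * X.g T' * P.avg (fun r => X.ind T r * X.ind T' r) r := by
            intro r
            rw [X.avg_mul_disjoint P hs r]
            have h5 : γ T r * γ T' r ≤ 1 := by
              calc γ T r * γ T' r ≤ 1 * 1 :=
                    mul_le_mul (hγ1 T r) (hγ1 T' r) (hγ0 T' r) (by norm_num)
                _ = 1 := by norm_num
            have h6 : 0 ≤ X.g T * X.g T' * (A T r * A T' r) := by
              have := hA0 T r
              have := hA0 T' r
              have := X.g_nonneg T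
              have := X.g_nonneg T'
              positivity
            calc (X.g T * A T r * γ T r) * (X.g T' * A T' r * γ T' r)
                = X.g T * X.g T' * (A T r * A T' r) * (γ T r * γ T' r) := by ring
              _ ≤ X.g T * X.g T' * (A T r * A T' r) * 1 := mul_le_mul_of_nonneg_left h5 h6
              _ = X.g T * X.g T' * (A T r * A T' r) := by ring
          have h7 := P.tower (fun _ => 1) (fun r => X.ind T r * X.ind T' r) (fun _ _ _ => rfl)
          simp only [one_mul] at h7
          calc ∑ r, (X.g T * A T r * γ T r) * (X.g T' * A T' r * γ T' r)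
              ≤ ∑ r, X.g T * X.g T' * P.avg (fun r => X.ind T r * X.ind T' r) r :=
                Finset.sum_le_sum fun r _ => h4 r
            _ ≤ M := by
                rw [← Finset.mul_sum, h7]
                exact X.sum_ind_mul_disjoint hs
        have h8 : 0 ≤ ∑ i : Fin 3, (if ed i T = ed i T' then Kc * M else 0) := by
          refine Finset.sum_nonneg fun i _ => ?_
          split_ifs
          · exact hKM
          · exact le_rfl
        linarith
    calc ∑ r, Y r ^ 2 = ∑ T, ∑ T', ∑ r, (X.g T * A T r * γ T r) * (X.g T' * A T' r * γ T' r) := by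
          rw [Finset.sum_congr rfl fun r _ => h2 r, Finset.sum_comm]
          refine Finset.sum_congr rfl fun T _ => ?_
          rw [Finset.sum_comm]
      _ ≤ ∑ T : Tri n, ∑ T' : Tri n,
            (M + ∑ i : Fin 3, (if ed i T = ed i T' then Kc * M else 0)) :=
          Finset.sum_le_sum fun T _ => Finset.sum_le_sum fun T' _ => hgen T T'
      _ = ∑ T : Tri n, ((n : ℝ) ^ 3 * M + ∑ i : Fin 3,
            ((Finset.univ.filter fun T' : Tri n => ed i T = ed i T').card : ℝ) *
              (Kc * M)) := by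
          refine Finset.sum_congr rfl fun T _ => ?_
          rw [Finset.sum_add_distrib, Finset.sum_const, Finset.card_univ, nsmul_eq_mul, hcardT,
            Finset.sum_comm]
          congr 1
          refine Finset.sum_congr rfl fun i _ => ?_
          rw [← Finset.sum_filter, Finset.sum_const, nsmul_eq_mul]
      _ ≤ ∑ T : Tri n, ((n : ℝ) ^ 3 * M + ∑ _i : Fin 3, (n : ℝ) * (Kc * M)) := by
          refine Finset.sum_le_sum fun T _ => ?_
          refine add_le_add le_rfl (Finset.sum_le_sum fun i _ => ?_)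
          exact mul_le_mul_of_nonneg_right (card_share_le i T)
            (mul_nonneg hKc0 hM0)
      _ = ((n : ℝ) ^ 6 + 3 * (n : ℝ) ^ 4 * Kc) * M := by
          rw [Finset.sum_const, Finset.card_univ, nsmul_eq_mul, hcardT]
          simp only [Finset.sum_const, Finset.card_univ, Fintype.card_fin, nsmul_eq_mul]
          push_cast
          ring
  -- deviation of X
  have hdev : ∑ r, |Y r - (n : ℝ) ^ 3| ≤
      (n : ℝ) ^ 3 * M * Real.sqrt (3 * Kc / (n : ℝ) ^ 2 + 6 * ε) := by
    have hsq : ∑ r, (Y r - (n : ℝ) ^ 3) ^ 2 ≤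
        (3 * (n : ℝ) ^ 4 * Kc + 6 * (n : ℝ) ^ 6 * ε) * M := by
      have h2 : ∑ r, (Y r - (n : ℝ) ^ 3) ^ 2 =
          ∑ r, Y r ^ 2 - 2 * (n : ℝ) ^ 3 * ∑ r, Y r + (n : ℝ) ^ 6 * M := by
        have h3 : ∀ r, (Y r - (n : ℝ) ^ 3) ^ 2 =
            Y r ^ 2 - 2 * (n : ℝ) ^ 3 * Y r + (n : ℝ) ^ 6 := by
          intro r; ring
        rw [Finset.sum_congr rfl fun r _ => h3 r, Finset.sum_add_distrib,
          Finset.sum_sub_distrib, ← Finset.mul_sum, Finset.sum_const, Finset.card_univ,
          nsmul_eq_mul]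
        ring
      rw [h2]
      have h4 : 2 * (n : ℝ) ^ 3 * ((n : ℝ) ^ 3 * M - 3 * ((n : ℝ) ^ 3 * M * ε)) ≤
          2 * (n : ℝ) ^ 3 * ∑ r, Y r := mul_le_mul_of_nonneg_left hX1 (by positivity)
      nlinarith [hX2, h4]
    have hCS := Finset.sum_mul_sq_le_sq_mul_sq Finset.univ (fun _ : Edge n → Γ => (1 : ℝ))
      (fun r => |Y r - (n : ℝ) ^ 3|)
    simp only [one_mul, one_pow, sq_abs, Finset.sum_const, Finset.card_univ, nsmul_eq_mul,
      mul_one] at hCS
    have hε0 : 0 ≤ ε := Real.sqrt_nonneg _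
    have h5 : (∑ r, |Y r - (n : ℝ) ^ 3|) ^ 2 ≤
        ((n : ℝ) ^ 3 * M * Real.sqrt (3 * Kc / (n : ℝ) ^ 2 + 6 * ε)) ^ 2 := by
      refine hCS.trans ?_
      rw [mul_pow, Real.sq_sqrt (by positivity)]
      calc M * ∑ r, (Y r - (n : ℝ) ^ 3) ^ 2
          ≤ M * ((3 * (n : ℝ) ^ 4 * Kc + 6 * (n : ℝ) ^ 6 * ε) * M) :=
            mul_le_mul_of_nonneg_left hsq hM0
        _ = ((n : ℝ) ^ 3 * M) ^ 2 * (3 * Kc / (n : ℝ) ^ 2 + 6 * ε) := by
            field_simp
    exact (le_abs_self _).trans (abs_le_of_sq_le_sq h5 (by positivity))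
  -- lower bound for the accepted planted mass outside the covered triangles
  let κ : Tri n → (Edge n → Γ) → ℝ := fun T r => if T ∈ Cov r then 0 else 1
  have hκP : ∀ T, P.Meas (κ T) := by
    intro T r r' h
    simp only [κ, hCov r r' (hmem r r' h)]
  have haccP : P.Meas acc := fun r r' h => hacc r r' (hmem r r' h)
  have hlow : ∑ T : Tri n, ∑ r, acc r * κ T r * (X.g T * A T r * γ T r) ≤
      ∑ T : Tri n, ∑ r : Edge n → Γ, (if T ∉ Cov r then X.g T * X.ind T r * acc r else 0) := by
    refine Finset.sum_le_sum fun T _ => ?_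
    have h2 := P.tower (fun r => acc r * κ T r * γ T r) (X.ind T)
      (BoxPart.Meas.mul P (BoxPart.Meas.mul P haccP (hκP T)) (hγP T))
    have h3 : ∑ r, acc r * κ T r * (X.g T * A T r * γ T r) =
        X.g T * ∑ r, acc r * κ T r * γ T r * P.avg (X.ind T) r := by
      rw [Finset.mul_sum]
      exact Finset.sum_congr rfl fun r _ => by simp only [A]; ring
    rw [h3, h2, Finset.mul_sum]
    refine Finset.sum_le_sum fun r _ => ?_
    by_cases h5 : T ∈ Cov r
    · simp [κ, h5]
    · simp only [κ, if_neg h5, mul_one]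
      rw [if_pos h5]
      have h6 : acc r * γ T r ≤ acc r * 1 := mul_le_mul_of_nonneg_left (hγ1 T r) (h0 r)
      have h7 : 0 ≤ X.g T * X.ind T r := mul_nonneg (X.g_nonneg T) (X.ind_nonneg T r)
      calc X.g T * (acc r * γ T r * X.ind T r) = X.g T * X.ind T r * (acc r * γ T r) := by ring
        _ ≤ X.g T * X.ind T r * (acc r * 1) := mul_le_mul_of_nonneg_left h6 h7
        _ = X.g T * X.ind T r * acc r := by ring
  refine le_trans ?_ hlow
  have h2 : ∑ T : Tri n, ∑ r, acc r * κ T r * (X.g T * A T r * γ T r) =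
      ∑ r, acc r * (Y r - ∑ T ∈ Cov r, X.g T * A T r * γ T r) := by
    rw [Finset.sum_comm]
    refine Finset.sum_congr rfl fun r _ => ?_
    have h3 : ∑ T : Tri n, acc r * κ T r * (X.g T * A T r * γ T r) =
        acc r * ∑ T : Tri n, κ T r * (X.g T * A T r * γ T r) := by
      rw [Finset.mul_sum]
      exact Finset.sum_congr rfl fun T _ => by ring
    rw [h3]
    congr 1
    have h4 : ∑ T ∈ Cov r, X.g T * A T r * γ T r =
        ∑ T : Tri n, (if T ∈ Cov r then X.g T * A T r * γ T r else 0) := by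
      rw [Finset.sum_ite_mem, Finset.univ_inter]
    rw [h4]
    simp only [Y]
    rw [← Finset.sum_sub_distrib]
    refine Finset.sum_congr rfl fun T _ => ?_
    simp only [κ]
    split_ifs <;> ring
  rw [h2]
  have h3 : ∀ r, acc r * (n : ℝ) ^ 3 - |Y r - (n : ℝ) ^ 3| - (N : ℝ) * Kc ≤
      acc r * (Y r - ∑ T ∈ Cov r, X.g T * A T r * γ T r) := by
    intro r
    have h4 : ∑ T ∈ Cov r, X.g T * A T r * γ T r ≤ (N : ℝ) * Kc := by
      calc ∑ T ∈ Cov r, X.g T * A T r * γ T r ≤ ∑ _T ∈ Cov r, Kc :=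
            Finset.sum_le_sum fun T _ => hAK T r
        _ = ((Cov r).card : ℝ) * Kc := by rw [Finset.sum_const, nsmul_eq_mul]
        _ ≤ (N : ℝ) * Kc :=
            mul_le_mul_of_nonneg_right (by exact_mod_cast hN r) hKc0
    have hNK : 0 ≤ (N : ℝ) * Kc := by positivity
    have h5 : acc r * ((n : ℝ) ^ 3 - Y r) ≤ |Y r - (n : ℝ) ^ 3| := by
      calc acc r * ((n : ℝ) ^ 3 - Y r) ≤ acc r * |Y r - (n : ℝ) ^ 3| :=
            mul_le_mul_of_nonneg_left (by rw [abs_sub_comm]; exact le_abs_self _) (h0 r)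
        _ ≤ 1 * |Y r - (n : ℝ) ^ 3| := mul_le_mul_of_nonneg_right (h1 r) (abs_nonneg _)
        _ = |Y r - (n : ℝ) ^ 3| := one_mul _
    have h6 : acc r * ∑ T ∈ Cov r, X.g T * A T r * γ T r ≤ (N : ℝ) * Kc := by
      calc acc r * ∑ T ∈ Cov r, X.g T * A T r * γ T r ≤ acc r * ((N : ℝ) * Kc) :=
            mul_le_mul_of_nonneg_left h4 (h0 r)
        _ ≤ 1 * ((N : ℝ) * Kc) := mul_le_mul_of_nonneg_right (h1 r) hNK
        _ = (N : ℝ) * Kc := one_mul _
    nlinarith [h5, h6]
  have h4 := Finset.sum_le_sum fun r (_ : r ∈ (Finset.univ : Finset (Edge n → Γ))) => h3 r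
  refine le_trans ?_ h4
  rw [Finset.sum_sub_distrib, Finset.sum_sub_distrib, ← Finset.sum_mul, Finset.sum_const,
    Finset.card_univ, nsmul_eq_mul]
  have h5 : (n : ℝ) ^ 3 * M * ((N : ℝ) * (X.C * 2 ^ (b + t)) / (n : ℝ) ^ 3) = M * ((N : ℝ) * Kc) := by
    rw [hKr]
    field_simp
  rw [hKr] at hdev
  rw [mul_add, h5]
  linarith

end Core

end Pool.Agent.Helper7.LK
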