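import Mathlib
import Pool.Agent.Helper7.LK.Core2

/-!
# Tiny cells are improbable, also under the planted laws
-/

set_option autoImplicit false

namespace Pool.Agent.Helper7.LK

open Finset Pool.Agent.Helper95.LK Pool.Agent.Helper95.LK.Reading

section pot

variable {E Γ : Type*} [Fintype E] [DecidableEq E] [Fintype Γ] [DecidableEq Γ] (R : Reading E Γ)

lemma pot_pos (s : ℕ) (e : E) (r : E → Γ) : 0 < R.pot s e r := by
  have hcard : (0 : ℝ) < ((R.cell s r e).card : ℝ) := by
    exact_mod_cast Finset.card_pos.2 (R.cell_nonempty s r e)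
  unfold Reading.pot
  positivity

/-- the potential of an edge does not change when another edge is asked -/
lemma pot_const {s : ℕ} {e : E} {r : E → Γ} (hex : ¬ ∃ f, R.act s r = some (e, f)) :
    ∀ r' ∈ (R.partAt s).box r, R.pot (s + 1) e r' = R.pot s e r := by
  classical
  intro r' hr'
  have hm : ∀ e, r' e ∈ R.cell s r e := ((R.partAt s).mem_box).1 hr'
  have hact : ¬ ∃ f, R.act s r' = some (e, f) := by rw [R.act_eq hm s le_rfl]; exact hex
  unfold Reading.pot
  rw [R.used_succ s r' e, if_neg hact, R.used_eq hm le_rfl e,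
    R.cell_succ_of_not hact, R.cell_eq_of_mem hm s le_rfl]
  simp

/-- box-wise supermartingale property -/
lemma pot_avg_le (s : ℕ) (e : E) (r : E → Γ) :
    (R.partAt s).avg (R.pot (s + 1) e) r ≤ R.pot s e r := by
  classical
  have hbox : (0 : ℝ) < (((R.partAt s).box r).card : ℝ) := (R.partAt s).card_box_pos r
  have hmem : ∀ r' ∈ (R.partAt s).box r, ∀ e, r' e ∈ R.cell s r e := by
    intro r' hr'
    exact ((R.partAt s).mem_box).1 hr'
  have hcard : (0 : ℝ) < ((R.cell s r e).card : ℝ) := by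
    exact_mod_cast Finset.card_pos.2 (R.cell_nonempty s r e)
  by_cases hex : ∃ f, R.act s r = some (e, f)
  · obtain ⟨f, hf⟩ := hex
    have hval : ∀ r' ∈ (R.partAt s).box r, R.pot (s + 1) e r' =
        (1 / 2 : ℝ) ^ (R.used s r e + 1) *
          (1 / ((((R.cell s r e).filter fun γ => f γ = f (r' e)).card : ℝ))) := by
      intro r' hr'
      have hm := hmem r' hr'
      have hact : R.act s r' = some (e, f) := by rw [R.act_eq hm s le_rfl]; exact hf
      unfold Reading.pot
      rw [R.used_succ s r' e, if_pos ⟨f, hact⟩, R.used_eq hm le_rfl e,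
        R.cell_succ_of_some hact, R.cell_eq_of_mem hm s le_rfl]
      ring
    unfold BoxPart.avg
    rw [Finset.sum_congr rfl hval, ← Finset.mul_sum]
    have hs' : ((R.cell s r e).card : ℝ) * ∑ r' ∈ (R.partAt s).box r,
        (1 / ((((R.cell s r e).filter fun γ => f γ = f (r' e)).card : ℝ))) =
        (((R.partAt s).box r).card : ℝ) * ∑ α ∈ R.cell s r e,
          (1 : ℝ) / ((((R.cell s r e).filter fun γ => f γ = f α).card : ℝ)) :=
      sum_coord (R.cell s r) (R.cell_nonempty s r) e
        (fun α => (1 : ℝ) / ((((R.cell s r e).filter fun γ => f γ = f α).card : ℝ)))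
    have h2 := sum_split (R.cell s r e) f
    set S := ∑ r' ∈ (R.partAt s).box r,
        (1 / ((((R.cell s r e).filter fun γ => f γ = f (r' e)).card : ℝ))) with hS
    have h3 : ((R.cell s r e).card : ℝ) * S ≤ (((R.partAt s).box r).card : ℝ) * 2 := by
      rw [hs']
      exact mul_le_mul_of_nonneg_left h2 hbox.le
    unfold Reading.pot
    rw [div_le_div_iff₀ hbox hcard]
    have hp : (0 : ℝ) ≤ (1 / 2 : ℝ) ^ R.used s r e := by positivity
    have h4 := mul_le_mul_of_nonneg_left h3 hp
    calc (1 / 2 : ℝ) ^ (R.used s r e + 1) * S * ((R.cell s r e).card : ℝ)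
        = (1 / 2 : ℝ) ^ R.used s r e * (((R.cell s r e).card : ℝ) * S) / 2 := by ring
      _ ≤ (1 / 2 : ℝ) ^ R.used s r e * ((((R.partAt s).box r).card : ℝ) * 2) / 2 := by
          linarith
      _ = (1 / 2 : ℝ) ^ R.used s r e * (((R.partAt s).box r).card : ℝ) := by ring
  · have hval := pot_const R hex
    unfold BoxPart.avg
    rw [Finset.sum_congr rfl hval, Finset.sum_const, nsmul_eq_mul]
    rw [mul_comm, mul_div_assoc, div_self hbox.ne', mul_one]

lemma avg_mul_const (P : BoxPart E Γ) (φ : (E → Γ) → ℝ) (c : ℝ) (ψ : (E → Γ) → ℝ) (r : E → Γ)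
    (h : ∀ r' ∈ P.box r, ψ r' = c) : P.avg (fun r => φ r * ψ r) r = P.avg φ r * c := by
  unfold BoxPart.avg
  have h1 : ∑ r' ∈ P.box r, φ r' * ψ r' = (∑ r' ∈ P.box r, φ r') * c := by
    rw [Finset.sum_mul]
    exact Finset.sum_congr rfl fun r' hr' => by rw [h r' hr']
  rw [h1]
  ring

/-- the product of the potentials of two edges is a supermartingale -/
lemma pot_mul_step (s : ℕ) {e j : E} (hej : e ≠ j) :
    ∑ r, R.pot (s + 1) e r * R.pot (s + 1) j r ≤ ∑ r, R.pot s e r * R.pot s j r := by
  classical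
  have h0 := (R.partAt s).tower (fun _ => 1) (fun r => R.pot (s + 1) e r * R.pot (s + 1) j r)
    (fun _ _ _ => rfl)
  simp only [one_mul] at h0
  rw [← h0]
  refine Finset.sum_le_sum fun r _ => ?_
  have hpe := pot_pos R s e r
  have hpj := pot_pos R s j r
  by_cases hex : ∃ f, R.act s r = some (e, f)
  · have hj : ¬ ∃ f, R.act s r = some (j, f) := by
      rintro ⟨f', hf'⟩
      obtain ⟨f, hf⟩ := hex
      rw [hf] at hf'
      simp only [Option.some.injEq, Prod.mk.injEq] at hf'
      exact hej hf'.1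
    rw [avg_mul_const (R.partAt s) (R.pot (s + 1) e) (R.pot s j r) (R.pot (s + 1) j) r
      (pot_const R hj)]
    exact mul_le_mul_of_nonneg_right (pot_avg_le R s e r) hpj.le
  · have h1 : (R.partAt s).avg (fun r => R.pot (s + 1) e r * R.pot (s + 1) j r) r =
        (R.partAt s).avg (fun r => R.pot (s + 1) j r * R.pot (s + 1) e r) r := by
      unfold BoxPart.avg
      congr 1
      exact Finset.sum_congr rfl fun r' _ => mul_comm _ _
    rw [h1, avg_mul_const (R.partAt s) (R.pot (s + 1) j) (R.pot s e r) (R.pot (s + 1) e) r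
      (pot_const R hex), mul_comm]
    exact mul_le_mul_of_nonneg_left (pot_avg_le R s j r) hpe.le

lemma pot_mul_le (s : ℕ) {e j : E} (hej : e ≠ j) :
    ∑ r, R.pot s e r * R.pot s j r ≤
      (Fintype.card (E → Γ) : ℝ) / (Fintype.card Γ : ℝ) ^ 2 := by
  classical
  induction s with
  | zero =>
    have h : ∀ e r, R.pot 0 e r = 1 / (Fintype.card Γ : ℝ) := by
      intro e r
      unfold Reading.pot Reading.used Reading.cell
      simp
    rw [Finset.sum_congr rfl fun r _ => by rw [h e r, h j r]]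
    rw [Finset.sum_const, Finset.card_univ, nsmul_eq_mul]
    apply le_of_eq
    ring
  | succ s ih => exact (pot_mul_step R s hej).trans ih

lemma one_le_pot {L b : ℕ} {e : E} {r : E → Γ} (hb : R.used L r e ≤ b) :
    1 ≤ 2 ^ b * ((R.cell L r e).card : ℝ) * R.pot L e r := by
  have hcard : (0 : ℝ) < ((R.cell L r e).card : ℝ) := by
    exact_mod_cast Finset.card_pos.2 (R.cell_nonempty L r e)
  unfold Reading.pot
  have h1 : (2 : ℝ) ^ b * ((R.cell L r e).card : ℝ) *
      ((1 / 2 : ℝ) ^ R.used L r e / ((R.cell L r e).card : ℝ)) =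
      2 ^ b * (1 / 2 : ℝ) ^ R.used L r e := by
    field_simp
  rw [h1]
  have h2 : (1 / 2 : ℝ) ^ b ≤ (1 / 2 : ℝ) ^ R.used L r e :=
    pow_le_pow_of_le_one (by norm_num) (by norm_num) hb
  calc (1 : ℝ) = 2 ^ b * (1 / 2 : ℝ) ^ b := by rw [← mul_pow]; norm_num
    _ ≤ 2 ^ b * (1 / 2 : ℝ) ^ R.used L r e := mul_le_mul_of_nonneg_left h2 (by positivity)

open Classical in
/-- few points have a tiny cell -/
lemma card_tiny_le (L b H : ℕ) (hb : ∀ r e, R.used L r e ≤ b) (hΓ : 0 < Fintype.card Γ) :
    ((univ.filter fun r : E → Γ => ∃ e, (R.cell L r e).card < H).card : ℝ) ≤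
      (Fintype.card E : ℝ) * (2 ^ b * H / (Fintype.card Γ : ℝ)) *
        (Fintype.card (E → Γ) : ℝ) := by
  have h1 : ∀ e : E, ((univ.filter fun r : E → Γ => (R.cell L r e).card < H).card : ℝ) ≤
      (2 ^ b * H / (Fintype.card Γ : ℝ)) * (Fintype.card (E → Γ) : ℝ) := by
    intro e
    have h2 : ∀ r ∈ univ.filter (fun r : E → Γ => (R.cell L r e).card < H),
        (1 : ℝ) ≤ 2 ^ b * H * R.pot L e r := by
      intro r hr
      have h3 := (mem_filter.1 hr).2
      have h4 : ((R.cell L r e).card : ℝ) ≤ H := by exact_mod_cast h3.le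
      have h5 := pot_pos R L e r
      calc (1 : ℝ) ≤ 2 ^ b * ((R.cell L r e).card : ℝ) * R.pot L e r := one_le_pot R (hb r e)
        _ ≤ 2 ^ b * H * R.pot L e r := by gcongr
    calc ((univ.filter fun r : E → Γ => (R.cell L r e).card < H).card : ℝ)
        = ∑ r ∈ univ.filter (fun r : E → Γ => (R.cell L r e).card < H), (1 : ℝ) := by simp
      _ ≤ ∑ r ∈ univ.filter (fun r : E → Γ => (R.cell L r e).card < H),
            2 ^ b * H * R.pot L e r := Finset.sum_le_sum h2
      _ ≤ ∑ r, 2 ^ b * H * R.pot L e r := by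
          refine Finset.sum_le_sum_of_subset_of_nonneg (Finset.subset_univ _) ?_
          intro r _ _
          have := pot_pos R L e r
          positivity
      _ = 2 ^ b * H * ∑ r, R.pot L e r := by rw [Finset.mul_sum]
      _ ≤ 2 ^ b * H * ((Fintype.card (E → Γ) : ℝ) / (Fintype.card Γ : ℝ)) :=
          mul_le_mul_of_nonneg_left (R.pot_le L e) (by positivity)
      _ = _ := by ring
  have h2 : (univ.filter fun r : E → Γ => ∃ e, (R.cell L r e).card < H) ⊆
      univ.biUnion fun e => univ.filter fun r : E → Γ => (R.cell L r e).card < H := by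
    intro r hr
    obtain ⟨e, he⟩ := (mem_filter.1 hr).2
    rw [mem_biUnion]
    exact ⟨e, mem_univ e, mem_filter.2 ⟨mem_univ r, he⟩⟩
  calc ((univ.filter fun r : E → Γ => ∃ e, (R.cell L r e).card < H).card : ℝ)
      ≤ ((∑ e : E, (univ.filter fun r : E → Γ => (R.cell L r e).card < H).card : ℕ) : ℝ) := by
        exact_mod_cast (Finset.card_le_card h2).trans Finset.card_biUnion_le
    _ = ∑ e : E, ((univ.filter fun r : E → Γ => (R.cell L r e).card < H).card : ℝ) := by
        push_cast; rfl
    _ ≤ ∑ _e : E, (2 ^ b * H / (Fintype.card Γ : ℝ)) * (Fintype.card (E → Γ) : ℝ) :=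
        Finset.sum_le_sum fun e _ => h1 e
    _ = _ := by
        rw [Finset.sum_const, Finset.card_univ, nsmul_eq_mul]; ring

end pot

section planted

variable {n : ℕ} {Γ : Type*} [Fintype Γ] [DecidableEq Γ] [AddCommGroup Γ] (X : Plant n Γ)
  (R : Reading (Edge n) Γ)

open Classical in
/-- tiny cells under the law planted at `T` -/
lemma planted_tiny_le (L b H : ℕ) (hb : ∀ r e, R.used L r e ≤ b) (hΓ : 0 < Fintype.card Γ)
    (T : Tri n) :
    X.g T * ∑ r : Edge n → Γ, (if ∃ e, (R.cell L r e).card < H then X.ind T r else 0) ≤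
      (Fintype.card (Edge n) : ℝ) * (X.C * 4 ^ b * H / (Fintype.card Γ : ℝ)) *
        (Fintype.card (Edge n → Γ) : ℝ) := by
  have hC0 : 0 ≤ X.C := le_trans zero_le_one X.one_le_C
  set M : ℝ := (Fintype.card (Edge n → Γ) : ℝ) with hM
  set gΓ : ℝ := (Fintype.card Γ : ℝ) with hg
  have hg0 : 0 < gΓ := by rw [hg]; exact_mod_cast hΓ
  set P := R.partAt L with hP
  have hmem : ∀ r r', r' ∈ P.box r → ∀ e, r' e ∈ R.cell L r e := fun r r' h => P.mem_box.1 h
  have h1 : ∀ e : Edge n, X.g T * ∑ r : Edge n → Γ,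
      (if (R.cell L r e).card < H then X.ind T r else 0) ≤
      (X.C * 4 ^ b * H / gΓ) * M := by
    intro e
    obtain ⟨i, hi⟩ : ∃ i : Fin 3, e ≠ ed i T := by
      by_contra hc
      push Not at hc
      exact ed_ne_of_ne (show (0 : Fin 3) ≠ 1 by decide) T T ((hc 0).symm.trans (hc 1))
    set j := ed i T with hj
    let τ : (Edge n → Γ) → ℝ := fun r => if (R.cell L r e).card < H then 1 else 0
    have hτ : P.Meas τ := by
      intro r r' h
      have hc := R.cell_eq_of_mem (hmem r r' h) L le_rfl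
      simp only [τ, hc]
    have hτ0 : ∀ r, 0 ≤ τ r := by intro r; simp only [τ]; split_ifs <;> norm_num
    have h2 := P.tower τ (X.ind T) hτ
    have h3 : ∑ r : Edge n → Γ, (if (R.cell L r e).card < H then X.ind T r else 0) =
        ∑ r, τ r * X.ind T r := by
      refine Finset.sum_congr rfl fun r _ => ?_
      simp only [τ]
      split_ifs <;> ring
    rw [h3, ← h2, Finset.mul_sum]
    have h4 : ∀ r, X.g T * (τ r * P.avg (X.ind T) r) ≤
        X.C * 4 ^ b * H * gΓ * (R.pot L e r * R.pot L j r) := by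
      intro r
      have hpe := pot_pos R L e r
      have hpj := pot_pos R L j r
      have hcj : (0 : ℝ) < ((R.cell L r j).card : ℝ) := by
        exact_mod_cast Finset.card_pos.2 (R.cell_nonempty L r j)
      have h5 : P.avg (X.ind T) r ≤ 1 / ((R.cell L r j).card : ℝ) :=
        P.avg_le_of_unique (X.ind T) j r (X.ind_01 T) (fun r α β => X.ind_unique T i r α β)
      have h6 : 1 / ((R.cell L r j).card : ℝ) ≤ 2 ^ b * R.pot L j r := by
        rw [div_le_iff₀ hcj]
        have := one_le_pot R (hb r j)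
        linarith
      have h7 : τ r ≤ 2 ^ b * H * R.pot L e r := by
        simp only [τ]
        split_ifs with h8
        · have h9 : ((R.cell L r e).card : ℝ) ≤ H := by exact_mod_cast h8.le
          calc (1 : ℝ) ≤ 2 ^ b * ((R.cell L r e).card : ℝ) * R.pot L e r :=
                one_le_pot R (hb r e)
            _ ≤ 2 ^ b * H * R.pot L e r := by gcongr
        · positivity
      have h8 : 0 ≤ P.avg (X.ind T) r := P.avg_nonneg (X.ind_nonneg T) r
      have h9 : τ r * P.avg (X.ind T) r ≤ (2 ^ b * H * R.pot L e r) * (2 ^ b * R.pot L j r) :=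
        mul_le_mul h7 (h5.trans h6) h8 (by positivity)
      calc X.g T * (τ r * P.avg (X.ind T) r)
          ≤ (X.C * gΓ) * ((2 ^ b * H * R.pot L e r) * (2 ^ b * R.pot L j r)) :=
            mul_le_mul (X.g_le T) h9 (mul_nonneg (hτ0 r) h8) (by positivity)
        _ = X.C * (2 ^ b * 2 ^ b) * H * gΓ * (R.pot L e r * R.pot L j r) := by ring
        _ = X.C * 4 ^ b * H * gΓ * (R.pot L e r * R.pot L j r) := by
            rw [← mul_pow]; norm_num
    calc ∑ r, X.g T * (τ r * P.avg (X.ind T) r)
        ≤ ∑ r, X.C * 4 ^ b * H * gΓ * (R.pot L e r * R.pot L j r) :=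
          Finset.sum_le_sum fun r _ => h4 r
      _ = X.C * 4 ^ b * H * gΓ * ∑ r, R.pot L e r * R.pot L j r := by rw [Finset.mul_sum]
      _ ≤ X.C * 4 ^ b * H * gΓ * (M / gΓ ^ 2) :=
          mul_le_mul_of_nonneg_left (pot_mul_le R L hi) (by positivity)
      _ = _ := by field_simp
  have h2 : ∑ r : Edge n → Γ, (if ∃ e, (R.cell L r e).card < H then X.ind T r else 0) ≤
      ∑ e : Edge n, ∑ r : Edge n → Γ, (if (R.cell L r e).card < H then X.ind T r else 0) := by
    rw [Finset.sum_comm]
    refine Finset.sum_le_sum fun r _ => ?_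
    have hnn : ∀ e ∈ (univ : Finset (Edge n)),
        0 ≤ (if (R.cell L r e).card < H then X.ind T r else 0) := by
      intro e _
      split_ifs
      · exact X.ind_nonneg T r
      · exact le_rfl
    split_ifs with h3
    · obtain ⟨e, he⟩ := h3
      have h4 := Finset.single_le_sum hnn (mem_univ e)
      rw [if_pos he] at h4
      exact h4
    · exact Finset.sum_nonneg hnn
  calc X.g T * ∑ r : Edge n → Γ, (if ∃ e, (R.cell L r e).card < H then X.ind T r else 0)
      ≤ X.g T * ∑ e : Edge n, ∑ r : Edge n → Γ,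
          (if (R.cell L r e).card < H then X.ind T r else 0) :=
        mul_le_mul_of_nonneg_left h2 (X.g_nonneg T)
    _ = ∑ e : Edge n, X.g T * ∑ r : Edge n → Γ,
          (if (R.cell L r e).card < H then X.ind T r else 0) := by rw [Finset.mul_sum]
    _ ≤ ∑ _e : Edge n, (X.C * 4 ^ b * H / gΓ) * M := Finset.sum_le_sum fun e _ => h1 e
    _ = _ := by
        rw [Finset.sum_const, Finset.card_univ, nsmul_eq_mul]; ring

end planted

end Pool.Agent.Helper7.LK
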