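import Mathlib
import Pool.Agent.Helper7.LK.Tiny

/-!
# Integer labels in `[-G, G]` and the law planted at a triangle
-/

set_option autoImplicit false

namespace Pool.Agent.Helper7.LK

open Finset Pool.Agent.Helper95.LK

/-- labels: residues modulo `2 G + 1`, read as the integers in `[-G, G]` -/
abbrev Lab (G : ℕ) := ZMod (2 * G + 1)

/-- the integer of a label -/
def wv {G : ℕ} (x : Lab G) : ℤ := (x.val : ℤ) - G

lemma wv_inj {G : ℕ} : Function.Injective (wv (G := G)) := by
  intro x y h
  unfold wv at h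
  have h1 : (x.val : ℤ) = (y.val : ℤ) := by linarith
  exact ZMod.val_injective _ (by exact_mod_cast h1)

lemma wv_abs {G : ℕ} (x : Lab G) : |wv x| ≤ G := by
  have h1 : x.val < 2 * G + 1 := ZMod.val_lt x
  unfold wv
  rw [abs_le]
  constructor
  · have : (0 : ℤ) ≤ (x.val : ℤ) := Int.natCast_nonneg _
    linarith
  · have : (x.val : ℤ) ≤ 2 * G := by
      have : x.val ≤ 2 * G := by omega
      exact_mod_cast this
    linarith

lemma exists_wv {G : ℕ} {z : ℤ} (hz : |z| ≤ G) : ∃ x : Lab G, wv x = z := by
  rw [abs_le] at hz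
  have h0 : 0 ≤ z + G := by linarith [hz.1]
  obtain ⟨k, hk⟩ := Int.eq_ofNat_of_zero_le h0
  refine ⟨(k : ZMod (2 * G + 1)), ?_⟩
  have hlt : k < 2 * G + 1 := by
    have : (k : ℤ) ≤ 2 * G := by rw [← hk]; linarith [hz.2]
    omega
  unfold wv
  rw [ZMod.val_natCast_of_lt hlt]
  have : (k : ℤ) = z + G := by rw [hk]
  linarith

/-- the label of the opposite integer -/
noncomputable def neg {G : ℕ} (x : Lab G) : Lab G :=
  (exists_wv (G := G) (z := - wv x) (by rw [abs_neg]; exact wv_abs x)).choose

lemma wv_neg {G : ℕ} (x : Lab G) : wv (neg x) = - wv x :=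
  (exists_wv (G := G) (z := - wv x) (by rw [abs_neg]; exact wv_abs x)).choose_spec

lemma neg_inj {G : ℕ} : Function.Injective (neg (G := G)) := by
  intro x y h
  apply wv_inj
  have := congrArg wv h
  rw [wv_neg, wv_neg] at this
  linarith

lemma card_lab (G : ℕ) : Fintype.card (Lab G) = 2 * G + 1 := ZMod.card _

section plant

variable {n G : ℕ}

/-- indicator of `zero sum on T` over the integers -/
noncomputable def indZ (T : Tri n) (s : Edge n → Lab G) : ℝ :=
  if ∑ i, wv (s (ed i T)) = 0 then 1 else 0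

lemma indZ_01 (T : Tri n) (s : Edge n → Lab G) : indZ T s = 0 ∨ indZ T s = 1 := by
  unfold indZ; split_ifs <;> simp

lemma indZ_eq_one {T : Tri n} {s : Edge n → Lab G} :
    indZ T s = 1 ↔ ∑ i, wv (s (ed i T)) = 0 := by
  unfold indZ; split_ifs with h <;> simp [h]

lemma sumZ_update (T : Tri n) (s : Edge n → Lab G) (i : Fin 3) (α : Lab G) :
    ∑ j, wv (Function.update s (ed i T) α (ed j T)) =
      wv α + ∑ j ∈ Finset.univ.erase i, wv (s (ed j T)) := by
  rw [← Finset.add_sum_erase _ _ (Finset.mem_univ i)]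
  congr 1
  · simp
  · refine Finset.sum_congr rfl fun j hj => ?_
    rw [Function.update_of_ne]
    exact ed_ne_of_ne (Finset.ne_of_mem_erase hj) T T

lemma indZ_unique (T : Tri n) (i : Fin 3) (s : Edge n → Lab G) (α β : Lab G)
    (hα : indZ T (Function.update s (ed i T) α) = 1)
    (hβ : indZ T (Function.update s (ed i T) β) = 1) : α = β := by
  rw [indZ_eq_one, sumZ_update] at hα hβ
  apply wv_inj
  linarith

open Classical in
lemma half_le (T : Tri n) : (Fintype.card (Edge n → Lab G) : ℝ) ≤
    2 * ((univ.filter fun s : Edge n → Lab G =>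
      |wv (s (ed 0 T)) + wv (s (ed 1 T))| ≤ G).card : ℝ) := by
  have h01 : ed 0 T ≠ ed 1 T := ed_ne_of_ne (by decide) T T
  have h1 : (univ.filter fun s : Edge n → Lab G =>
      ¬ |wv (s (ed 0 T)) + wv (s (ed 1 T))| ≤ G).card ≤
      (univ.filter fun s : Edge n → Lab G => |wv (s (ed 0 T)) + wv (s (ed 1 T))| ≤ G).card := by
    apply Finset.card_le_card_of_injOn
      (fun s => Function.update s (ed 1 T) (neg (s (ed 1 T))))
    · intro s hs
      rw [Finset.mem_coe, mem_filter] at hs
      rw [Finset.mem_coe, mem_filter]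
      refine ⟨mem_univ _, ?_⟩
      beta_reduce
      rw [Function.update_self, Function.update_of_ne h01, wv_neg]
      have h2 := hs.2
      rw [not_le] at h2
      have h3 := abs_le.1 (wv_abs (s (ed 0 T)))
      have h4 := abs_le.1 (wv_abs (s (ed 1 T)))
      rw [abs_le]
      rcases lt_abs.1 h2 with h5 | h5
      · constructor <;> linarith [h3.1, h3.2, h4.1, h4.2]
      · constructor <;> linarith [h3.1, h3.2, h4.1, h4.2]
    · intro s _ s' _ heq
      funext e
      by_cases he : e = ed 1 T
      · subst he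
        have := congrFun heq (ed 1 T)
        simp only [Function.update_self] at this
        exact neg_inj this
      · have := congrFun heq e
        simp only [Function.update_of_ne he] at this
        exact this
  have h2 := Finset.card_filter_add_card_filter_not (s := (univ : Finset (Edge n → Lab G)))
    (fun s => |wv (s (ed 0 T)) + wv (s (ed 1 T))| ≤ G)
  rw [Finset.card_univ] at h2
  have h3 : Fintype.card (Edge n → Lab G) ≤ 2 * (univ.filter fun s : Edge n → Lab G =>
      |wv (s (ed 0 T)) + wv (s (ed 1 T))| ≤ G).card := by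
    rw [← h2]
    have h4 : (univ.filter fun s : Edge n → Lab G =>
      ¬ |wv (s (ed 0 T)) + wv (s (ed 1 T))| ≤ G).card ≤
      (univ.filter fun s : Edge n → Lab G =>
        |wv (s (ed 0 T)) + wv (s (ed 1 T))| ≤ G).card := h1
    omega
  exact_mod_cast h3

lemma le_sum_update (T : Tri n) (s : Edge n → Lab G)
    (h : |wv (s (ed 0 T)) + wv (s (ed 1 T))| ≤ G) :
    1 ≤ ∑ α, indZ T (Function.update s (ed 2 T) α) := by
  obtain ⟨α, hα⟩ := exists_wv (G := G) (z := -(wv (s (ed 0 T)) + wv (s (ed 1 T))))
    (by rw [abs_neg]; exact h)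
  have h1 : indZ T (Function.update s (ed 2 T) α) = 1 := by
    rw [indZ_eq_one, sumZ_update, hα]
    have : (Finset.univ.erase (2 : Fin 3)) = {0, 1} := by decide
    rw [this, Finset.sum_insert (by decide), Finset.sum_singleton]
    ring
  have h2 : ∀ β ∈ (univ : Finset (Lab G)), 0 ≤ indZ T (Function.update s (ed 2 T) β) := by
    intro β _
    rcases indZ_01 T (Function.update s (ed 2 T) β) with h | h <;> rw [h] <;> norm_num
  calc (1 : ℝ) = indZ T (Function.update s (ed 2 T) α) := h1.symm
    _ ≤ _ := Finset.single_le_sum h2 (mem_univ α)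

lemma card_le_sum_indZ (T : Tri n) : (Fintype.card (Edge n → Lab G) : ℝ) ≤
    2 * (Fintype.card (Lab G) : ℝ) * ∑ s : Edge n → Lab G, indZ T s := by
  classical
  rw [mul_assoc, ← Plant.resample_univ (ed 2 T) (indZ T)]
  refine (half_le (G := G) T).trans ?_
  apply mul_le_mul_of_nonneg_left _ (by norm_num : (0 : ℝ) ≤ 2)
  have h1 : ((univ.filter fun s : Edge n → Lab G =>
      |wv (s (ed 0 T)) + wv (s (ed 1 T))| ≤ G).card : ℝ) =
      ∑ s : Edge n → Lab G, if |wv (s (ed 0 T)) + wv (s (ed 1 T))| ≤ G then (1 : ℝ) else 0 := by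
    rw [← Finset.sum_filter, Finset.sum_const]; simp
  rw [h1]
  refine Finset.sum_le_sum fun s _ => ?_
  split_ifs with h
  · exact le_sum_update T s h
  · refine Finset.sum_nonneg fun β _ => ?_
    rcases indZ_01 T (Function.update s (ed 2 T) β) with h | h <;> rw [h] <;> norm_num

lemma sum_indZ_pos (T : Tri n) : 0 < ∑ s : Edge n → Lab G, indZ T s := by
  have h1 := card_le_sum_indZ (G := G) T
  have h2 : (0 : ℝ) < (Fintype.card (Edge n → Lab G) : ℝ) := by
    exact_mod_cast Fintype.card_pos
  by_contra hcon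
  push Not at hcon
  have h3 : 2 * (Fintype.card (Lab G) : ℝ) * ∑ s : Edge n → Lab G, indZ T s ≤ 0 :=
    mul_nonpos_of_nonneg_of_nonpos (by positivity) hcon
  linarith

/-- the law planted at `T`, uniform on the labellings with sum zero over the integers -/
noncomputable def plantZ (n G : ℕ) : Plant n (Lab G) where
  ind := indZ
  g T := (Fintype.card (Edge n → Lab G) : ℝ) / ∑ s : Edge n → Lab G, indZ T s
  C := 2
  one_le_C := by norm_num
  g_nonneg T := div_nonneg (Nat.cast_nonneg _) (sum_indZ_pos T).le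
  g_le T := by
    rw [div_le_iff₀ (sum_indZ_pos T)]
    exact card_le_sum_indZ T
  ind_01 := indZ_01
  ind_congr T s s' h := by
    unfold indZ
    simp only [h]
  ind_unique := indZ_unique
  sum_ind T := by
    rw [div_mul_cancel₀]
    exact (sum_indZ_pos T).ne'

/-- few labellings have a zero triangle -/
lemma sum_indZ_le (T : Tri n) : (Fintype.card (Lab G) : ℝ) * ∑ s : Edge n → Lab G, indZ T s ≤
    (Fintype.card (Edge n → Lab G) : ℝ) := by
  classical
  rw [← Plant.resample_univ (ed 2 T) (indZ T)]
  calc ∑ s : Edge n → Lab G, ∑ α, indZ T (Function.update s (ed 2 T) α)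
      ≤ ∑ _s : Edge n → Lab G, (1 : ℝ) :=
        Finset.sum_le_sum fun s _ => (plantZ n G).sum_ind_update T 2 s
    _ = _ := by simp

end plant

end Pool.Agent.Helper7.LK
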