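import Mathlib
import Pool.Agent.Helper8.LK.Budget
import Pool.Agent.Helper7.LK.Trunc
import Pool.Agent.Helper7.LK.Zero

/-!
# The ideal run of an algorithm that inspects arbitrary bits and asks no sign queries
-/

set_option autoImplicit false

namespace Pool.Agent.Helper7.LK

open Finset Pool.Agent.Helper95.LK
open Pool.Agent.Helper22.ETModel (E RForm rev tk te te_inter card_te Inst Query SignOK instOf
  flagOf enc sgnCode redc code instOf_valid instOf_yes)
open Pool.Agent.Helper8.LK (LAlg Act lrun lact ract nq nb lrun_congr lact_congr ract_congr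
  lrun_length lrun_degree lrun_mono run_eq_lrun output_eq nq_mono cellE cellE_spec)

/-- triangles -/
abbrev Tr (m : ℕ) := Pool.Agent.Helper22.ETModel.Tri m

variable {m n L R G : ℕ}

/-- the weights of a labelling as residues modulo `0` -/
def wz (s : E m → Lab G) : E m → ZMod 0 := fun e => ((wv (s e) : ℤ) : ZMod 0)

section ideal

variable (A : LAlg n L R) (h : 3 * m ≤ n) (p : Fin 3 × Fin m → ℤ) (ρ : Fin R → Bool)

/-- the reading of the labels by the ideal run -/
noncomputable def read0 (G : ℕ) : Reading (E m) (Lab G) where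
  act t s := (ract A h p ρ t (wz s)).map fun x => (x.1, fun α => x.2 ((wv α : ℤ) : ZMod 0))
  adapted t s s' hs := by
    have h1 : ract A h p ρ t (wz s') = ract A h p ρ t (wz s) := by
      apply ract_congr
      intro i hi e f hf
      have := hs i hi e (fun α => f ((wv α : ℤ) : ZMod 0)) (by rw [hf]; rfl)
      exact this
    rw [h1]

variable {A h p ρ}

lemma agree0 {t : ℕ} {s s' : E m → Lab G}
    (hs : ∀ i < t, ∀ e f, (read0 A h p ρ G).act i s = some (e, f) → f (s' e) = f (s e)) :
    ∀ i < t, ∀ e f, ract A h p ρ i (wz s) = some (e, f) → f (wz s' e) = f (wz s e) := by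
  intro i hi e f hf
  exact hs i hi e (fun α => f ((wv α : ℤ) : ZMod 0)) (by unfold read0; simp only [hf]; rfl)

variable (A h p ρ)

lemma nb_mono (r : E m → ZMod 0) {t t' : ℕ} (htt : t ≤ t') (e : E m) :
    nb A h p ρ r t e ≤ nb A h p ρ r t' e := by
  classical
  unfold nb
  apply Finset.card_le_card
  apply Finset.filter_subset_filter
  intro x hx
  rw [Finset.mem_range] at hx ⊢
  omega

lemma nq_congr {r r' : E m → ZMod 0} {t : ℕ}
    (h1 : ∀ i < t, lact A h p ρ r' i = lact A h p ρ r i) :
    nq A h p ρ r' t = nq A h p ρ r t := by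
  classical
  unfold nq
  congr 1
  apply Finset.filter_congr
  intro i hi
  rw [h1 i (Finset.mem_range.1 hi)]

lemma nb_congr {r r' : E m → ZMod 0} {t : ℕ}
    (h1 : ∀ i < t, lact A h p ρ r' i = lact A h p ρ r i) (e : E m) :
    nb A h p ρ r' t e = nb A h p ρ r t e := by
  classical
  unfold nb
  congr 1
  apply Finset.filter_congr
  intro i hi
  rw [h1 i (Finset.mem_range.1 hi)]

/-- the budgets -/
noncomputable def bud (G D b : ℕ) : Trunc (read0 A h p ρ G) where
  OK t s := nq A h p ρ (wz s) t ≤ D ∧ ∀ e, nb A h p ρ (wz s) t e ≤ b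
  zero s := by simp [nq, nb]
  anti t s hs := ⟨(nq_mono A h p ρ _ (Nat.le_succ t)).trans hs.1,
    fun e => (nb_mono A h p ρ _ (Nat.le_succ t) e).trans (hs.2 e)⟩
  adapted t s s' hs := by
    have h1 := agree0 hs
    have h2 : ∀ i < t + 1, lact A h p ρ (wz s') i = lact A h p ρ (wz s) i := by
      intro i hi
      apply lact_congr
      intro j hj
      exact h1 j (by omega)
    rw [nq_congr A h p ρ h2]
    simp only [nb_congr A h p ρ h2]

variable (D b : ℕ)

/-- the last time within the budgets -/
noncomputable def tau (s : E m → Lab G) : ℕ := (bud A h p ρ G D b).tau L s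

/-- the polynomials of the ideal run -/
noncomputable def VV (s : E m → Lab G) : List (RForm m) :=
  (lrun A h p ρ (wz s) (tau A h p ρ D b s)).2

/-- the output of the ideal run -/
noncomputable def out2 (s : E m → Lab G) : Bool :=
  A.out (flagOf h) ρ (lrun A h p ρ (wz s) (tau A h p ρ D b s)).1

open Classical in
/-- the triangles covered by a list of polynomials -/
noncomputable def covL (l : List (RForm m)) : Finset (Tr m) :=
  univ.filter fun T => ∃ f ∈ l, ∃ f' ∈ l, f ≠ f' ∧
    ∀ w : E m → ℝ, ∑ e ∈ te T, w e = 0 → MvPolynomial.eval w f = MvPolynomial.eval w f'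

lemma mem_covL {l : List (RForm m)} {T : Tr m} : T ∈ covL l ↔ ∃ f ∈ l, ∃ f' ∈ l, f ≠ f' ∧
    ∀ w : E m → ℝ, ∑ e ∈ te T, w e = 0 →
      MvPolynomial.eval w f = MvPolynomial.eval w f' := by
  classical
  unfold covL
  rw [mem_filter]
  exact ⟨fun h => h.2, fun h => ⟨mem_univ _, h⟩⟩

lemma card_covL_le {d D l : ℕ} (V : List (RForm m)) (hlen : V.length ≤ D)
    (hdeg : ∀ f ∈ V, f.totalDegree ≤ d) (hl : 1 ≤ l) (hD : D < 2 ^ l) :
    (covL V).card ≤ (468 * (d + 1) * l ^ 3) * D := by
  classical
  have hch : ∀ T ∈ covL V,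
      ∃ q' : RForm m × RForm m, q'.1 ∈ V ∧ q'.2 ∈ V ∧
        q'.1 ≠ q'.2 ∧ ∀ w : E m → ℝ, ∑ e ∈ te T, w e = 0 →
          MvPolynomial.eval w q'.1 = MvPolynomial.eval w q'.2 := by
    intro T hT
    obtain ⟨f, hf, f', hf', hne, h1⟩ := mem_covL.1 hT
    exact ⟨(f, f'), hf, hf', hne, h1⟩
  choose! g hg using hch
  have hcard : V.toFinset.card ≤ D := (List.toFinset_card_le _).trans hlen
  have h1 := Pool.Agent.Helper22.EP.cover_bound (τ := Tr m) (te := te)
    (fun T T' => te_inter T T') card_te
    (pol := fun f : RForm m => f) (d := d) (V.toFinset)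
    (covL V) (fun T => (g T).1) (fun T => (g T).2)
    (fun T hT => List.mem_toFinset.2 (hg T hT).1) (fun T hT => List.mem_toFinset.2 (hg T hT).2.1)
    (fun T hT => (hg T hT).2.2)
    (by
      intro x hx
      rw [List.mem_toFinset] at hx
      exact hdeg x hx)
    (fun x _ y _ hxy => hxy)
    hl (by omega)
  exact h1.trans (Nat.mul_le_mul_left _ hcard)

/-- the reading -/
noncomputable def readB (G : ℕ) : Reading (E m) (Lab G) := (bud A h p ρ G D b).read

lemma used_readB (s : E m → Lab G) (e : E m) : (readB A h p ρ D b G).used L s e ≤ b := by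
  classical
  have h1 := ((bud A h p ρ G D b).ok_tau L s).2 e
  refine le_trans ?_ h1
  unfold Reading.used nb
  apply Finset.card_le_card
  intro i hi
  simp only [mem_filter, Finset.mem_range] at hi ⊢
  obtain ⟨hi1, f, hf⟩ := hi
  have hf' : (bud A h p ρ G D b).act i s = some (e, f) := hf
  unfold Trunc.act at hf'
  split_ifs at hf' with hok
  refine ⟨?_, ?_⟩
  · have := (bud A h p ρ G D b).le_tau (by omega : i + 1 ≤ L) hok
    omega
  · have hf2 : (ract A h p ρ i (wz s)).map
        (fun x => (x.1, fun α : Lab G => x.2 ((wv α : ℤ) : ZMod 0))) = some (e, f) := hf'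
    unfold ract at hf2
    rcases hq : lact A h p ρ (wz s) i with qu | ⟨a, c, φ⟩
    · rw [hq] at hf2; simp at hf2
    · rw [hq] at hf2
      simp only at hf2
      rcases hc : cellE h a c with _ | e'
      · rw [hc] at hf2; simp at hf2
      · rw [hc] at hf2
        simp only [Option.map_some, Option.some.injEq, Prod.mk.injEq] at hf2
        exact ⟨a, c, φ, rfl, by rw [hc, hf2.1]⟩

section cell

variable {A h p ρ D b} {s s' : E m → Lab G}
  (hc : ∀ e, s' e ∈ (readB A h p ρ D b G).cell L s e)

include hc

lemma tau_congr : tau A h p ρ D b s' = tau A h p ρ D b s :=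
  (bud A h p ρ G D b).tau_eq hc

lemma lrun_tau_congr : lrun A h p ρ (wz s') (tau A h p ρ D b s') =
    lrun A h p ρ (wz s) (tau A h p ρ D b s) := by
  rw [tau_congr hc]
  exact lrun_congr A h p ρ _ (agree0 ((bud A h p ρ G D b).agree_tau hc))

lemma VV_congr : VV A h p ρ D b s' = VV A h p ρ D b s := by
  unfold VV
  rw [lrun_tau_congr hc]

lemma out2_congr : out2 A h p ρ D b s' = out2 A h p ρ D b s := by
  unfold out2
  rw [lrun_tau_congr hc]

end cell

lemma length_VV (s : E m → Lab G) : (VV A h p ρ D b s).length ≤ D :=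
  (lrun_length A h p ρ _ _).trans ((bud A h p ρ G D b).ok_tau L s).1

lemma degree_VV {d : ℕ}
    (hA1 : ∀ fl ρ ans f, A.next fl ρ ans = Act.query (Query.value f) → f.totalDegree ≤ d)
    (s : E m → Lab G) : ∀ f ∈ VV A h p ρ D b s, f.totalDegree ≤ d :=
  lrun_degree A h p ρ _ hA1 _

lemma instOf_wts_valid (hG : G ≤ n ^ 300) (s : E m → Lab G) : (instOf h (wts s)).Valid := by
  apply instOf_valid
  intro e
  refine (wv_abs (s e)).trans ?_
  exact_mod_cast hG

/-- if the values of the ideal run are generic, then it is the real run -/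
theorem generic_run (hG : G ≤ n ^ 300) (hW : A.Within D b)
    (hno : ∀ fl ρ ans a c, A.next fl ρ ans ≠ Act.query (Query.sign a c))
    (s : E m → Lab G) (hs : ¬ badN (VV A h p ρ D b) s) :
    tau A h p ρ D b s = L ∧ A.output (instOf h (wts s)) ρ = out2 A h p ρ D b s := by
  classical
  have hsim : ∀ t, t ≤ tau A h p ρ D b s → ∀ t' ≤ t,
      A.run (instOf h (wts s)) ρ t' =
        ((lrun A h p ρ (wz s) t').1, (lrun A h p ρ (wz s) t').2.map (rev (wts s))) := by
    intro t ht t' ht'
    apply run_eq_lrun A h p ρ (wz s) (wts s) (fun e => rfl) (fun _ _ _ _ _ z => by simp)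
      (T := t) _ _ t' ht'
    · intro f hf f' hf' heq
      by_contra hne
      exact hs ⟨f, lrun_mono A h p ρ _ ht hf, f', lrun_mono A h p ρ _ ht hf', hne, heq⟩
    · intro i _ a c hq
      exact absurd hq (hno _ _ _ _ _)
  have hok : ∀ t ≤ L, (bud A h p ρ G D b).OK t s := by
    intro t
    induction t with
    | zero => intro _; exact (bud A h p ρ G D b).zero s
    | succ t ih =>
      intro ht
      have h1 := ih (by omega)
      have h2 : t ≤ tau A h p ρ D b s := (bud A h p ρ G D b).le_tau (by omega) h1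
      have h3 := hsim t h2
      have h4 := hW (instOf h (wts s)) (instOf_wts_valid h hG s) ρ
      have h5 : ∀ i ≤ t, A.next (instOf h (wts s)).flag ρ (A.run (instOf h (wts s)) ρ i).1 =
          lact A h p ρ (wz s) i := by
        intro i hi
        rw [h3 i hi]; rfl
      refine ⟨?_, ?_⟩
      · refine le_trans ?_ h4.1
        unfold nq LAlg.queries
        apply Finset.card_le_card
        intro i hi
        rw [mem_filter, Finset.mem_range] at hi ⊢
        obtain ⟨hi1, qu, hq⟩ := hi
        refine ⟨by omega, qu, ?_⟩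
        rw [h5 i (by omega)]
        exact hq
      · intro e
        refine le_trans ?_ (h4.2 (enc h e).1 (enc h e).2)
        unfold nb LAlg.bits
        apply Finset.card_le_card
        intro i hi
        rw [mem_filter, Finset.mem_range] at hi ⊢
        obtain ⟨hi1, a, c, φ, hq, hcell⟩ := hi
        refine ⟨by omega, φ, ?_⟩
        rw [h5 i (by omega), hq]
        rcases cellE_spec h hcell with h6 | h6
        · left; rw [h6]
        · right; rw [h6]
  have htau : tau A h p ρ D b s = L :=
    le_antisymm ((bud A h p ρ G D b).tau_le L s) ((bud A h p ρ G D b).le_tau le_rfl (hok L le_rfl))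
  refine ⟨htau, ?_⟩
  unfold out2 LAlg.output
  rw [htau, hsim L (by rw [htau]) L le_rfl]
  rfl

end ideal

end Pool.Agent.Helper7.LK
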