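import Mathlib
import Pool.Agent.Helper7.LK.Zero

/-!
# Values are generic on large cells: weights shifted by a potential
-/

set_option autoImplicit false

namespace Pool.Agent.Helper7.LK

open Finset Pool.Agent.Helper95.LK
open Pool.Agent.Helper22.ETModel (E RForm rev tk te sT eval_sT totalDegree_sT sum_te
  totalDegree_sub_le' tk_mem tk_inj)
open Pool.Agent.Helper22.EP (eval_aeval totalDegree_aeval_le)

variable {m G : ℕ} (π : E m → ℤ)

/-- the weights of a labelling, shifted -/
def wpt (s : E m → Lab G) : E m → ℤ := fun e => π e + wv (s e)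

/-- Schwartz-Zippel on a box of labels -/
lemma zero_boxP (C : E m → Finset (Lab G)) (H : ℕ) (hH : ∀ e, H ≤ (C e).card) (P : RForm m)
    (hP : P ≠ 0) :
    ((Fintype.piFinset C).filter fun s =>
      MvPolynomial.eval (fun e => ((π e + wv (s e) : ℤ) : ℝ)) P = 0).card * H ≤
      P.totalDegree * (Fintype.piFinset C).card := by
  classical
  set S : E m → Finset ℝ := fun e => (C e).image (fun α => ((π e + wv α : ℤ) : ℝ)) with hS
  have hinj : ∀ e, Function.Injective fun α : Lab G => ((π e + wv α : ℤ) : ℝ) := by
    intro e α β h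
    simp only [Int.cast_inj, add_right_inj] at h
    exact wv_inj h
  have hcS : ∀ e, (S e).card = (C e).card := fun e => Finset.card_image_of_injective _ (hinj e)
  have h1 := Pool.Agent.Helper14.LK.card_zero_box P hP S H (fun e => by rw [hcS]; exact hH e)
  rw [Fintype.card_piFinset, ← Finset.prod_congr rfl fun e _ => hcS e]
  refine le_trans (Nat.mul_le_mul_right _ ?_) h1
  apply Finset.card_le_card_of_injOn (fun s => fun e => ((π e + wv (s e) : ℤ) : ℝ))
  · intro s hs
    rw [Finset.mem_coe, mem_filter, Fintype.mem_piFinset] at hs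
    rw [Finset.mem_coe, mem_filter, Fintype.mem_piFinset]
    refine ⟨fun e => ?_, hs.2⟩
    rw [hS, mem_image]
    exact ⟨s e, hs.1 e, rfl⟩
  · intro s _ s' _ heq
    funext e
    exact hinj e (congrFun heq e)

/-- two different polynomials rarely agree on a box with large sides -/
lemma null_pairP (C : E m → Finset (Lab G)) (H d : ℕ) (hH : ∀ e, H ≤ (C e).card) {f f' : RForm m}
    (hff : f ≠ f') (hf : f.totalDegree ≤ d) (hf' : f'.totalDegree ≤ d) :
    ((Fintype.piFinset C).filter fun s => rev (wpt π s) f = rev (wpt π s) f').card * H ≤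
      d * (Fintype.piFinset C).card := by
  have h1 := zero_boxP π C H hH (f - f') (sub_ne_zero.2 hff)
  refine le_trans (le_of_eq ?_) (h1.trans (Nat.mul_le_mul_right _ (totalDegree_sub_le' hf hf')))
  congr 2
  apply Finset.filter_congr
  intro s _
  rw [map_sub, sub_eq_zero]
  rfl

/-- two polynomials which do not agree on the hyperplane of `T` rarely agree on the planted part
of a box with large sides -/
lemma planted_pairP (C : E m → Finset (Lab G)) (H d : ℕ) (hH : ∀ e, H ≤ (C e).card)
    (T : Pool.Agent.Helper22.ETModel.Tri m)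
    (hπ : π (tk T 0) + π (tk T 1) + π (tk T 2) = 0) {f f' : RForm m}
    (hf : f.totalDegree ≤ d) (hf' : f'.totalDegree ≤ d)
    (hc : ¬ ∀ w : E m → ℝ, ∑ e ∈ te T, w e = 0 → MvPolynomial.eval w f = MvPolynomial.eval w f') :
    ((Fintype.piFinset C).filter fun s => wv (s (tk T 0)) + wv (s (tk T 1)) + wv (s (tk T 2)) = 0 ∧
      rev (wpt π s) f = rev (wpt π s) f').card * (C (tk T 2)).card * H ≤
      d * (Fintype.piFinset C).card := by
  classical
  push Not at hc
  obtain ⟨w, hw, hwne⟩ := hc
  set P : RForm m := MvPolynomial.aeval (sT T) (f - f') with hP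
  have hev : ∀ w : E m → ℝ, MvPolynomial.eval w P =
      MvPolynomial.eval (fun e => if e = tk T 2 then -w (tk T 0) - w (tk T 1) else w e)
        (f - f') := by
    intro w
    rw [hP, eval_aeval]
    congr 1
    congr 1
    funext e
    exact eval_sT T w e
  have hP0 : P ≠ 0 := by
    intro h0
    have h1 := hev w
    rw [h0, map_zero] at h1
    have h2 : (fun e => if e = tk T 2 then -w (tk T 0) - w (tk T 1) else w e) = w := by
      funext e
      split_ifs with h3
      · rw [sum_te] at hw
        rw [h3]; linarith
      · rfl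
    rw [h2, map_sub] at h1
    exact hwne (by linarith)
  have hdeg : P.totalDegree ≤ d :=
    (totalDegree_aeval_le _ (totalDegree_sT T) _).trans (totalDegree_sub_le' hf hf')
  have h02 : tk T 0 ≠ tk T 2 := fun h => absurd (tk_inj T h) (by decide)
  have h12 : tk T 1 ≠ tk T 2 := fun h => absurd (tk_inj T h) (by decide)
  have h1 := zero_boxP π C H hH P hP0
  set A := (Fintype.piFinset C).filter fun s =>
    wv (s (tk T 0)) + wv (s (tk T 1)) + wv (s (tk T 2)) = 0 ∧ rev (wpt π s) f = rev (wpt π s) f'
    with hA
  have h2 : A.card * (C (tk T 2)).card ≤ ((Fintype.piFinset C).filter fun s =>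
      MvPolynomial.eval (fun e => ((π e + wv (s e) : ℤ) : ℝ)) P = 0).card := by
    rw [← Finset.card_product]
    apply Finset.card_le_card_of_injOn (fun x => Function.update x.1 (tk T 2) x.2)
    · rintro ⟨s, α⟩ hx
      rw [Finset.mem_coe, mem_product, hA, mem_filter, Fintype.mem_piFinset] at hx
      obtain ⟨⟨hs1, hs2, hs3⟩, hα⟩ := hx
      rw [Finset.mem_coe, mem_filter, Fintype.mem_piFinset]
      refine ⟨?_, ?_⟩
      · intro e
        by_cases he : e = tk T 2
        · subst he; simpa using hα
        · simpa [Function.update_of_ne he] using hs1 e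
      · rw [hev, map_sub, sub_eq_zero]
        have h3 : (fun e => if e = tk T 2 then
            -((π (tk T 0) + wv (Function.update s (tk T 2) α (tk T 0)) : ℤ) : ℝ) -
              ((π (tk T 1) + wv (Function.update s (tk T 2) α (tk T 1)) : ℤ) : ℝ) else
            ((π e + wv (Function.update s (tk T 2) α e) : ℤ) : ℝ)) =
              fun e => ((wpt π s e : ℤ) : ℝ) := by
          funext e
          by_cases he : e = tk T 2
          · subst he
            rw [if_pos rfl, Function.update_of_ne h02, Function.update_of_ne h12]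
            have h4 : ((wv (s (tk T 0)) : ℤ) : ℝ) + ((wv (s (tk T 1)) : ℤ) : ℝ) +
                ((wv (s (tk T 2)) : ℤ) : ℝ) = 0 := by exact_mod_cast hs2
            have h5 : ((π (tk T 0) : ℤ) : ℝ) + ((π (tk T 1) : ℤ) : ℝ) +
                ((π (tk T 2) : ℤ) : ℝ) = 0 := by exact_mod_cast hπ
            unfold wpt
            push_cast
            linarith
          · rw [if_neg he, Function.update_of_ne he]
            rfl
        rw [h3]
        exact hs3
    · rintro ⟨s, α⟩ hx ⟨s', α'⟩ hx' heq
      rw [Finset.mem_coe, mem_product, hA, mem_filter, Fintype.mem_piFinset] at hx hx'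
      obtain ⟨⟨hs1, hs2, hs3⟩, hα⟩ := hx
      obtain ⟨⟨hs1', hs2', hs3'⟩, hα'⟩ := hx'
      simp only at heq hs2 hs2'
      have h3 : α = α' := by
        have := congrFun heq (tk T 2)
        simpa using this
      have h4 : ∀ e, e ≠ tk T 2 → s e = s' e := by
        intro e he
        have := congrFun heq e
        simpa [Function.update_of_ne he] using this
      have h5 : s (tk T 2) = s' (tk T 2) := by
        apply wv_inj
        rw [h4 _ h02, h4 _ h12] at hs2
        linarith
      have h6 : s = s' := by
        funext e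
        by_cases he : e = tk T 2
        · rw [he]; exact h5
        · exact h4 e he
      rw [h3, h6]
  calc A.card * (C (tk T 2)).card * H ≤ ((Fintype.piFinset C).filter fun s =>
        MvPolynomial.eval (fun e => ((π e + wv (s e) : ℤ) : ℝ)) P = 0).card * H :=
        Nat.mul_le_mul_right _ h2
    _ ≤ P.totalDegree * (Fintype.piFinset C).card := h1
    _ ≤ d * (Fintype.piFinset C).card := Nat.mul_le_mul_right _ hdeg

section bad

variable (R : Reading (E m) (Lab G)) (L b H D d : ℕ) (V : (E m → Lab G) → List (RForm m))

/-- coincidence of two values at a null point -/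
def badNP (s : E m → Lab G) : Prop :=
  ∃ f ∈ V s, ∃ f' ∈ V s, f ≠ f' ∧ rev (wpt π s) f = rev (wpt π s) f'

/-- coincidence of two values at a planted point -/
def badPP (T : Pool.Agent.Helper22.ETModel.Tri m) (s : E m → Lab G) : Prop :=
  ∃ f ∈ V s, ∃ f' ∈ V s,
    (¬ ∀ w : E m → ℝ, ∑ e ∈ te T, w e = 0 → MvPolynomial.eval w f = MvPolynomial.eval w f') ∧
    rev (wpt π s) f = rev (wpt π s) f'

variable (hb : ∀ r e, R.used L r e ≤ b) (hH : 0 < H)
  (hV : ∀ r r', (∀ e, r' e ∈ R.cell L r e) → V r' = V r)
  (hlen : ∀ r, (V r).length ≤ D) (hdeg : ∀ r, ∀ f ∈ V r, f.totalDegree ≤ d)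

include hb hH hV hlen hdeg

open Classical in
/-- coincidences are improbable under the null law -/
theorem card_badNP :
    ((univ.filter fun s => badNP π V s).card : ℝ) ≤
      ((Fintype.card (E m) : ℝ) * (2 ^ b * H / (Fintype.card (Lab G) : ℝ)) +
        (D ^ 2 * d : ℕ) / (H : ℝ)) * (Fintype.card (E m → Lab G) : ℝ) := by
  set M : ℝ := (Fintype.card (E m → Lab G) : ℝ) with hM
  have hH0 : (0 : ℝ) < H := by exact_mod_cast hH
  have htiny := card_tiny_le R L b H hb (Fintype.card_pos)
  set P := R.partAt L with hP
  have hmem : ∀ r r', r' ∈ P.box r → ∀ e, r' e ∈ R.cell L r e := fun r r' h => P.mem_box.1 h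
  let φ : (E m → Lab G) → ℝ :=
    fun s => if badNP π V s ∧ ¬ ∃ e, (R.cell L s e).card < H then 1 else 0
  have h1 := P.tower (fun _ => 1) φ (fun _ _ _ => rfl)
  simp only [one_mul] at h1
  have h2 : ∀ s, P.avg φ s ≤ (D ^ 2 * d : ℕ) / (H : ℝ) := by
    intro s
    have hbox := P.card_box_pos s
    by_cases ht : ∃ e, (R.cell L s e).card < H
    · have h3 : P.avg φ s = 0 := by
        unfold BoxPart.avg
        rw [Finset.sum_eq_zero]
        · simp
        · intro s' hs'
          have hc := R.cell_eq_of_mem (hmem s s' hs') L le_rfl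
          simp only [φ]
          rw [if_neg]
          rintro ⟨_, h4⟩
          apply h4
          rw [hc]
          exact ht
      rw [h3]
      positivity
    · push Not at ht
      have h3 : ∑ s' ∈ P.box s, φ s' ≤
          (((P.box s).filter fun s' => badNP π V s').card : ℝ) := by
        calc ∑ s' ∈ P.box s, φ s' ≤ ∑ s' ∈ P.box s, (if badNP π V s' then (1 : ℝ) else 0) := by
              refine Finset.sum_le_sum fun s' _ => ?_
              simp only [φ]
              by_cases h5 : badNP π V s'
              · rw [if_pos h5]; split_ifs <;> norm_num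
              · rw [if_neg h5, if_neg (fun h => h5 h.1)]
          _ = _ := by rw [← Finset.sum_filter, Finset.sum_const]; simp
      have h4 : ((P.box s).filter fun s' => badNP π V s').card * H ≤
          D ^ 2 * (d * (P.box s).card) := by
        apply pair_bound (V s) _ (fun f f' s' => f ≠ f' ∧ rev (wpt π s') f = rev (wpt π s') f')
          H (d * (P.box s).card) D (hlen s)
        · intro f hf f' hf' S' hS' hZ
          by_cases hff : f = f'
          · have : S' = ∅ := by
              rw [Finset.eq_empty_iff_forall_notMem]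
              intro g hg
              exact (hZ g hg).1 hff
            rw [this]; simp
          · refine le_trans (Nat.mul_le_mul_right _ (Finset.card_le_card ?_))
              (null_pairP π (P.C s) H d (fun e => ht e) hff (hdeg s f hf) (hdeg s f' hf'))
            intro g hg
            rw [mem_filter]
            exact ⟨(mem_filter.1 (hS' hg)).1, (hZ g hg).2⟩
        · intro g hg
          rw [mem_filter] at hg
          obtain ⟨f, hf, f', hf', h5⟩ := hg.2
          rw [hV s g (hmem s g hg.1)] at hf hf'
          exact ⟨f, hf, f', hf', h5⟩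
      unfold BoxPart.avg
      rw [div_le_div_iff₀ hbox hH0]
      calc (∑ s' ∈ P.box s, φ s') * (H : ℝ)
          ≤ (((P.box s).filter fun s' => badNP π V s').card : ℝ) * H :=
            mul_le_mul_of_nonneg_right h3 hH0.le
        _ ≤ ((D ^ 2 * (d * (P.box s).card) : ℕ) : ℝ) := by exact_mod_cast h4
        _ = _ := by push_cast; ring
  have h3 : ((univ.filter fun s => badNP π V s).card : ℝ) ≤
      ((univ.filter fun r : E m → Lab G => ∃ e, (R.cell L r e).card < H).card : ℝ) +
        ∑ s, φ s := by
    have h4 : ((univ.filter fun s => badNP π V s).card : ℝ) =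
        ∑ s, (if badNP π V s then (1 : ℝ) else 0) := by
      rw [← Finset.sum_filter, Finset.sum_const]; simp
    have h5 : ((univ.filter fun r : E m → Lab G => ∃ e, (R.cell L r e).card < H).card : ℝ) =
        ∑ r : E m → Lab G, (if ∃ e, (R.cell L r e).card < H then (1 : ℝ) else 0) := by
      rw [← Finset.sum_filter, Finset.sum_const]; simp
    rw [h4, h5, ← Finset.sum_add_distrib]
    refine Finset.sum_le_sum fun s _ => ?_
    simp only [φ]
    by_cases h6 : badNP π V s <;> by_cases h7 : ∃ e, (R.cell L s e).card < H
    · simp [h6, h7]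
    · simp only [h6, h7, if_true, if_false, not_false_eq_true, and_self]; norm_num
    · simp [h6, h7]
    · simp [h6, h7]
  calc ((univ.filter fun s => badNP π V s).card : ℝ)
      ≤ _ := h3
    _ ≤ (Fintype.card (E m) : ℝ) * (2 ^ b * H / (Fintype.card (Lab G) : ℝ)) * M +
        ∑ _s : E m → Lab G, (D ^ 2 * d : ℕ) / (H : ℝ) := by
        apply add_le_add htiny
        rw [← h1]
        exact Finset.sum_le_sum fun s _ => h2 s
    _ = _ := by
        rw [Finset.sum_const, Finset.card_univ, nsmul_eq_mul]; ring

open Classical in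
/-- coincidences are improbable under the planted law -/
theorem sum_badPP (T : Pool.Agent.Helper22.ETModel.Tri m)
    (hπ : π (tk T 0) + π (tk T 1) + π (tk T 2) = 0) :
    (plantZ m G).g T * ∑ s : E m → Lab G, (if badPP π V T s then (plantZ m G).ind T s else 0) ≤
      ((Fintype.card (E m) : ℝ) * (2 * 4 ^ b * H / (Fintype.card (Lab G) : ℝ)) +
        2 * (Fintype.card (Lab G) : ℝ) * ((D ^ 2 * d : ℕ) / (H : ℝ) ^ 2)) *
        (Fintype.card (E m → Lab G) : ℝ) := by
  set X := plantZ m G with hX
  set M : ℝ := (Fintype.card (E m → Lab G) : ℝ) with hM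
  have hH0 : (0 : ℝ) < H := by exact_mod_cast hH
  have htiny := planted_tiny_le X R L b H hb (Fintype.card_pos) T
  set P := R.partAt L with hP
  have hmem : ∀ r r', r' ∈ P.box r → ∀ e, r' e ∈ R.cell L r e := fun r r' h => P.mem_box.1 h
  let φ : (E m → Lab G) → ℝ :=
    fun s => if badPP π V T s ∧ ¬ ∃ e, (R.cell L s e).card < H then X.ind T s else 0
  have hind : ∀ s, X.ind T s = 1 ↔ wv (s (tk T 0)) + wv (s (tk T 1)) + wv (s (tk T 2)) = 0 := by
    intro s
    rw [← Fin.sum_univ_three (fun i => wv (s (tk T i)))]
    exact indZ_eq_one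
  have h1 := P.tower (fun _ => 1) φ (fun _ _ _ => rfl)
  simp only [one_mul] at h1
  have h2 : ∀ s, P.avg φ s ≤ (D ^ 2 * d : ℕ) / (H : ℝ) ^ 2 := by
    intro s
    have hbox := P.card_box_pos s
    by_cases ht : ∃ e, (R.cell L s e).card < H
    · have h3 : P.avg φ s = 0 := by
        unfold BoxPart.avg
        rw [Finset.sum_eq_zero]
        · simp
        · intro s' hs'
          have hc := R.cell_eq_of_mem (hmem s s' hs') L le_rfl
          simp only [φ]
          rw [if_neg]
          rintro ⟨_, h4⟩
          apply h4
          rw [hc]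
          exact ht
      rw [h3]
      positivity
    · push Not at ht
      set B := (P.box s).filter fun s' =>
        badPP π V T s' ∧ wv (s' (tk T 0)) + wv (s' (tk T 1)) + wv (s' (tk T 2)) = 0 with hB
      have h3 : ∑ s' ∈ P.box s, φ s' ≤ (B.card : ℝ) := by
        calc ∑ s' ∈ P.box s, φ s' ≤ ∑ s' ∈ P.box s, (if badPP π V T s' ∧
              wv (s' (tk T 0)) + wv (s' (tk T 1)) + wv (s' (tk T 2)) = 0 then (1 : ℝ) else 0) := by
              refine Finset.sum_le_sum fun s' _ => ?_
              simp only [φ]
              by_cases h5 : badPP π V T s'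
              · by_cases h6 : wv (s' (tk T 0)) + wv (s' (tk T 1)) + wv (s' (tk T 2)) = 0
                · rw [if_pos (⟨h5, h6⟩ : _ ∧ _), (hind s').2 h6]
                  split_ifs <;> norm_num
                · have h7 : X.ind T s' = 0 := by
                    rcases X.ind_01 T s' with h | h
                    · exact h
                    · exact absurd ((hind s').1 h) h6
                  rw [h7]
                  split_ifs <;> norm_num
              · rw [if_neg (fun h => h5 h.1), if_neg (fun h => h5 h.1)]
          _ = _ := by rw [← Finset.sum_filter, Finset.sum_const]; simp [hB]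
      have h4 : B.card * (H * H) ≤ D ^ 2 * (d * (P.box s).card) := by
        apply pair_bound (V s) B (fun f f' s' =>
          ((¬ ∀ w : E m → ℝ, ∑ e ∈ te T, w e = 0 →
            MvPolynomial.eval w f = MvPolynomial.eval w f') ∧
            rev (wpt π s') f = rev (wpt π s') f')) (H * H) (d * (P.box s).card) D (hlen s)
        · intro f hf f' hf' S' hS' hZ
          by_cases hall : ∀ w : E m → ℝ, ∑ e ∈ te T, w e = 0 →
              MvPolynomial.eval w f = MvPolynomial.eval w f'
          · have : S' = ∅ := by
              rw [Finset.eq_empty_iff_forall_notMem]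
              intro g hg
              exact (hZ g hg).1 hall
            rw [this]; simp
          · have h5 := planted_pairP π (P.C s) H d (fun e => ht e) T hπ (hdeg s f hf) (hdeg s f' hf')
              hall
            have h6 : H ≤ (P.C s (tk T 2)).card := ht _
            refine le_trans ?_ h5
            rw [← mul_assoc]
            apply Nat.mul_le_mul_right
            apply Nat.mul_le_mul _ h6
            apply Finset.card_le_card
            intro g hg
            have h7 := mem_filter.1 (hS' hg)
            rw [mem_filter]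
            exact ⟨h7.1, h7.2.2, (hZ g hg).2⟩
        · intro g hg
          rw [hB, mem_filter] at hg
          obtain ⟨hg1, ⟨f, hf, f', hf', h5⟩, _⟩ := hg
          rw [hV s g (hmem s g hg1)] at hf hf'
          exact ⟨f, hf, f', hf', h5⟩
      unfold BoxPart.avg
      rw [div_le_div_iff₀ hbox (by positivity)]
      calc (∑ s' ∈ P.box s, φ s') * (H : ℝ) ^ 2
          ≤ (B.card : ℝ) * (H : ℝ) ^ 2 := mul_le_mul_of_nonneg_right h3 (by positivity)
        _ = ((B.card * (H * H) : ℕ) : ℝ) := by push_cast; ring
        _ ≤ ((D ^ 2 * (d * (P.box s).card) : ℕ) : ℝ) := by exact_mod_cast h4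
        _ = _ := by push_cast; ring
  have h3 : ∑ s : E m → Lab G, (if badPP π V T s then X.ind T s else 0) ≤
      ∑ r : E m → Lab G, (if ∃ e, (R.cell L r e).card < H then X.ind T r else 0) +
        ∑ s, φ s := by
    rw [← Finset.sum_add_distrib]
    refine Finset.sum_le_sum fun s _ => ?_
    have hnn := X.ind_nonneg T s
    simp only [φ]
    by_cases h6 : badPP π V T s <;> by_cases h7 : ∃ e, (R.cell L s e).card < H
    · rw [if_pos h6, if_pos h7, if_neg (fun h => h.2 h7)]; linarith
    · rw [if_pos h6, if_neg h7, if_pos ⟨h6, h7⟩]; linarith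
    · rw [if_neg h6, if_pos h7, if_neg (fun h => h6 h.1)]; linarith
    · rw [if_neg h6, if_neg h7, if_neg (fun h => h6 h.1)]; linarith
  calc X.g T * ∑ s : E m → Lab G, (if badPP π V T s then X.ind T s else 0)
      ≤ X.g T * (∑ r : E m → Lab G, (if ∃ e, (R.cell L r e).card < H then X.ind T r else 0) +
          ∑ s, φ s) := mul_le_mul_of_nonneg_left h3 (X.g_nonneg T)
    _ = X.g T * ∑ r : E m → Lab G, (if ∃ e, (R.cell L r e).card < H then X.ind T r else 0) +
          X.g T * ∑ s, φ s := by ring
    _ ≤ (Fintype.card (E m) : ℝ) * (2 * 4 ^ b * H / (Fintype.card (Lab G) : ℝ)) * M +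
          (2 * (Fintype.card (Lab G) : ℝ)) * (M * ((D ^ 2 * d : ℕ) / (H : ℝ) ^ 2)) := by
        apply add_le_add htiny
        apply mul_le_mul (X.g_le T) _ _
          (show (0 : ℝ) ≤ 2 * (Fintype.card (Lab G) : ℝ) by positivity)
        · rw [← h1]
          calc ∑ s, P.avg φ s ≤ ∑ _s : E m → Lab G, (D ^ 2 * d : ℕ) / (H : ℝ) ^ 2 :=
                Finset.sum_le_sum fun s _ => h2 s
            _ = _ := by rw [Finset.sum_const, Finset.card_univ, nsmul_eq_mul]
        · refine Finset.sum_nonneg fun s _ => ?_
          simp only [φ]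
          split_ifs
          · exact X.ind_nonneg T s
          · exact le_rfl
    _ = _ := by ring

end bad

end Pool.Agent.Helper7.LK
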