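import Mathlib
import Pool.Agent.Helper8.LK.Budget
import Pool.Agent.Helper7.LK.Free
import Pool.Agent.Helper7.LK.ZeroP

/-!
# The ideal run of an algorithm that inspects arbitrary bits: weights with potentials
-/

set_option autoImplicit false

namespace Pool.Agent.Helper7.LK

open Finset Pool.Agent.Helper95.LK
open Pool.Agent.Helper22.ETModel (E RForm rev tk te te_inter card_te Inst Query SignOK instOf
  flagOf enc sgnCode redc code instOf_valid instOf_yes pot)
open Pool.Agent.Helper8.LK (LAlg Act lrun lact ract nq nb lrun_congr lact_congr ract_congr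
  lrun_length lrun_degree lrun_mono run_eq_lrun output_eq nq_mono cellE cellE_spec)

variable {m n L R G : ℕ}

/-- the weights of a labelling as residues modulo `0` -/
def wzp (p : Fin 3 × Fin m → ℤ) (s : E m → Lab G) : E m → ZMod 0 :=
  fun e => ((pot p e + wv (s e) : ℤ) : ZMod 0)

section ideal

variable (A : LAlg n L R) (h : 3 * m ≤ n) (p : Fin 3 × Fin m → ℤ) (ρ : Fin R → Bool)

/-- the reading of the labels by the ideal run -/
noncomputable def read0P (G : ℕ) : Reading (E m) (Lab G) where
  act t s := (ract A h p ρ t (wzp p s)).map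
    fun x => (x.1, fun α => x.2 ((pot p x.1 + wv α : ℤ) : ZMod 0))
  adapted t s s' hs := by
    have h1 : ract A h p ρ t (wzp p s') = ract A h p ρ t (wzp p s) := by
      apply ract_congr
      intro i hi e f hf
      have := hs i hi e (fun α => f ((pot p e + wv α : ℤ) : ZMod 0)) (by rw [hf]; rfl)
      exact this
    rw [h1]

variable {A h p ρ}

lemma agree0P {t : ℕ} {s s' : E m → Lab G}
    (hs : ∀ i < t, ∀ e f, (read0P A h p ρ G).act i s = some (e, f) → f (s' e) = f (s e)) :
    ∀ i < t, ∀ e f, ract A h p ρ i (wzp p s) = some (e, f) → f (wzp p s' e) = f (wzp p s e) := by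
  intro i hi e f hf
  exact hs i hi e (fun α => f ((pot p e + wv α : ℤ) : ZMod 0)) (by unfold read0P; simp only [hf]; rfl)

variable (A h p ρ)

/-- the budgets -/
noncomputable def budP (G D b : ℕ) : Trunc (read0P A h p ρ G) where
  OK t s := nq A h p ρ (wzp p s) t ≤ D ∧ ∀ e, nb A h p ρ (wzp p s) t e ≤ b
  zero s := by simp [nq, nb]
  anti t s hs := ⟨(nq_mono A h p ρ _ (Nat.le_succ t)).trans hs.1,
    fun e => (nb_mono A h p ρ _ (Nat.le_succ t) e).trans (hs.2 e)⟩
  adapted t s s' hs := by
    have h1 := agree0P hs
    have h2 : ∀ i < t + 1, lact A h p ρ (wzp p s') i = lact A h p ρ (wzp p s) i := by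
      intro i hi
      apply lact_congr
      intro j hj
      exact h1 j (by omega)
    rw [nq_congr A h p ρ h2]
    simp only [nb_congr A h p ρ h2]

variable (D b : ℕ)

/-- the last time within the budgets -/
noncomputable def tauP (s : E m → Lab G) : ℕ := (budP A h p ρ G D b).tau L s

/-- the polynomials of the ideal run -/
noncomputable def VVP (s : E m → Lab G) : List (RForm m) :=
  (lrun A h p ρ (wzp p s) (tauP A h p ρ D b s)).2

/-- the output of the ideal run -/
noncomputable def out2P (s : E m → Lab G) : Bool :=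
  A.out (flagOf h) ρ (lrun A h p ρ (wzp p s) (tauP A h p ρ D b s)).1

/-- the reading -/
noncomputable def readBP (G : ℕ) : Reading (E m) (Lab G) := (budP A h p ρ G D b).read

lemma used_readBP (s : E m → Lab G) (e : E m) : (readBP A h p ρ D b G).used L s e ≤ b := by
  classical
  have h1 := ((budP A h p ρ G D b).ok_tau L s).2 e
  refine le_trans ?_ h1
  unfold Reading.used nb
  apply Finset.card_le_card
  intro i hi
  simp only [mem_filter, Finset.mem_range] at hi ⊢
  obtain ⟨hi1, f, hf⟩ := hi
  have hf' : (budP A h p ρ G D b).act i s = some (e, f) := hf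
  unfold Trunc.act at hf'
  split_ifs at hf' with hok
  refine ⟨?_, ?_⟩
  · have := (budP A h p ρ G D b).le_tau (by omega : i + 1 ≤ L) hok
    omega
  · have hf2 : (ract A h p ρ i (wzp p s)).map
        (fun x => (x.1, fun α : Lab G => x.2 ((pot p x.1 + wv α : ℤ) : ZMod 0))) = some (e, f) := hf'
    unfold ract at hf2
    rcases hq : lact A h p ρ (wzp p s) i with qu | ⟨a, c, φ⟩
    · rw [hq] at hf2; simp at hf2
    · rw [hq] at hf2
      simp only at hf2
      rcases hc : cellE h a c with _ | e'
      · rw [hc] at hf2; simp at hf2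
      · rw [hc] at hf2
        simp only [Option.map_some, Option.some.injEq, Prod.mk.injEq] at hf2
        exact ⟨a, c, φ, rfl, by rw [hc, hf2.1]⟩

section cell

variable {A h p ρ D b} {s s' : E m → Lab G}
  (hc : ∀ e, s' e ∈ (readBP A h p ρ D b G).cell L s e)

include hc

lemma tauP_congr : tauP A h p ρ D b s' = tauP A h p ρ D b s :=
  (budP A h p ρ G D b).tau_eq hc

lemma lrun_tauP_congr : lrun A h p ρ (wzp p s') (tauP A h p ρ D b s') =
    lrun A h p ρ (wzp p s) (tauP A h p ρ D b s) := by
  rw [tauP_congr hc]
  exact lrun_congr A h p ρ _ (agree0P ((budP A h p ρ G D b).agree_tau hc))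

lemma VVP_congr : VVP A h p ρ D b s' = VVP A h p ρ D b s := by
  unfold VVP
  rw [lrun_tauP_congr hc]

lemma out2P_congr : out2P A h p ρ D b s' = out2P A h p ρ D b s := by
  unfold out2P
  rw [lrun_tauP_congr hc]

end cell

lemma length_VVP (s : E m → Lab G) : (VVP A h p ρ D b s).length ≤ D :=
  (lrun_length A h p ρ _ _).trans ((budP A h p ρ G D b).ok_tau L s).1

lemma degree_VVP {d : ℕ}
    (hA1 : ∀ fl ρ ans f, A.next fl ρ ans = Act.query (Query.value f) → f.totalDegree ≤ d)
    (s : E m → Lab G) : ∀ f ∈ VVP A h p ρ D b s, f.totalDegree ≤ d :=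
  lrun_degree A h p ρ _ hA1 _

/-- if the values of the ideal run are generic, then it is the real run -/
theorem generic_runP (hval : ∀ s : E m → Lab G, (instOf h (wpt (pot p) s)).Valid)
    (hW : A.Within D b)
    (hsg : ∀ ans a c, A.next (flagOf h) ρ ans = Act.query (Query.sign a c) →
      ∀ s : E m → Lab G, sgnCode (c + ∑ e, redc h a e * wpt (pot p) s e) = code p (redc h a) c)
    (s : E m → Lab G) (hs : ¬ badNP (pot p) (VVP A h p ρ D b) s) :
    tauP A h p ρ D b s = L ∧
      A.output (instOf h (wpt (pot p) s)) ρ = out2P A h p ρ D b s := by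
  classical
  have hsim : ∀ t, t ≤ tauP A h p ρ D b s → ∀ t' ≤ t,
      A.run (instOf h (wpt (pot p) s)) ρ t' =
        ((lrun A h p ρ (wzp p s) t').1, (lrun A h p ρ (wzp p s) t').2.map (rev (wpt (pot p) s))) := by
    intro t ht t' ht'
    apply run_eq_lrun A h p ρ (wzp p s) (wpt (pot p) s) (fun e => rfl) (fun _ _ _ _ _ z => by simp)
      (T := t) _ _ t' ht'
    · intro f hf f' hf' heq
      by_contra hne
      exact hs ⟨f, lrun_mono A h p ρ _ ht hf, f', lrun_mono A h p ρ _ ht hf', hne, heq⟩
    · intro i _ a c hq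
      exact hsg _ a c hq s
  have hok : ∀ t ≤ L, (budP A h p ρ G D b).OK t s := by
    intro t
    induction t with
    | zero => intro _; exact (budP A h p ρ G D b).zero s
    | succ t ih =>
      intro ht
      have h1 := ih (by omega)
      have h2 : t ≤ tauP A h p ρ D b s := (budP A h p ρ G D b).le_tau (by omega) h1
      have h3 := hsim t h2
      have h4 := hW (instOf h (wpt (pot p) s)) (hval s) ρ
      have h5 : ∀ i ≤ t, A.next (instOf h (wpt (pot p) s)).flag ρ (A.run (instOf h (wpt (pot p) s)) ρ i).1 =
          lact A h p ρ (wzp p s) i := by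
        intro i hi
        rw [h3 i hi]; rfl
      refine ⟨?_, ?_⟩
      · refine le_trans ?_ h4.1
        unfold nq LAlg.queries
        apply Finset.card_le_card
        intro i hi
        rw [mem_filter, Finset.mem_range] at hi ⊢
        obtain ⟨hi1, qu, hq⟩ := hi
        refine ⟨by omega, qu, ?_⟩
        rw [h5 i (by omega)]
        exact hq
      · intro e
        refine le_trans ?_ (h4.2 (enc h e).1 (enc h e).2)
        unfold nb LAlg.bits
        apply Finset.card_le_card
        intro i hi
        rw [mem_filter, Finset.mem_range] at hi ⊢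
        obtain ⟨hi1, a, c, φ, hq, hcell⟩ := hi
        refine ⟨by omega, φ, ?_⟩
        rw [h5 i (by omega), hq]
        rcases cellE_spec h hcell with h6 | h6
        · left; rw [h6]
        · right; rw [h6]
  have htau : tauP A h p ρ D b s = L :=
    le_antisymm ((budP A h p ρ G D b).tau_le L s) ((budP A h p ρ G D b).le_tau le_rfl (hok L le_rfl))
  refine ⟨htau, ?_⟩
  unfold out2P LAlg.output
  rw [htau, hsim L (by rw [htau]) L le_rfl]
  rfl

end ideal

end Pool.Agent.Helper7.LK
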