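import Mathlib
import Pool.Agent.Helper22.ETSign
import Pool.Agent.Helper8.LK.Defs
import Pool.Agent.Helper95.LK.Params
import Pool.Agent.Helper7.LK.FreeP

/-!
# Forms that are not determined by the triangle sums
-/

set_option autoImplicit false

namespace Pool.Agent.Helper7.LK

open Finset
open Pool.Agent.Helper22.ETModel
open Pool.Agent.Helper8.LK (LAlg Act)

/-- At most `r` weights occur, the integer coefficients and the constant are at most `n ^ c` in
absolute value. There is no condition on the signs of the coefficients. -/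
def SparseOK (n r c : ℕ) (a : Fin n → Fin n → ℤ) (b : ℤ) : Prop :=
  (Finset.univ.filter fun p : Fin n × Fin n => a p.1 p.2 ≠ 0).card ≤ r ∧
  (∀ i j, |a i j| ≤ (n : ℤ) ^ c) ∧ |b| ≤ (n : ℤ) ^ c

/-- Some change `δ` of the weights of the edges keeps all triangle sums and changes the form
`∑ a i j * w i j`. -/
def Moves {n : ℕ} (fl : Fin n → Fin n → Bool) (a : Fin n → Fin n → ℤ) : Prop :=
  ∃ δ : Fin n → Fin n → ℤ, (∀ i j, δ i j = δ j i) ∧ (∀ i j, fl i j = false → δ i j = 0) ∧
    (∀ i j k, i ≠ j → j ≠ k → i ≠ k → fl i j = true → fl j k = true → fl i k = true →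
      δ i j + δ j k + δ i k = 0) ∧
    ∑ i, ∑ j, a i j * δ i j ≠ 0

section gauge

variable {m n : ℕ}

/-- a function with vanishing triangle sums is a potential -/
lemma exists_pot_of_tri (hm : 0 < m) (w : E m → ℤ)
    (hw : ∀ T : Tri m, w (tk T 0) + w (tk T 1) + w (tk T 2) = 0) :
    ∃ p : Fin 3 × Fin m → ℤ, ∀ e, w e = pot p e := by
  let o : Fin m := ⟨0, hm⟩
  have hT : ∀ i j k : Fin m, w (0, i, j) + w (1, j, k) + w (2, k, i) = 0 := by
    intro i j k
    have h1 := hw ![i, j, k]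
    simpa [tk] using h1
  refine ⟨fun v => if v.1 = 0 then w (0, v.2, o) else if v.1 = 1 then w (0, o, o) - w (0, o, v.2)
    else - w (1, o, v.2), ?_⟩
  rintro ⟨k, x, y⟩
  have key : ∀ k : Fin 3, k = 0 ∨ k = 1 ∨ k = 2 := by decide
  rcases key k with rfl | rfl | rfl
  · have e1 : (0 : Fin 3) + 1 = 1 := rfl
    simp only [pot, e1]
    simp only [if_true, if_neg (by decide : ¬ (1 : Fin 3) = 0)]
    have h1 := hT x y o
    have h2 := hT x o o
    have h3 := hT o y o
    have h4 := hT o o o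
    linarith
  · have e1 : (1 : Fin 3) + 1 = 2 := rfl
    simp only [pot, e1]
    simp only [if_true, if_neg (by decide : ¬ (1 : Fin 3) = 0), if_neg (by decide : ¬ (2 : Fin 3) = 0),
      if_neg (by decide : ¬ (2 : Fin 3) = 1)]
    have h1 := hT o x y
    have h2 := hT o o y
    linarith
  · have e1 : (2 : Fin 3) + 1 = 0 := rfl
    simp only [pot, e1]
    simp only [if_true, if_neg (by decide : ¬ (2 : Fin 3) = 0),
      if_neg (by decide : ¬ (2 : Fin 3) = 1)]
    have h1 := hT y o x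
    linarith

/-- a form that is not determined by the triangle sums is not balanced -/
theorem bv_ne_zero_of_moves (h : 3 * m ≤ n) {a : Fin n → Fin n → ℤ}
    (hM : Moves (flagOf h) a) : bv (redc h a) ≠ 0 := by
  obtain ⟨δ, hs, h0, ht, hne⟩ := hM
  intro hbv
  apply hne
  have h1 : ∀ i j, δ i j = wtOf h (fun e => δ (enc h e).1 (enc h e).2) i j := by
    intro i j
    by_cases hf : flagOf h i j = true
    · unfold flagOf at hf
      rw [decide_eq_true_iff] at hf
      obtain ⟨e, he | he⟩ := hf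
      · have g1 : i = (enc h e).1 := by rw [he]
        have g2 : j = (enc h e).2 := by rw [he]
        rw [g1, g2, wtOf_enc]
      · have g1 : j = (enc h e).1 := by rw [he]
        have g2 : i = (enc h e).2 := by rw [he]
        rw [g1, g2, wtOf_symm, wtOf_enc, hs]
    · rw [Bool.not_eq_true] at hf
      rw [wtOf_flag_false h _ i j hf, h0 i j hf]
  have h2 : ∑ i, ∑ j, a i j * δ i j =
      ∑ e, redc h a e * δ (enc h e).1 (enc h e).2 := by
    have h3 := sum_wtOf (K := ℤ) h a (fun e => δ (enc h e).1 (enc h e).2)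
    simp only [Int.cast_id] at h3
    rw [← h3]
    refine Finset.sum_congr rfl fun i _ => Finset.sum_congr rfl fun j _ => ?_
    rw [← h1 i j]
  rw [h2]
  rcases Nat.eq_zero_or_pos m with hm | hm
  · subst hm
    apply Finset.sum_eq_zero
    rintro ⟨k, x, y⟩ _
    exact x.elim0
  · obtain ⟨p, hp⟩ := exists_pot_of_tri hm (fun e => δ (enc h e).1 (enc h e).2) (by
      intro T
      have e0 : (0 : Fin 3) + 1 = 1 := rfl
      have e1 : (1 : Fin 3) + 1 = 2 := rfl
      have e2 : (2 : Fin 3) + 1 = 0 := rfl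
      simp only [enc, tk, e0, e1, e2]
      have h3 := ht (vert h 0 (T 0)) (vert h 1 (T 1)) (vert h 2 (T 2))
        (fun he => absurd (vert_inj h he).1 (by decide))
        (fun he => absurd (vert_inj h he).1 (by decide))
        (fun he => absurd (vert_inj h he).1 (by decide))
        (flagOf_vert h _ _ (by decide)) (flagOf_vert h _ _ (by decide))
        (flagOf_vert h _ _ (by decide))
      rw [hs (vert h 2 (T 2)) (vert h 0 (T 0))]
      exact h3)
    have h4 : ∀ e, redc h a e * δ (enc h e).1 (enc h e).2 = redc h a e * pot p e := by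
      intro e
      have h5 : δ (enc h e).1 (enc h e).2 = pot p e := hp e
      rw [h5]
    rw [Finset.sum_congr rfl fun e _ => h4 e, sum_pot, hbv]
    simp

/-- sign queries that are not balanced do not see the noise -/
lemma code_free {p : Fin 3 × Fin m → ℤ} {r Cb Λ G Ab : ℕ}
    (hp : ∀ cf : E m → ℤ, (univ.filter fun e => cf e ≠ 0).card ≤ r → (∀ e, |cf e| ≤ Cb) →
      bv cf ≠ 0 → (Λ : ℤ) < |∑ e, cf e * pot p e|)
    (h1 : Ab + r * (Cb * G) ≤ Λ)
    {cf : E m → ℤ} {a : ℤ} (hs : (univ.filter fun e => cf e ≠ 0).card ≤ r)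
    (hb : ∀ e, |cf e| ≤ Cb) (ha : |a| ≤ Ab) (hbv : bv cf ≠ 0)
    {x : E m → ℤ} (hx : ∀ e, |x e| ≤ G) :
    sgnCode (a + ∑ e, cf e * (pot p e + x e)) = code p cf a := by
  classical
  have h3 := hp cf hs hb hbv
  have h5 := abs_sum_le hs hb hx
  have h4 : |a + ∑ e, cf e * x e| ≤ Λ := by
    refine (abs_add_le _ _).trans ?_
    have h6 : (Ab : ℤ) + r * (Cb * G) ≤ Λ := by exact_mod_cast h1
    linarith
  have h7 := abs_le.1 h4
  have hval : a + ∑ e, cf e * (pot p e + x e) =
      ∑ e, cf e * pot p e + (a + ∑ e, cf e * x e) := by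
    have : ∑ e, cf e * (pot p e + x e) = ∑ e, cf e * pot p e + ∑ e, cf e * x e := by
      rw [← Finset.sum_add_distrib]
      exact Finset.sum_congr rfl fun e _ => mul_add _ _ _
    rw [this]; ring
  rw [hval, code, if_pos hbv]
  split_ifs with hpos
  · rw [abs_of_pos hpos] at h3
    unfold sgnCode
    rw [if_neg (by linarith), if_neg (by intro h0; linarith)]
  · push Not at hpos
    rw [abs_of_nonpos hpos] at h3
    unfold sgnCode
    rw [if_pos (by linarith)]

lemma paramsF {n r c m : ℕ} (hn : 2 ^ 20 ≤ n) (hrc : r * (c + 4) + 2 * c ≤ 270)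
    (h3m : 3 * m ≤ n) :
    n ^ c + r * ((2 * n ^ c) * n ^ 25) ≤ n ^ (c + 26) ∧
    (Fintype.card (E m) * (2 * (2 * n ^ c) + 1)) ^ r * (2 * n ^ (c + 26) + 1) <
      n ^ (r * (c + 4) + c + 27) + 1 ∧
    n ^ (r * (c + 4) + c + 27) + n ^ 25 ≤ n ^ 300 := by
  have hr : 4 * r ≤ 270 := by
    have : r * 4 ≤ r * (c + 4) := Nat.mul_le_mul_left r (by omega)
    omega
  have hn1 : 1 ≤ n := le_trans (by norm_num) hn
  have hn3 : 1000 ≤ n := le_trans (by norm_num) hn
  have hpow : ∀ a b : ℕ, a ≤ b → n ^ a ≤ n ^ b := fun a b hab => Nat.pow_le_pow_right hn1 hab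
  have hpos : ∀ a : ℕ, 0 < n ^ a := fun a => Nat.pow_pos (by omega)
  refine ⟨?_, ?_, ?_⟩
  · calc n ^ c + r * ((2 * n ^ c) * n ^ 25) = n ^ c + 2 * r * n ^ (c + 25) := by
          rw [pow_add]; ring
      _ ≤ n ^ (c + 25) + 2 * r * n ^ (c + 25) := Nat.add_le_add_right (hpow _ _ (by omega)) _
      _ = (2 * r + 1) * n ^ (c + 25) := by ring
      _ ≤ n * n ^ (c + 25) := Nat.mul_le_mul_right _ (by omega)
      _ = n ^ (c + 26) := by rw [← pow_succ']
  · have hE : Fintype.card (E m) = 3 * m ^ 2 := by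
      simp [E, Fintype.card_prod]; ring
    have h1 : Fintype.card (E m) * (2 * (2 * n ^ c) + 1) ≤ n ^ (c + 4) := by
      rw [hE]
      have h2 : 2 * (2 * n ^ c) + 1 ≤ 5 * n ^ c := by have := hpos c; omega
      have h4 : 9 * m ^ 2 ≤ n ^ 2 := by nlinarith
      have h5 : 9 ≤ n ^ 2 := by nlinarith
      calc 3 * m ^ 2 * (2 * (2 * n ^ c) + 1) ≤ 3 * m ^ 2 * (5 * n ^ c) := Nat.mul_le_mul_left _ h2
        _ = 15 * m ^ 2 * n ^ c := by ring
        _ ≤ (n ^ 2 * n ^ 2) * n ^ c := by
            apply Nat.mul_le_mul_right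
            nlinarith
        _ = n ^ (c + 4) := by rw [← pow_add, ← pow_add]; congr 1; ring
    have h2 : (Fintype.card (E m) * (2 * (2 * n ^ c) + 1)) ^ r ≤ n ^ (r * (c + 4)) := by
      calc _ ≤ (n ^ (c + 4)) ^ r := Nat.pow_le_pow_left h1 r
        _ = _ := by rw [← pow_mul]; congr 1; ring
    have h3 : 2 * n ^ (c + 26) + 1 ≤ n ^ (c + 27) := by
      have h4 : n ^ (c + 27) = n ^ (c + 26) * n := by rw [← pow_succ]
      have h5 := hpos (c + 26)
      nlinarith
    calc _ ≤ n ^ (r * (c + 4)) * n ^ (c + 27) := Nat.mul_le_mul h2 h3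
      _ = n ^ (r * (c + 4) + c + 27) := by rw [← pow_add]; congr 1
      _ < _ := Nat.lt_succ_self _
  · have h1 := hpow (r * (c + 4) + c + 27) 299 (by omega)
    have h2 := hpow 25 299 (by omega)
    have h4 : n ^ 300 = n ^ 299 * n := by rw [← pow_succ]
    have h5 : n ^ 299 * 2 ≤ n ^ 299 * n := Nat.mul_le_mul_left _ (by omega)
    omega

/-- potentials that hide the noise -/
theorem exists_potF {n m r c : ℕ} (hn : 2 ^ 20 ≤ n) (hrc : r * (c + 4) + 2 * c ≤ 270)
    (h : 3 * m ≤ n) (hm : 0 < m) :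
    ∃ p : Fin 3 × Fin m → ℤ,
      (∀ s : E m → Lab (n ^ 25), (instOf h (wpt (pot p) s)).Valid) ∧
      ∀ a b, SparseOK n r c a b → Moves (flagOf h) a → ∀ s : E m → Lab (n ^ 25),
        sgnCode (b + ∑ e, redc h a e * wpt (pot p) s e) = code p (redc h a) b := by
  classical
  obtain ⟨P1, P2, P3⟩ := paramsF hn hrc h
  obtain ⟨p, hp0, hp⟩ := exists_pot hm (2 * n ^ c) r (n ^ (c + 26))
    (n ^ (r * (c + 4) + c + 27)) P2
  refine ⟨p, ?_, ?_⟩
  · intro s
    apply instOf_valid
    intro e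
    have h1 := hp0 (e.1, e.2.1)
    have h2 := hp0 (e.1 + 1, e.2.2)
    have h3 := wv_abs (s e)
    have h4 : ((n ^ (r * (c + 4) + c + 27) : ℕ) : ℤ) + ((n ^ 25 : ℕ) : ℤ) ≤ (n : ℤ) ^ 300 := by
      exact_mod_cast P3
    unfold wpt pot
    rw [abs_le] at h3 ⊢
    constructor <;> linarith [h1.1, h1.2, h2.1, h2.2, h3.1, h3.2]
  · intro a b hS hM s
    obtain ⟨h1, h2, h3⟩ := hS
    apply code_free hp P1 _ _ _ (bv_ne_zero_of_moves h hM)
    · intro e
      exact wv_abs (s e)
    · exact (card_redc_le h a (fun x => x ≠ 0) (by intro x y; omega)).trans h1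
    · intro e
      unfold redc
      refine (abs_add_le _ _).trans ?_
      push_cast
      linarith [h2 (enc h e).1 (enc h e).2, h2 (enc h e).2 (enc h e).1]
    · push_cast; exact h3

end gauge

end Pool.Agent.Helper7.LK
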