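import Mathlib
import Pool.Agent.Helper7.LK.Arb
import Pool.Agent.Helper7.LK.Gauge

/-!
# The lower bound with arbitrary inspected bits and sign queries that are not determined by the
triangle sums
-/

set_option autoImplicit false

namespace Pool.Agent.Helper7.LK

open Finset Pool.Agent.Helper95.LK
open Pool.Agent.Helper22.ETModel (E RForm rev tk te te_inter card_te Inst Query SignOK instOf
  flagOf enc sgnCode redc code instOf_valid instOf_yes pot sum_pot_tri)
open Pool.Agent.Helper8.LK (LAlg Act lrun lact ract nq nb)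

variable {m n L R G D b d : ℕ}

section prob

variable (A : LAlg n L R) (h : 3 * m ≤ n) (p : Fin 3 × Fin m → ℤ)

/-- the algorithm rejects the instance of the labelling `s` -/
noncomputable def oFP (ρ : Fin R → Bool) (s : E m → Lab G) : ℝ :=
  if A.output (instOf h (wpt (pot p) s)) ρ = false then 1 else 0

/-- the ideal run rejects -/
noncomputable def aFP (D b : ℕ) (ρ : Fin R → Bool) (s : E m → Lab G) : ℝ :=
  if out2P A h p ρ D b s = false then 1 else 0

variable {A h}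

lemma oFP_01 (ρ : Fin R → Bool) (s : E m → Lab G) : 0 ≤ oFP A h p ρ s ∧ oFP A h p ρ s ≤ 1 := by
  unfold oFP; split_ifs <;> norm_num

lemma aFP_01 (ρ : Fin R → Bool) (s : E m → Lab G) :
    0 ≤ aFP A h p D b ρ s ∧ aFP A h p D b ρ s ≤ 1 := by
  unfold aFP; split_ifs <;> norm_num

open Classical in
/-- null law -/
lemma null_stepP (hval : ∀ s : E m → Lab G, (instOf h (wpt (pot p) s)).Valid) (hW : A.Within D b)
    (hsg : ∀ ρ ans a c, A.next (flagOf h) ρ ans = Act.query (Query.sign a c) →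
      ∀ s : E m → Lab G, sgnCode (c + ∑ e, redc h a e * wpt (pot p) s e) = code p (redc h a) c) (ρ : Fin R → Bool) :
    ∑ s : E m → Lab G, oFP A h p ρ s ≤ ∑ s : E m → Lab G, aFP A h p D b ρ s +
      ((univ.filter fun s : E m → Lab G => badNP (pot p) (VVP A h p ρ D b) s).card : ℝ) := by
  have h1 : ((univ.filter fun s : E m → Lab G => badNP (pot p) (VVP A h p ρ D b) s).card : ℝ) =
      ∑ s : E m → Lab G, (if badNP (pot p) (VVP A h p ρ D b) s then (1 : ℝ) else 0) := by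
    rw [← Finset.sum_filter, Finset.sum_const]; simp
  rw [h1, ← Finset.sum_add_distrib]
  refine Finset.sum_le_sum fun s _ => ?_
  have h2 := (oFP_01 (A := A) (h := h) p ρ s).2
  have h3 := (aFP_01 (A := A) (h := h) (D := D) (b := b) p ρ s).1
  by_cases hs : badNP (pot p) (VVP A h p ρ D b) s
  · rw [if_pos hs]; linarith
  · rw [if_neg hs, add_zero]
    obtain ⟨_, h5⟩ := generic_runP A h p ρ D b hval hW (hsg ρ) s hs
    unfold oFP aFP
    rw [h5]

open Classical in
/-- planted law -/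
lemma planted_stepP (hval : ∀ s : E m → Lab G, (instOf h (wpt (pot p) s)).Valid) (hW : A.Within D b)
    (hsg : ∀ ρ ans a c, A.next (flagOf h) ρ ans = Act.query (Query.sign a c) →
      ∀ s : E m → Lab G, sgnCode (c + ∑ e, redc h a e * wpt (pot p) s e) = code p (redc h a) c) (ρ : Fin R → Bool)
    (T : Pool.Agent.Helper22.ETModel.Tri m) :
    ∑ s : E m → Lab G, (if T ∉ covL (VVP A h p ρ D b s) then
        (plantZ m G).g T * (plantZ m G).ind T s * aFP A h p D b ρ s else 0) ≤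
      (plantZ m G).g T * ∑ s : E m → Lab G, (plantZ m G).ind T s * oFP A h p ρ s +
      (plantZ m G).g T * ∑ s : E m → Lab G,
        (if badPP (pot p) (VVP A h p ρ D b) T s then (plantZ m G).ind T s else 0) := by
  rw [← mul_add, ← Finset.sum_add_distrib, Finset.mul_sum]
  refine Finset.sum_le_sum fun s _ => ?_
  have hg := (plantZ m G).g_nonneg T
  have hi := (plantZ m G).ind_nonneg T s
  have ho := (oFP_01 (A := A) (h := h) p ρ s).1
  have ha := (aFP_01 (A := A) (h := h) (D := D) (b := b) p ρ s)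
  have h0 : 0 ≤ (plantZ m G).ind T s * oFP A h p ρ s := mul_nonneg hi ho
  by_cases hT : T ∉ covL (VVP A h p ρ D b s)
  · rw [if_pos hT, mul_assoc]
    apply mul_le_mul_of_nonneg_left _ hg
    by_cases hP : badPP (pot p) (VVP A h p ρ D b) T s
    · rw [if_pos hP]
      have h1 : (plantZ m G).ind T s * aFP A h p D b ρ s ≤ (plantZ m G).ind T s * 1 :=
        mul_le_mul_of_nonneg_left ha.2 hi
      linarith
    · rw [if_neg hP, add_zero]
      have hN : ¬ badNP (pot p) (VVP A h p ρ D b) s := by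
        rintro ⟨f, hf, f', hf', hne, heq⟩
        by_cases hall : ∀ w : E m → ℝ, ∑ e ∈ te T, w e = 0 →
            MvPolynomial.eval w f = MvPolynomial.eval w f'
        · exact hT (mem_covL.2 ⟨f, hf, f', hf', hne, hall⟩)
        · exact hP ⟨f, hf, f', hf', hall, heq⟩
      obtain ⟨_, h5⟩ := generic_runP A h p ρ D b hval hW (hsg ρ) s hN
      have h6 : aFP A h p D b ρ s = oFP A h p ρ s := by
        unfold oFP aFP
        rw [h5]
      rw [h6]
  · rw [if_neg hT]
    have h2 : 0 ≤ (if badPP (pot p) (VVP A h p ρ D b) T s then (plantZ m G).ind T s else 0) := by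
      split_ifs
      · exact hi
      · exact le_rfl
    exact mul_nonneg hg (add_nonneg h0 h2)

/-- rejection probability on a valid instance -/
lemma sum_oFP_yes (hdec : A.Decides) {s : E m → Lab G} (hv : (instOf h (wpt (pot p) s)).Valid)
    (hy : (instOf h (wpt (pot p) s)).Yes) : ∑ ρ, oFP A h p ρ s ≤ (1 / 3) * 2 ^ R := by
  classical
  have h1 := hdec _ hv
  have h2 : ∑ ρ, oFP A h p ρ s =
      ((univ.filter fun ρ : Fin R → Bool => A.output (instOf h (wpt (pot p) s)) ρ = false).card : ℝ) := by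
    unfold oFP
    rw [← Finset.sum_filter, Finset.sum_const]; simp
  have h3 := Finset.card_filter_add_card_filter_not (s := (univ : Finset (Fin R → Bool)))
    (fun ρ => A.output (instOf h (wpt (pot p) s)) ρ = true)
  have h4 : (univ : Finset (Fin R → Bool)).card = 2 ^ R := by simp
  rw [h4] at h3
  have h5 : (univ.filter fun ρ : Fin R → Bool => (A.output (instOf h (wpt (pot p) s)) ρ = true ↔
      (instOf h (wpt (pot p) s)).Yes)) =
      univ.filter fun ρ : Fin R → Bool => A.output (instOf h (wpt (pot p) s)) ρ = true := by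
    apply Finset.filter_congr
    intro ρ _
    simp [hy]
  have h6 : (univ.filter fun ρ : Fin R → Bool => ¬ A.output (instOf h (wpt (pot p) s)) ρ = true) =
      univ.filter fun ρ : Fin R → Bool => A.output (instOf h (wpt (pot p) s)) ρ = false := by
    apply Finset.filter_congr
    intro ρ _
    simp
  have h7 : 2 * 2 ^ R ≤ 3 * (univ.filter fun ρ : Fin R → Bool =>
      A.output (instOf h (wpt (pot p) s)) ρ = true).card := by
    rw [← h5]
    refine h1.trans (le_of_eq ?_)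
    congr!
  rw [h6] at h3
  rw [h2]
  have h8 : 3 * (univ.filter fun ρ : Fin R → Bool =>
      A.output (instOf h (wpt (pot p) s)) ρ = false).card ≤ 2 ^ R := by omega
  have h9 : (3 : ℝ) * ((univ.filter fun ρ : Fin R → Bool =>
      A.output (instOf h (wpt (pot p) s)) ρ = false).card : ℝ) ≤ 2 ^ R := by exact_mod_cast h8
  linarith

/-- rejection probability on a valid instance -/
lemma sum_oFP_no (hdec : A.Decides) {s : E m → Lab G} (hv : (instOf h (wpt (pot p) s)).Valid)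
    (hy : ¬ (instOf h (wpt (pot p) s)).Yes) : (2 / 3) * 2 ^ R ≤ ∑ ρ, oFP A h p ρ s := by
  classical
  have h1 := hdec _ hv
  have h2 : ∑ ρ, oFP A h p ρ s =
      ((univ.filter fun ρ : Fin R → Bool => A.output (instOf h (wpt (pot p) s)) ρ = false).card : ℝ) := by
    unfold oFP
    rw [← Finset.sum_filter, Finset.sum_const]; simp
  have h5 : (univ.filter fun ρ : Fin R → Bool => (A.output (instOf h (wpt (pot p) s)) ρ = true ↔
      (instOf h (wpt (pot p) s)).Yes)) =
      univ.filter fun ρ : Fin R → Bool => A.output (instOf h (wpt (pot p) s)) ρ = false := by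
    apply Finset.filter_congr
    intro ρ _
    simp [hy]
  have h7 : 2 * 2 ^ R ≤ 3 * (univ.filter fun ρ : Fin R → Bool =>
      A.output (instOf h (wpt (pot p) s)) ρ = false).card := by
    rw [← h5]
    refine h1.trans (le_of_eq ?_)
    congr!
  rw [h2]
  have h9 : (2 : ℝ) * 2 ^ R ≤ 3 * ((univ.filter fun ρ : Fin R → Bool =>
      A.output (instOf h (wpt (pot p) s)) ρ = false).card : ℝ) := by exact_mod_cast h7
  linarith

/-- potentials do not change the triangle sums -/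
lemma sum_wpt (s : E m → Lab G) (T : Pool.Agent.Helper22.ETModel.Tri m) :
    ∑ k, wpt (pot p) s (tk T k) = ∑ k, wv (s (tk T k)) := by
  rw [Fin.sum_univ_three, Fin.sum_univ_three]
  have := sum_pot_tri p T
  unfold wpt
  linarith

/-- few labellings are YES-instances -/
lemma null_noP (hdec : A.Decides)
    (hval : ∀ s : E m → Lab G, (instOf h (wpt (pot p) s)).Valid) :
    (2 / 3) * 2 ^ R * ((Fintype.card (E m → Lab G) : ℝ) -
      (m : ℝ) ^ 3 * ((Fintype.card (E m → Lab G) : ℝ) / (Fintype.card (Lab G) : ℝ))) ≤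
    ∑ ρ, ∑ s : E m → Lab G, oFP A h p ρ s := by
  classical
  set M : ℝ := (Fintype.card (E m → Lab G) : ℝ) with hM
  set gΓ : ℝ := (Fintype.card (Lab G) : ℝ) with hgΓ
  have hg0 : 0 < gΓ := by rw [hgΓ]; exact_mod_cast Fintype.card_pos
  rw [Finset.sum_comm]
  have h1 : ∀ s : E m → Lab G, (2 / 3) * 2 ^ R * (1 - ∑ T : Tri m, indZ T s) ≤
      ∑ ρ, oFP A h p ρ s := by
    intro s
    have hnn : ∀ T ∈ (univ : Finset (Tri m)), 0 ≤ indZ T s := by
      intro T _
      rcases indZ_01 T s with h | h <;> rw [h] <;> norm_num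
    by_cases hy : (instOf h (wpt (pot p) s)).Yes
    · obtain ⟨T, hT⟩ := (instOf_yes h (wpt (pot p) s)).1 hy
      rw [sum_wpt] at hT
      have h2 : indZ T s = 1 := indZ_eq_one.2 hT
      have h3 := Finset.single_le_sum hnn (mem_univ T)
      rw [h2] at h3
      have h4 : 0 ≤ ∑ ρ, oFP A h p ρ s := Finset.sum_nonneg fun ρ _ => (oFP_01 p ρ s).1
      refine le_trans ?_ h4
      apply mul_nonpos_of_nonneg_of_nonpos (by positivity)
      linarith
    · refine le_trans ?_ (sum_oFP_no p hdec (hval s) hy)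
      have h3 := Finset.sum_nonneg hnn
      have h4 : (0 : ℝ) ≤ (2 / 3) * 2 ^ R := by positivity
      nlinarith
  refine le_trans ?_ (Finset.sum_le_sum fun s _ => h1 s)
  rw [← Finset.mul_sum]
  apply mul_le_mul_of_nonneg_left _ (by positivity)
  rw [Finset.sum_sub_distrib, Finset.sum_comm]
  have h2 : ∀ T : Tri m, ∑ s : E m → Lab G, indZ T s ≤ M / gΓ := by
    intro T
    rw [le_div_iff₀ hg0, mul_comm]
    exact sum_indZ_le T
  have h3 : ∑ T : Tri m, ∑ s : E m → Lab G, indZ T s ≤ (m : ℝ) ^ 3 * (M / gΓ) := by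
    calc ∑ T : Tri m, ∑ s : E m → Lab G, indZ T s ≤ ∑ _T : Tri m, M / gΓ :=
          Finset.sum_le_sum fun T _ => h2 T
      _ = (m : ℝ) ^ 3 * (M / gΓ) := by
          rw [Finset.sum_const, Finset.card_univ, nsmul_eq_mul]
          simp [Tri]
  have h4 : ∑ _s : E m → Lab G, (1 : ℝ) = M := by simp [hM]
  rw [h4]
  linarith

/-- planted instances are YES-instances -/
lemma planted_yesP (hdec : A.Decides)
    (hval : ∀ s : E m → Lab G, (instOf h (wpt (pot p) s)).Valid)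
    (T : Pool.Agent.Helper22.ETModel.Tri m) :
    ∑ ρ, ((plantZ m G).g T * ∑ s : E m → Lab G, (plantZ m G).ind T s * oFP A h p ρ s) ≤
    (1 / 3) * 2 ^ R * (Fintype.card (E m → Lab G) : ℝ) := by
  classical
  rw [← Finset.mul_sum, Finset.sum_comm]
  have h1 : ∀ s : E m → Lab G, ∑ ρ, (plantZ m G).ind T s * oFP A h p ρ s ≤
      (plantZ m G).ind T s * ((1 / 3) * 2 ^ R) := by
    intro s
    rw [← Finset.mul_sum]
    rcases (plantZ m G).ind_01 T s with h2 | h2
    · rw [h2]; simp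
    · apply mul_le_mul_of_nonneg_left _ ((plantZ m G).ind_nonneg T s)
      apply sum_oFP_yes p hdec (hval s)
      rw [instOf_yes]
      refine ⟨T, ?_⟩
      rw [sum_wpt]
      exact indZ_eq_one.1 h2
  calc (plantZ m G).g T * ∑ s : E m → Lab G, ∑ ρ, (plantZ m G).ind T s * oFP A h p ρ s
      ≤ (plantZ m G).g T * ∑ s : E m → Lab G, (plantZ m G).ind T s * ((1 / 3) * 2 ^ R) :=
        mul_le_mul_of_nonneg_left (Finset.sum_le_sum fun s _ => h1 s) ((plantZ m G).g_nonneg T)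
    _ = (1 / 3) * 2 ^ R * ((plantZ m G).g T * ∑ s : E m → Lab G, (plantZ m G).ind T s) := by
        rw [← Finset.sum_mul]; ring
    _ = _ := by rw [(plantZ m G).sum_ind T]

/-- the main inequality -/
theorem main_ineqP {H t l : ℕ} (hm : 0 < m) (hK : 2 ^ (b + t) ≤ m)
    (hval : ∀ s : E m → Lab G, (instOf h (wpt (pot p) s)).Valid)
    (hH : 0 < H) (hW : A.Within D b) (hdec : A.Decides)
    (hA1 : ∀ fl ρ ans f, A.next fl ρ ans = Act.query (Query.value f) → f.totalDegree ≤ d)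
    (hsg : ∀ ρ ans a c, A.next (flagOf h) ρ ans = Act.query (Query.sign a c) →
      ∀ s : E m → Lab G, sgnCode (c + ∑ e, redc h a e * wpt (pot p) s e) = code p (redc h a) c)
    (hl : 1 ≤ l) (hD : D < 2 ^ l) :
    (1 : ℝ) / 3 ≤ (2 / 3) * ((m : ℝ) ^ 3 / (Fintype.card (Lab G) : ℝ)) + errN m G H D d b +
      errP m G H D d b +
      (Real.sqrt (3 * (2 * 2 ^ (b + t)) / (m : ℝ) ^ 2 +
            6 * Real.sqrt (2 * 2 * (1 / 2) ^ t)) +
          (((468 * (d + 1) * l ^ 3) * D : ℕ) : ℝ) * (2 * 2 ^ (b + t)) / (m : ℝ) ^ 3) := by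
  classical
  set N : ℕ := (468 * (d + 1) * l ^ 3) * D with hN
  set M : ℝ := (Fintype.card (E m → Lab G) : ℝ) with hM
  set gΓ : ℝ := (Fintype.card (Lab G) : ℝ) with hgΓ
  have hM0 : 0 < M := by rw [hM]; exact_mod_cast Fintype.card_pos
  have hg0 : 0 < gΓ := by rw [hgΓ]; exact_mod_cast Fintype.card_pos
  have hm0 : (0 : ℝ) < (m : ℝ) := by exact_mod_cast hm
  have hR0 : (0 : ℝ) < 2 ^ R := by positivity
  set Δ : ℝ := Real.sqrt (3 * (2 * 2 ^ (b + t)) / (m : ℝ) ^ 2 +
            6 * Real.sqrt (2 * 2 * (1 / 2) ^ t)) + (N : ℝ) * (2 * 2 ^ (b + t)) / (m : ℝ) ^ 3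
    with hΔ
  -- one random string
  have hρ : ∀ ρ : Fin R → Bool,
      (m : ℝ) ^ 3 * ∑ s : E m → Lab G, oFP A h p ρ s ≤
        (m : ℝ) ^ 3 * M * Δ + (m : ℝ) ^ 3 * (errN m G H D d b * M) +
        (m : ℝ) ^ 3 * (errP m G H D d b * M) +
        ∑ T : Tri m, ((plantZ m G).g T * ∑ s : E m → Lab G, (plantZ m G).ind T s * oFP A h p ρ s) := by
    intro ρ
    have hN' : ((univ.filter fun s : E m → Lab G => badNP (pot p) (VVP A h p ρ D b) s).card : ℝ) ≤
        errN m G H D d b * M :=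
      card_badNP (pot p) (readBP A h p ρ D b G) L b H D d (VVP A h p ρ D b)
        (fun r e => used_readBP A h p ρ D b r e) hH
        (fun r r' hc => VVP_congr hc) (fun r => length_VVP A h p ρ D b r)
        (fun r => degree_VVP A h p ρ D b hA1 r)
    have hP' : ∀ T : Tri m, (plantZ m G).g T * ∑ s : E m → Lab G,
        (if badPP (pot p) (VVP A h p ρ D b) T s then (plantZ m G).ind T s else 0) ≤
        errP m G H D d b * M := fun T =>
      sum_badPP (pot p) (readBP A h p ρ D b G) L b H D d (VVP A h p ρ D b)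
        (fun r e => used_readBP A h p ρ D b r e) hH
        (fun r r' hc => VVP_congr hc) (fun r => length_VVP A h p ρ D b r)
        (fun r => degree_VVP A h p ρ D b hA1 r) T (sum_pot_tri p T)
    have hcore := leak_core (plantZ m G) (readBP A h p ρ D b G) L b t N hm hK
      (fun r e => used_readBP A h p ρ D b r e) (aFP A h p D b ρ)
      (fun r => (aFP_01 p ρ r).1) (fun r => (aFP_01 p ρ r).2)
      (by
        intro r r' hc
        unfold aFP
        rw [out2P_congr hc])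
      (fun s => covL (VVP A h p ρ D b s))
      (by
        intro r r' hc
        beta_reduce
        rw [VVP_congr hc])
      (fun r => card_covL_le _ (length_VVP A h p ρ D b r) (degree_VVP A h p ρ D b hA1 r) hl hD)
    have h1 := null_stepP (A := A) (h := h) p hval hW hsg ρ
    have h2 : ∀ T : Tri m, _ := fun T => planted_stepP (A := A) (h := h) p hval hW hsg ρ T
    have hC : (plantZ m G).C = 2 := rfl
    rw [hC] at hcore
    have h3 : ∑ T : Tri m, ∑ s : E m → Lab G, (if T ∉ covL (VVP A h p ρ D b s) then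
        (plantZ m G).g T * (plantZ m G).ind T s * aFP A h p D b ρ s else 0) ≤
        ∑ T : Tri m, ((plantZ m G).g T * ∑ s : E m → Lab G, (plantZ m G).ind T s * oFP A h p ρ s) +
          (m : ℝ) ^ 3 * (errP m G H D d b * M) := by
      calc _ ≤ ∑ T : Tri m, ((plantZ m G).g T *
              ∑ s : E m → Lab G, (plantZ m G).ind T s * oFP A h p ρ s + errP m G H D d b * M) := by
            refine Finset.sum_le_sum fun T _ => ?_
            exact (h2 T).trans (add_le_add le_rfl (hP' T))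
        _ = _ := by
            rw [Finset.sum_add_distrib]
            congr 1
            rw [Finset.sum_const, Finset.card_univ, nsmul_eq_mul]
            simp [Tri]
    have h4 : (m : ℝ) ^ 3 * ∑ s : E m → Lab G, oFP A h p ρ s ≤
        (m : ℝ) ^ 3 * (∑ s : E m → Lab G, aFP A h p D b ρ s + errN m G H D d b * M) := by
      apply mul_le_mul_of_nonneg_left _ (by positivity)
      linarith
    have h5 : (m : ℝ) ^ 3 * ∑ s : E m → Lab G, aFP A h p D b ρ s - (m : ℝ) ^ 3 * M * Δ ≤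
        ∑ T : Tri m, ∑ s : E m → Lab G, (if T ∉ covL (VVP A h p ρ D b s) then
        (plantZ m G).g T * (plantZ m G).ind T s * aFP A h p D b ρ s else 0) := by
      refine le_trans (le_of_eq ?_) (hcore.trans (le_of_eq ?_))
      · rfl
      · congr!
    linarith
  -- sum over the random strings
  have hsum := Finset.sum_le_sum fun ρ (_ : ρ ∈ (univ : Finset (Fin R → Bool))) => hρ ρ
  have hcR : ((univ : Finset (Fin R → Bool)).card : ℝ) = 2 ^ R := by simp
  have h6 : ∑ ρ : Fin R → Bool, ((m : ℝ) ^ 3 * M * Δ + (m : ℝ) ^ 3 * (errN m G H D d b * M) +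
        (m : ℝ) ^ 3 * (errP m G H D d b * M) +
        ∑ T : Tri m, ((plantZ m G).g T * ∑ s : E m → Lab G, (plantZ m G).ind T s * oFP A h p ρ s)) ≤
      2 ^ R * ((m : ℝ) ^ 3 * M * Δ + (m : ℝ) ^ 3 * (errN m G H D d b * M) +
        (m : ℝ) ^ 3 * (errP m G H D d b * M)) +
      (m : ℝ) ^ 3 * ((1 / 3) * 2 ^ R * M) := by
    rw [Finset.sum_add_distrib, Finset.sum_const, nsmul_eq_mul, hcR, Finset.sum_comm]
    refine add_le_add le_rfl ?_
    calc _ ≤ ∑ _T : Tri m, (1 / 3) * 2 ^ R * M :=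
          Finset.sum_le_sum fun T _ => planted_yesP p hdec hval T
      _ = _ := by
          rw [Finset.sum_const, Finset.card_univ, nsmul_eq_mul]
          simp [Tri]
  have h7 := null_noP (A := A) (h := h) p hdec hval
  rw [← Finset.mul_sum] at hsum
  have h8 := mul_le_mul_of_nonneg_left h7 (by positivity : (0 : ℝ) ≤ (m : ℝ) ^ 3)
  have h9 := h8.trans (hsum.trans h6)
  have hpos : (0 : ℝ) < (m : ℝ) ^ 3 * (2 ^ R * M) := by positivity
  have h10 : ((m : ℝ) ^ 3 * (2 ^ R * M)) * (1 / 3) ≤ ((m : ℝ) ^ 3 * (2 ^ R * M)) *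
      ((2 / 3) * ((m : ℝ) ^ 3 / gΓ) + errN m G H D d b + errP m G H D d b + Δ) := by
    have e1 : (m : ℝ) ^ 3 * ((2 / 3) * 2 ^ R * (M - (m : ℝ) ^ 3 * (M / gΓ))) =
        ((m : ℝ) ^ 3 * (2 ^ R * M)) * (2 / 3) -
          ((m : ℝ) ^ 3 * (2 ^ R * M)) * ((2 / 3) * ((m : ℝ) ^ 3 / gΓ)) := by
      ring
    have e2 : 2 ^ R * ((m : ℝ) ^ 3 * M * Δ + (m : ℝ) ^ 3 * (errN m G H D d b * M) +
        (m : ℝ) ^ 3 * (errP m G H D d b * M)) + (m : ℝ) ^ 3 * ((1 / 3) * 2 ^ R * M) =
        ((m : ℝ) ^ 3 * (2 ^ R * M)) * (errN m G H D d b + errP m G H D d b + Δ) +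
          ((m : ℝ) ^ 3 * (2 ^ R * M)) * (1 / 3) := by
      ring
    rw [e1, e2] at h9
    linarith
  exact le_of_mul_le_mul_left h10 hpos

end prob

/-! ### numbers -/

section numbers

/-- all errors are small -/
lemma errs_leP {m n D d b : ℕ} (hn : 2 ^ (b + 20) ≤ n) (h : 3 * m ≤ n)
    (hDd' : D ^ 2 * d ≤ n ^ 9) :
    (2 / 3) * ((m : ℝ) ^ 3 / (Fintype.card (Lab (n ^ 25)) : ℝ)) + errN m (n ^ 25) (n ^ 18) D d b +
      errP m (n ^ 25) (n ^ 18) D d b ≤ 1 / 1000 := by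
  have hn20 : (2 : ℝ) ^ 20 ≤ (n : ℝ) := by
    have : 2 ^ 20 ≤ n := le_trans (Nat.pow_le_pow_right (by norm_num) (by omega)) hn
    exact_mod_cast this
  have hn0 : (0 : ℝ) < (n : ℝ) := lt_of_lt_of_le (by norm_num) hn20
  have hn1 : (1 : ℝ) ≤ (n : ℝ) := le_trans (by norm_num) hn20
  have hb : (2 : ℝ) ^ b ≤ (n : ℝ) := by
    have : 2 ^ b ≤ n := le_trans (Nat.pow_le_pow_right (by norm_num) (by omega)) hn
    exact_mod_cast this
  have hb0 : (0 : ℝ) < 2 ^ b := by positivity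
  have hb4 : (4 : ℝ) ^ b ≤ (n : ℝ) ^ 2 := by
    have : (4 : ℝ) ^ b = (2 ^ b) ^ 2 := by
      rw [← pow_mul, mul_comm, pow_mul]; norm_num
    rw [this]
    gcongr
  have hm : (m : ℝ) ≤ (n : ℝ) := by
    have : m ≤ n := by omega
    exact_mod_cast this
  have hm0 : (0 : ℝ) ≤ (m : ℝ) := Nat.cast_nonneg _
  have hE : (Fintype.card (E m) : ℝ) ≤ (n : ℝ) ^ 2 := by
    have h1 : Fintype.card (E m) ≤ n ^ 2 := by
      have : Fintype.card (E m) = 3 * m ^ 2 := by
        simp [E, Fintype.card_prod]; ring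
      rw [this]
      nlinarith
    exact_mod_cast h1
  have hE0 : (0 : ℝ) ≤ (Fintype.card (E m) : ℝ) := Nat.cast_nonneg _
  have hΓ : (Fintype.card (Lab (n ^ 25)) : ℝ) = 2 * (n : ℝ) ^ 25 + 1 := by
    rw [card_lab]; push_cast; ring
  have hΓ1 : (n : ℝ) ^ 25 ≤ (Fintype.card (Lab (n ^ 25)) : ℝ) := by
    rw [hΓ]
    have : 0 ≤ (n : ℝ) ^ 25 := by positivity
    linarith
  have hΓ2 : (Fintype.card (Lab (n ^ 25)) : ℝ) ≤ 3 * (n : ℝ) ^ 25 := by
    rw [hΓ]
    have : 1 ≤ (n : ℝ) ^ 25 := one_le_pow₀ hn1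
    linarith
  have hΓ0 : (0 : ℝ) < (Fintype.card (Lab (n ^ 25)) : ℝ) := lt_of_lt_of_le (by positivity) hΓ1
  have hDd : ((D ^ 2 * d : ℕ) : ℝ) ≤ (n : ℝ) ^ 9 := by exact_mod_cast hDd'
  have hDd0 : (0 : ℝ) ≤ ((D ^ 2 * d : ℕ) : ℝ) := Nat.cast_nonneg _
  have hcH : ((n ^ 18 : ℕ) : ℝ) = (n : ℝ) ^ 18 := by push_cast; rfl
  have hpw : ∀ a c : ℕ, a ≤ c → (n : ℝ) ^ a ≤ (n : ℝ) ^ c := fun a c hac => pow_le_pow_right₀ hn1 hac
  have key : ∀ x y : ℝ, 0 < y → x * n ≤ y → x / y ≤ 1 / n := by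
    intro x y hy hxy
    rw [div_le_div_iff₀ hy hn0]
    linarith
  have h1 : (2 / 3) * ((m : ℝ) ^ 3 / (Fintype.card (Lab (n ^ 25)) : ℝ)) ≤ 1 / n := by
    have h2 : (m : ℝ) ^ 3 / (Fintype.card (Lab (n ^ 25)) : ℝ) ≤ 1 / n := by
      apply key _ _ hΓ0
      calc (m : ℝ) ^ 3 * n ≤ (n : ℝ) ^ 3 * n := by gcongr
        _ = (n : ℝ) ^ 4 := by ring
        _ ≤ (n : ℝ) ^ 25 := hpw _ _ (by norm_num)
        _ ≤ _ := hΓ1
    have h3 : (0 : ℝ) ≤ 1 / n := by positivity
    linarith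
  have h2 : errN m (n ^ 25) (n ^ 18) D d b ≤ 1 / n + 1 / n := by
    unfold errN
    rw [hcH]
    apply add_le_add
    · rw [← mul_div_assoc]
      apply key _ _ hΓ0
      calc (Fintype.card (E m) : ℝ) * (2 ^ b * (n : ℝ) ^ 18) * n
          ≤ (n : ℝ) ^ 2 * (n * (n : ℝ) ^ 18) * n := by gcongr
        _ = (n : ℝ) ^ 22 := by ring
        _ ≤ (n : ℝ) ^ 25 := hpw _ _ (by norm_num)
        _ ≤ _ := hΓ1
    · apply key _ _ (by positivity)
      calc ((D ^ 2 * d : ℕ) : ℝ) * n ≤ (n : ℝ) ^ 9 * n := by gcongr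
        _ = (n : ℝ) ^ 10 := by ring
        _ ≤ (n : ℝ) ^ 18 := hpw _ _ (by norm_num)
  have h3 : errP m (n ^ 25) (n ^ 18) D d b ≤ 1 / n + 1 / n := by
    unfold errP
    rw [hcH]
    apply add_le_add
    · rw [← mul_div_assoc]
      apply key _ _ hΓ0
      calc (Fintype.card (E m) : ℝ) * (2 * 4 ^ b * (n : ℝ) ^ 18) * n
          ≤ (n : ℝ) ^ 2 * (n * (n : ℝ) ^ 2 * (n : ℝ) ^ 18) * n := by
            have : (2 : ℝ) ≤ n := le_trans (by norm_num) hn20
            gcongr
        _ = (n : ℝ) ^ 24 := by ring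
        _ ≤ (n : ℝ) ^ 25 := hpw _ _ (by norm_num)
        _ ≤ _ := hΓ1
    · rw [← mul_div_assoc]
      apply key _ _ (by positivity)
      calc 2 * (Fintype.card (Lab (n ^ 25)) : ℝ) * ((D ^ 2 * d : ℕ) : ℝ) * n
          ≤ 2 * (3 * (n : ℝ) ^ 25) * (n : ℝ) ^ 9 * n := by gcongr
        _ = 6 * (n : ℝ) ^ 35 := by ring
        _ ≤ n * (n : ℝ) ^ 35 := by
            have : (6 : ℝ) ≤ n := le_trans (by norm_num) hn20
            gcongr
        _ = (n : ℝ) ^ 36 := by ring
        _ ≤ (n : ℝ) ^ 36 := hpw _ _ (by norm_num)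
        _ = ((n : ℝ) ^ 18) ^ 2 := by rw [← pow_mul]
  have h4 : (1 : ℝ) / n ≤ 1 / 5000 := by
    apply one_div_le_one_div_of_le (by norm_num)
    refine le_trans ?_ hn20
    norm_num
  linarith

end numbers

/-- The bound for one set of parameters. -/
theorem core_arbP {n L R D b d r c l : ℕ} (hrc : r * (c + 4) + 2 * c ≤ 270)
    (hn : 2 ^ (b + 20) ≤ n) (A : LAlg n L R)
    (hA1 : ∀ fl ρ ans f, A.next fl ρ ans = Act.query (Query.value f) → f.totalDegree ≤ d)
    (hA2 : ∀ fl ρ ans a x, A.next fl ρ ans = Act.query (Query.sign a x) →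
      SparseOK n r c a x ∧ Moves fl a)
    (hW : A.Within D b) (hdec : A.Decides) (hDd : D ^ 2 * d ≤ n ^ 9)
    (hl : 1 ≤ l) (hDl : D < 2 ^ l) :
    ((n / 3 : ℕ) : ℝ) ^ 3 ≤ 14 * ((468 * (d + 1) * l ^ 3 * D : ℕ) : ℝ) * 2 ^ (b + 17) := by
  have hK : 2 ^ (b + 17) ≤ n / 3 := by
    have h1 : 2 ^ (b + 20) = 8 * 2 ^ (b + 17) := by
      rw [show b + 20 = (b + 17) + 3 by ring, pow_add]; ring
    have h2 : 1 ≤ 2 ^ (b + 17) := Nat.one_le_two_pow
    omega
  have hm0 : 0 < n / 3 := lt_of_lt_of_le (by positivity) hK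
  have hn1 : 1 ≤ n := by omega
  have h : 3 * (n / 3) ≤ n := Nat.mul_div_le n 3
  have hn20 : 2 ^ 20 ≤ n := le_trans (Nat.pow_le_pow_right (by norm_num) (by omega)) hn
  obtain ⟨p, hval, hcode⟩ := exists_potF (c := c) hn20 hrc h hm0
  have h1 := main_ineqP (A := A) (G := n ^ 25) (H := n ^ 18) (t := 17) p hm0 hK
    hval (Nat.pow_pos hn1) hW hdec hA1
    (fun ρ ans a x hq s => hcode a x (hA2 _ _ _ _ _ hq).1 (hA2 _ _ _ _ _ hq).2 s) hl hDl
  have h2 := errs_leP (m := n / 3) hn h hDd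
  have h3 := sqrt_num hK
  have hmR : (0 : ℝ) < ((n / 3 : ℕ) : ℝ) ^ 3 := by
    have : (0 : ℝ) < ((n / 3 : ℕ) : ℝ) := by exact_mod_cast hm0
    positivity
  have h4 : (1 : ℝ) / 7 ≤ ((468 * (d + 1) * l ^ 3 * D : ℕ) : ℝ) * (2 * 2 ^ (b + 17)) /
      ((n / 3 : ℕ) : ℝ) ^ 3 := by
    have h5 : (1 : ℝ) / 3 ≤ 1 / 1000 + (183 / 1000 +
        ((468 * (d + 1) * l ^ 3 * D : ℕ) : ℝ) * (2 * 2 ^ (b + 17)) /
      ((n / 3 : ℕ) : ℝ) ^ 3) := h1.trans (add_le_add h2 (add_le_add h3 le_rfl))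
    linarith
  rw [div_le_div_iff₀ (by norm_num) hmR] at h4
  linarith

/-- **Lower bound with arbitrary inspected bits and sign queries that are not determined by the
triangle sums.** -/
theorem lower_bound_free {n L R D b d r c : ℕ} (hrc : r * (c + 4) + 2 * c ≤ 270)
    (hn : 2 ^ (b + 20) ≤ n) (A : LAlg n L R)
    (hA1 : ∀ fl ρ ans f, A.next fl ρ ans = Act.query (Query.value f) → f.totalDegree ≤ d)
    (hA2 : ∀ fl ρ ans a x, A.next fl ρ ans = Act.query (Query.sign a x) →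
      SparseOK n r c a x ∧ Moves fl a)
    (hW : A.Within D b) (hdec : A.Decides) :
    (n : ℝ) ^ 3 ≤ 2 ^ (b + 40) * (D : ℝ) * ((d : ℝ) + 1) * (Real.logb 2 (n : ℝ)) ^ 3 := by
  have hn17 : 2 ^ 20 ≤ n := le_trans (Nat.pow_le_pow_right (by norm_num) (by omega)) hn
  have hn3 : 3 ≤ n := le_trans (by norm_num) hn17
  have hm0 : 0 < n / 3 := by
    have : 2 ^ 20 / 3 ≤ n / 3 := Nat.div_le_div_right hn17
    exact lt_of_lt_of_le (by norm_num) this
  have hlam1 : 1 ≤ Real.logb 2 (n : ℝ) := by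
    have hn3' : (3 : ℝ) ≤ n := by exact_mod_cast hn3
    rw [Real.le_logb_iff_rpow_le (by norm_num) (by linarith)]
    norm_num; linarith
  have hlam3 : 1 ≤ (Real.logb 2 (n : ℝ)) ^ 3 := one_le_pow₀ hlam1
  have hmR : (0 : ℝ) < ((n / 3 : ℕ) : ℝ) ^ 3 := by
    have : (0 : ℝ) < ((n / 3 : ℕ) : ℝ) := by exact_mod_cast hm0
    positivity
  have hD1 : 1 ≤ D := by
    by_contra hcon
    have hD0 : D = 0 := by omega
    subst hD0
    have h1 := core_arbP hrc hn A hA1 hA2 hW hdec (by simp) le_rfl (by norm_num : 0 < 2 ^ 1)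
    simp only [mul_zero, Nat.cast_zero, zero_mul] at h1
    linarith
  by_cases hDn : D ≤ n ^ 3 ∧ d ≤ n ^ 3
  · obtain ⟨hDn, hdn⟩ := hDn
    set l := Nat.log 2 D + 1 with hl
    have hDl : D < 2 ^ l := Nat.lt_pow_succ_log_self (by norm_num) D
    have hDd : D ^ 2 * d ≤ n ^ 9 := by
      calc D ^ 2 * d ≤ (n ^ 3) ^ 2 * n ^ 3 := Nat.mul_le_mul (Nat.pow_le_pow_left hDn 2) hdn
        _ = n ^ 9 := by ring
    have h1 := core_arbP hrc hn A hA1 hA2 hW hdec hDd (by omega : 1 ≤ l) hDl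
    have h2 := numeric (b := b + 3) (d := d) (l := l) (D := D) (n := n) hn hD1 hDn hl (by
      refine h1.trans ?_
      have h3 : ((468 * (d + 1) * l ^ 3 * D : ℕ) : ℝ) ≤
          ((468 * (d + 1) * l ^ 3 * D + D : ℕ) : ℝ) := by
        exact_mod_cast Nat.le_add_right _ _
      have h4 : (2 : ℝ) ^ (b + 3 + 15) = 2 * 2 ^ (b + 17) := by
        rw [show b + 3 + 15 = (b + 17) + 1 by ring, pow_succ]; ring
      rw [h4]
      have h5 : (0 : ℝ) ≤ ((468 * (d + 1) * l ^ 3 * D : ℕ) : ℝ) := Nat.cast_nonneg _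
      have h6 : (0 : ℝ) ≤ 2 ^ (b + 17) := by positivity
      calc 14 * ((468 * (d + 1) * l ^ 3 * D : ℕ) : ℝ) * 2 ^ (b + 17)
          ≤ 20 * ((468 * (d + 1) * l ^ 3 * D + D : ℕ) : ℝ) * 2 ^ (b + 17) := by
            apply mul_le_mul_of_nonneg_right _ h6
            linarith
        _ = _ := by ring)
    refine h2.trans (le_of_eq ?_)
    rw [show b + 40 = 37 + (b + 3) by ring, pow_add 2 37 (b + 3)]
  · rw [not_and_or] at hDn
    push Not at hDn
    have hDr : (1 : ℝ) ≤ D := by exact_mod_cast hD1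
    have hd0 : (0 : ℝ) ≤ d := Nat.cast_nonneg _
    have h0 : (n : ℝ) ^ 3 ≤ D * ((d : ℝ) + 1) := by
      rcases hDn with hDn | hdn
      · have h1 : (n : ℝ) ^ 3 ≤ D := by exact_mod_cast hDn.le
        nlinarith
      · have h1 : (n : ℝ) ^ 3 ≤ d := by exact_mod_cast hdn.le
        nlinarith
    have h2 : (1 : ℝ) ≤ 2 ^ (b + 40) := one_le_pow₀ (by norm_num)
    calc (n : ℝ) ^ 3 ≤ D * ((d : ℝ) + 1) := h0
      _ ≤ 2 ^ (b + 40) * (D * ((d : ℝ) + 1)) := by
          have : 0 ≤ (D : ℝ) * ((d : ℝ) + 1) := by positivity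
          nlinarith
      _ = 2 ^ (b + 40) * D * ((d : ℝ) + 1) * 1 := by ring
      _ ≤ _ := by gcongr

end Pool.Agent.Helper7.LK
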