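import Mathlib
import Pool.Agent.Helper8.LK.Err
import Pool.Agent.Helper95.LK.Prob
import Pool.Agent.Helper95.LK.Params
import Pool.Agent.Helper95.LK.Main
import Pool.Agent.Helper7.LK.ArbP

/-!
# Periodic bits and sign queries that are one-signed or not determined by the triangle sums

The chain of `Helper8/LK` and `Helper95/LK` for an arbitrary class `S` of sign queries whose answers
the potentials hide.
-/

set_option autoImplicit false

namespace Pool.Agent.Helper7.LK

open Finset
open Pool.Agent.Helper22.ETModel Pool.Agent.Helper22.EP Pool.Agent.Helper14.LK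
open Pool.Agent.Helper8.LK

/-- The potentials `p` together with the constants `B`, `G` hide the noise and the planted triangle
from all sign queries in the class `S`. -/
structure HidesS (n : ℕ) {m : ℕ} (h : 3 * m ≤ n) (p : Fin 3 × Fin m → ℤ) (B G : ℕ)
    (S : (Fin n → Fin n → ℤ) → ℤ → Prop) : Prop where
  validB : ∀ g : E m → Fin (G + 1), (instOf h (wB p B G g)).Valid
  validT : ∀ (T : Tri m) (g : E m → Fin (G + 1)), (instOf h (wT p B G T g)).Valid
  noB : ∀ g : E m → Fin (G + 1), ¬ (instOf h (wB p B G g)).Yes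
  yesT : ∀ (T : Tri m) (g : E m → Fin (G + 1)), (instOf h (wT p B G T g)).Yes
  signB : ∀ a b, S a b → ∀ g : E m → Fin (G + 1),
    sgnCode (b + ∑ e, redc h a e * wB p B G g e) = code p (redc h a) b
  signT : ∀ a b, S a b → ∀ T : Tri m, (∀ c0 : ℤ, c0 ≠ 0 → redc h a ≠ ind T c0) →
    ∀ g : E m → Fin (G + 1),
    sgnCode (b + ∑ e, redc h a e * wT p B G T g e) = code p (redc h a) b

/-- Generic instances exist, for the class `S` of sign queries. -/
def GenericS (n : ℕ) {m : ℕ} (h : 3 * m ≤ n) (p : Fin 3 × Fin m → ℤ) (q D d : ℕ)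
    (S : (Fin n → Fin n → ℤ) → ℤ → Prop) : Prop :=
  ∀ x : E m → ZMod q, ∀ l : List (RForm m), l.length ≤ D → (∀ f ∈ l, f.totalDegree ≤ d) →
    ∃ w : E m → ℤ, (∀ e, ((w e : ℤ) : ZMod q) = x e) ∧ (instOf h w).Valid ∧
      (∀ f ∈ l, ∀ f' ∈ l, rev w f = rev w f' → f = f') ∧
      ∀ a b, S a b → sgnCode (b + ∑ e, redc h a e * w e) = code p (redc h a) b

section chain

variable {m n : ℕ} {L R : ℕ} (A : LAlg n L R) (h : 3 * m ≤ n) (p : Fin 3 × Fin m → ℤ)
  {D d b : ℕ} (ρ : Fin R → Bool) {q : ℕ} {S : (Fin n → Fin n → ℤ) → ℤ → Prop}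

/-- the ideal run asks at most `D` queries -/
theorem nq_leS (hW : A.Within D b)
    (hA1 : ∀ fl ρ ans f, A.next fl ρ ans = Act.query (Query.value f) → f.totalDegree ≤ d)
    (hA2 : ∀ ans a b, A.next (flagOf h) ρ ans = Act.query (Query.sign a b) → S a b)
    (hper : ∀ ans i j φ, A.next (flagOf h) ρ ans = Act.bit i j φ → ∀ z : ℤ, φ (z + q) = φ z)
    (hgen : GenericS n h p q D d S) (x : E m → ZMod q) (t : ℕ) (ht : t ≤ L) :
    nq A h p ρ x t ≤ D := by
  induction t with
  | zero => simp [nq]
  | succ t ih =>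
    have ih' := ih (by omega)
    obtain ⟨w, hw1, hw2, hw3, hw4⟩ := hgen x (lrun A h p ρ x t).2
      ((lrun_length A h p ρ x t).trans ih') (lrun_degree A h p ρ x hA1 t)
    have hrun := run_eq_lrun A h p ρ x w hw1 hper (T := t) hw3
      (fun s _ a b hq => hw4 a b (hA2 _ _ _ hq))
    refine (real_queries A h p ρ (instOf h w) t x rfl (fun s hs => ?_) (by omega)).trans
      (hW _ hw2 ρ).1
    rw [hrun s hs]

open Classical in
/-- the ideal run inspects at most `b` bits of every edge -/
theorem card_ract_leS (hW : A.Within D b)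
    (hA1 : ∀ fl ρ ans f, A.next fl ρ ans = Act.query (Query.value f) → f.totalDegree ≤ d)
    (hA2 : ∀ ans a b, A.next (flagOf h) ρ ans = Act.query (Query.sign a b) → S a b)
    (hper : ∀ ans i j φ, A.next (flagOf h) ρ ans = Act.bit i j φ → ∀ z : ℤ, φ (z + q) = φ z)
    (hgen : GenericS n h p q D d S) (x : E m → ZMod q) (e : E m) :
    ((Finset.range L).filter fun t => ∃ f, ract A h p ρ t x = some (e, f)).card ≤ b := by
  obtain ⟨w, hw1, hw2, hw3, hw4⟩ := hgen x (lrun A h p ρ x L).2
    ((lrun_length A h p ρ x L).trans (nq_leS A h p ρ hW hA1 hA2 hper hgen x L le_rfl))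
    (lrun_degree A h p ρ x hA1 L)
  have hrun := run_eq_lrun A h p ρ x w hw1 hper (T := L) hw3
    (fun s _ a b hq => hw4 a b (hA2 _ _ _ hq))
  refine le_trans ?_ ((hW _ hw2 ρ).2 (enc h e).1 (enc h e).2)
  unfold LAlg.bits
  apply Finset.card_le_card
  intro t ht
  rw [mem_filter, Finset.mem_range] at ht ⊢
  obtain ⟨h1, f, h2⟩ := ht
  refine ⟨h1, ?_⟩
  have h3 : A.next (instOf h w).flag ρ (A.run (instOf h w) ρ t).1 = lact A h p ρ x t := by
    rw [hrun t (by omega)]; rfl
  rw [h3]
  unfold ract at h2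
  rcases hq : lact A h p ρ x t with qu | ⟨i, j, φ⟩
  · rw [hq] at h2; simp at h2
  · rw [hq] at h2
    simp only at h2
    refine ⟨φ, ?_⟩
    rcases hc : cellE h i j with _ | e'
    · rw [hc] at h2; simp at h2
    · rw [hc] at h2
      simp only [Option.map_some, Option.some.injEq, Prod.mk.injEq] at h2
      obtain ⟨rfl, _⟩ := h2
      rcases cellE_spec h hc with h4 | h4
      · left; rw [h4]
      · right; rw [h4]

end chain

section glue

variable {m n : ℕ} {L R : ℕ} (A : LAlg n L R) (h : 3 * m ≤ n) (p : Fin 3 × Fin m → ℤ) (B G : ℕ)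
  {D d b : ℕ} (ρ : Fin R → Bool) {q : ℕ} [NeZero q] {S : (Fin n → Fin n → ℤ) → ℤ → Prop}

/-- instances generic for a short list exist with every residue vector -/
lemma generic_ofS (hH : HidesS n h p B G S) (hbig : D ^ 2 * d < (G + 1) / q) :
    GenericS n h p q D d S := by
  intro x l hl hd
  obtain ⟨g, hg, hgen⟩ := exists_generic p B G q d D hbig x l hl hd
  exact ⟨wB p B G g, fun e => congrFun hg e, hH.validB g, hgen, fun a b hab => hH.signB a b hab g⟩

/-- at most `b` bits of every edge are read -/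
lemma used_leS (hH : HidesS n h p B G S) (hbig : D ^ 2 * d < (G + 1) / q)
    (hW : A.Within D b)
    (hA1 : ∀ fl ρ ans f, A.next fl ρ ans = Act.query (Query.value f) → f.totalDegree ≤ d)
    (hA2 : ∀ ans a b, A.next (flagOf h) ρ ans = Act.query (Query.sign a b) → S a b)
    (hper : ∀ ans i j φ, A.next (flagOf h) ρ ans = Act.bit i j φ → ∀ z : ℤ, φ (z + q) = φ z)
    (r : E m → ZMod q) (e : E m) : (reading A h p ρ q).used L r e ≤ b := by
  have h1 := card_ract_leS A h p ρ hW hA1 hA2 hper (generic_ofS h p B G hH hbig) r e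
  unfold Helper95.LK.Reading.used
  refine le_trans (le_of_eq ?_) h1
  apply congrArg Finset.card
  ext t
  simp only [mem_filter]
  rfl

/-- few triangles are covered or hit -/
lemma card_Cov_leS (hH : HidesS n h p B G S) (hbig : D ^ 2 * d < (G + 1) / q)
    (hW : A.Within D b)
    (hA1 : ∀ fl ρ ans f, A.next fl ρ ans = Act.query (Query.value f) → f.totalDegree ≤ d)
    (hA2 : ∀ ans a b, A.next (flagOf h) ρ ans = Act.query (Query.sign a b) → S a b)
    (hper : ∀ ans i j φ, A.next (flagOf h) ρ ans = Act.bit i j φ → ∀ z : ℤ, φ (z + q) = φ z)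
    {l : ℕ} (hl : 1 ≤ l) (hD : D < 2 ^ l) (r : E m → ZMod q) :
    (Cov A h p ρ r).card ≤ (468 * (d + 1) * l ^ 3) * D + D :=
  card_cov_le A h p ρ hA1 r
    (nq_leS A h p ρ hW hA1 hA2 hper (generic_ofS h p B G hH hbig) r L le_rfl) hl hD

open Classical in
/-- (MB) on the random null instance the output is `false` at most as often as in the ideal run -/
theorem out_nullS (hH : HidesS n h p B G S) (hbig : D ^ 2 * d < (G + 1) / q)
    (hR : Fintype.card (E m) * q ≤ G + 1)
    (hW : A.Within D b)
    (hA1 : ∀ fl ρ ans f, A.next fl ρ ans = Act.query (Query.value f) → f.totalDegree ≤ d)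
    (hA2 : ∀ ans a b, A.next (flagOf h) ρ ans = Act.query (Query.sign a b) → S a b)
    (hper : ∀ ans i j φ, A.next (flagOf h) ρ ans = Act.bit i j φ → ∀ z : ℤ, φ (z + q) = φ z) :
    ((univ.filter fun g : E m → Fin (G + 1) =>
        A.output (instOf h (wB p B G g)) ρ = false).card : ℝ) /
        ((G + 1 : ℕ) : ℝ) ^ Fintype.card (E m) ≤
      ((univ.filter fun r : E m → ZMod q => lout A h p ρ r = false).card : ℝ) /
        (q : ℝ) ^ Fintype.card (E m) + err m G q D d := by
  have hgen := generic_ofS (n := n) h p B G (S := S) (D := D) (d := d) (q := q)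
    hH hbig
  have h1 := card_badC0 p B G q d D (fun r => (lrun A h p ρ r L).2)
    (fun r => (lrun_length A h p ρ r L).trans (nq_leS A h p ρ hW hA1 hA2 hper hgen r L le_rfl))
    (fun r => lrun_degree A h p ρ r hA1 L)
  set bad := univ.filter fun g : E m → Fin (G + 1) =>
    ∃ f ∈ (lrun A h p ρ (resB q p B G g) L).2, ∃ f' ∈ (lrun A h p ρ (resB q p B G g) L).2,
      f ≠ f' ∧ rev (wB p B G g) f = rev (wB p B G g) f' with hbad
  have h2 := law_B' p B G q hR (fun r => lout A h p ρ r = false)
  have h3 : (univ.filter fun g : E m → Fin (G + 1) =>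
        A.output (instOf h (wB p B G g)) ρ = false) ⊆
      (univ.filter fun g : E m → Fin (G + 1) => lout A h p ρ (resB q p B G g) = false) ∪ bad := by
    intro g hg
    rw [mem_filter] at hg
    rw [mem_union, mem_filter]
    by_cases hb : g ∈ bad
    · exact Or.inr hb
    · left
      refine ⟨Finset.mem_univ _, ?_⟩
      rw [← hg.2]
      symm
      apply output_eq A h p ρ (resB q p B G g) (wB p B G g) (fun e => rfl) hper
      · intro f hf f' hf' heq
        by_contra hne
        apply hb
        rw [hbad, mem_filter]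
        exact ⟨Finset.mem_univ _, f, hf, f', hf', hne, heq⟩
      · intro t _ a b hq
        exact hH.signB a b (hA2 _ _ _ hq) g
  have hcard : Fintype.card (E m → Fin (G + 1)) = (G + 1) ^ Fintype.card (E m) := by
    rw [Fintype.card_fun, Fintype.card_fin]
  have hpos : (0 : ℝ) < ((G + 1 : ℕ) : ℝ) ^ Fintype.card (E m) := by positivity
  have h4 : ((univ.filter fun g : E m → Fin (G + 1) =>
        A.output (instOf h (wB p B G g)) ρ = false).card : ℝ) ≤
      ((univ.filter fun g : E m → Fin (G + 1) => lout A h p ρ (resB q p B G g) = false).card : ℝ)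
        + (bad.card : ℝ) := by
    exact_mod_cast (Finset.card_le_card h3).trans (Finset.card_union_le _ _)
  have h5 : (bad.card : ℝ) / ((G + 1 : ℕ) : ℝ) ^ Fintype.card (E m) ≤
      ((D ^ 2 * d : ℕ) : ℝ) / (((G + 1) / q : ℕ) : ℝ) := by
    have h6 := frac_le (x := bad.card) (X := (G + 1) ^ Fintype.card (E m)) (M := (G + 1) / q)
      (K := D ^ 2) (N := d) (by positivity) (by omega) (by rw [hcard] at h1; exact h1)
    rw [Nat.cast_pow] at h6
    exact h6
  have h7 := (abs_le.1 h2).2
  unfold err
  calc _ ≤ (((univ.filter fun g : E m → Fin (G + 1) =>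
            lout A h p ρ (resB q p B G g) = false).card : ℝ) + (bad.card : ℝ)) /
            ((G + 1 : ℕ) : ℝ) ^ Fintype.card (E m) := by gcongr
    _ = ((univ.filter fun g : E m → Fin (G + 1) =>
            lout A h p ρ (resB q p B G g) = false).card : ℝ) /
            ((G + 1 : ℕ) : ℝ) ^ Fintype.card (E m) +
          (bad.card : ℝ) / ((G + 1 : ℕ) : ℝ) ^ Fintype.card (E m) := add_div _ _ _
    _ ≤ _ := by linarith

open Classical in
/-- (MT) on the random planted instance the output is `false` at least as often as in the ideal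
run outside the covered triangles -/
theorem out_plantedS (hH : HidesS n h p B G S) (hbig : D ^ 2 * d < (G + 1) / q)
    (hR : Fintype.card (E m) * q ≤ G + 1)
    (hW : A.Within D b)
    (hA1 : ∀ fl ρ ans f, A.next fl ρ ans = Act.query (Query.value f) → f.totalDegree ≤ d)
    (hA2 : ∀ ans a b, A.next (flagOf h) ρ ans = Act.query (Query.sign a b) → S a b)
    (hper : ∀ ans i j φ, A.next (flagOf h) ρ ans = Act.bit i j φ → ∀ z : ℤ, φ (z + q) = φ z)
    (T : Tri m) :
    (q : ℝ) * ((univ.filter fun r : E m → ZMod q => ∑ i, r (tk T i) = 0 ∧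
        lout A h p ρ r = false ∧ T ∉ Cov A h p ρ r).card : ℝ) /
        (q : ℝ) ^ Fintype.card (E m) - err m G q D d ≤
    ((univ.filter fun g : E m → Fin (G + 1) =>
        A.output (instOf h (wT p B G T g)) ρ = false).card : ℝ) /
        ((G + 1 : ℕ) : ℝ) ^ Fintype.card (E m) := by
  have hgen := generic_ofS (n := n) h p B G (S := S) (D := D) (d := d) (q := q)
    hH hbig
  have h1 := card_badCT p B G q d D T (fun r => (lrun A h p ρ r L).2)
    (fun r => (lrun_length A h p ρ r L).trans (nq_leS A h p ρ hW hA1 hA2 hper hgen r L le_rfl))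
    (fun r => lrun_degree A h p ρ r hA1 L)
  set bad := univ.filter fun g : E m → Fin (G + 1) =>
    ∃ f ∈ (lrun A h p ρ (resT q p B G T g) L).2, ∃ f' ∈ (lrun A h p ρ (resT q p B G T g) L).2,
      (¬ ∀ w : E m → ℝ, ∑ e ∈ te T, w e = 0 → MvPolynomial.eval w f = MvPolynomial.eval w f') ∧
        rev (wT p B G T g) f = rev (wT p B G T g) f' with hbad
  have h2 := law_T' p B G q T hR (fun r => lout A h p ρ r = false ∧ T ∉ Cov A h p ρ r)
  have h3 : (univ.filter fun g : E m → Fin (G + 1) => lout A h p ρ (resT q p B G T g) = false ∧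
        T ∉ Cov A h p ρ (resT q p B G T g)) ⊆
      (univ.filter fun g : E m → Fin (G + 1) =>
        A.output (instOf h (wT p B G T g)) ρ = false) ∪ bad := by
    intro g hg
    rw [mem_filter] at hg
    obtain ⟨_, hg1, hg2⟩ := hg
    rw [mem_union, mem_filter]
    by_cases hb : g ∈ bad
    · exact Or.inr hb
    · left
      refine ⟨Finset.mem_univ _, ?_⟩
      rw [← hg1]
      have hcov : ¬ cov A h p ρ (resT q p B G T g) T := by
        intro hc
        apply hg2
        unfold Cov
        rw [mem_filter]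
        exact ⟨Finset.mem_univ _, hc⟩
      apply output_eq A h p ρ (resT q p B G T g) (wT p B G T g) (fun e => rfl) hper
      · intro f hf f' hf' heq
        by_contra hne
        by_cases hall : ∀ w : E m → ℝ, ∑ e ∈ te T, w e = 0 →
            MvPolynomial.eval w f = MvPolynomial.eval w f'
        · exact hcov (Or.inl ⟨f, hf, f', hf', hne, hall⟩)
        · apply hb
          rw [hbad, mem_filter]
          exact ⟨Finset.mem_univ _, f, hf, f', hf', hall, heq⟩
      · intro t ht a b hq
        apply hH.signT a b (hA2 _ _ _ hq) T _ g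
        intro c0 hc0 hc
        exact hcov (Or.inr ⟨t, ht, a, b, hq, c0, hc0, hc⟩)
  have hcard : Fintype.card (E m → Fin (G + 1)) = (G + 1) ^ Fintype.card (E m) := by
    rw [Fintype.card_fun, Fintype.card_fin]
  have hpos : (0 : ℝ) < ((G + 1 : ℕ) : ℝ) ^ Fintype.card (E m) := by positivity
  have h4 : ((univ.filter fun g : E m → Fin (G + 1) => lout A h p ρ (resT q p B G T g) = false ∧
        T ∉ Cov A h p ρ (resT q p B G T g)).card : ℝ) ≤
      ((univ.filter fun g : E m → Fin (G + 1) =>
        A.output (instOf h (wT p B G T g)) ρ = false).card : ℝ) + (bad.card : ℝ) := by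
    exact_mod_cast (Finset.card_le_card h3).trans (Finset.card_union_le _ _)
  have h5 : (bad.card : ℝ) / ((G + 1 : ℕ) : ℝ) ^ Fintype.card (E m) ≤
      ((D ^ 2 * d : ℕ) : ℝ) / (((G + 1) / q : ℕ) : ℝ) := by
    have h6 := frac_le (x := bad.card) (X := (G + 1) ^ Fintype.card (E m)) (M := (G + 1) / q)
      (K := D ^ 2) (N := d) (by positivity) (by omega) (by rw [hcard] at h1; exact h1)
    rw [Nat.cast_pow] at h6
    exact h6
  have h7 := (abs_le.1 h2).1
  have h8 : (univ.filter fun r : E m → ZMod q =>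
      (lout A h p ρ r = false ∧ T ∉ Cov A h p ρ r) ∧
        r (tk T 0) + r (tk T 1) + r (tk T 2) = 0) =
      univ.filter fun r : E m → ZMod q => ∑ i, r (tk T i) = 0 ∧
        lout A h p ρ r = false ∧ T ∉ Cov A h p ρ r := by
    apply Finset.filter_congr
    intro r _
    rw [Fin.sum_univ_three]
    tauto
  rw [h8] at h7
  have h9 : ((univ.filter fun g : E m → Fin (G + 1) => lout A h p ρ (resT q p B G T g) = false ∧
        T ∉ Cov A h p ρ (resT q p B G T g)).card : ℝ) /
        ((G + 1 : ℕ) : ℝ) ^ Fintype.card (E m) ≤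
      ((univ.filter fun g : E m → Fin (G + 1) =>
        A.output (instOf h (wT p B G T g)) ρ = false).card : ℝ) /
        ((G + 1 : ℕ) : ℝ) ^ Fintype.card (E m) +
      (bad.card : ℝ) / ((G + 1 : ℕ) : ℝ) ^ Fintype.card (E m) := by
    rw [← add_div]
    gcongr
  have h10 : (q : ℝ) * ((univ.filter fun r : E m → ZMod q => ∑ i, r (tk T i) = 0 ∧
        lout A h p ρ r = false ∧ T ∉ Cov A h p ρ r).card : ℝ) /
        (q : ℝ) ^ Fintype.card (E m) = ((univ.filter fun r : E m → ZMod q =>
        ∑ i, r (tk T i) = 0 ∧ lout A h p ρ r = false ∧ T ∉ Cov A h p ρ r).card : ℝ) * q /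
        (q : ℝ) ^ Fintype.card (E m) := by rw [mul_comm]
  rw [h10]
  unfold err
  linarith

end glue

section prob

variable {n m L R : ℕ}

lemma sum_fBS {A : LAlg n L R} (hdec : A.Decides) {h : 3 * m ≤ n} {p : Fin 3 × Fin m → ℤ}
    {B G : ℕ} {S : (Fin n → Fin n → ℤ) → ℤ → Prop} (H : HidesS n h p B G S) :
    2 * (2 : ℝ) ^ R ≤ 3 * ∑ ρ, Pool.Agent.Helper95.LK.fB A h p B G ρ := by
  have hW : (0 : ℝ) < ((G : ℝ) + 1) ^ Fintype.card (E m) := by positivity
  have h1 := Pool.Agent.Helper95.LK.sum_prob (R := R) _ hW (Pool.Agent.Helper95.LK.card_noise G m)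
    (fun (g : E m → Fin (G + 1)) ρ => A.output (instOf h (wB p B G g)) ρ = false)
    (2 * (2 : ℝ) ^ R / 3) (by
      intro g
      have h2 := hdec _ (H.validB g)
      have h3 : 2 * 2 ^ R ≤ 3 * (univ.filter fun ρ : Fin R → Bool =>
          A.output (instOf h (wB p B G g)) ρ = false).card := by
        refine h2.trans (Nat.mul_le_mul_left 3 (Finset.card_le_card ?_))
        classical
        intro ρ hρ
        rw [Finset.mem_filter] at hρ ⊢
        refine ⟨Finset.mem_univ _, ?_⟩
        rw [← Bool.not_eq_true]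
        exact fun h5 => H.noB g (hρ.2.1 h5)
      have h4 : (2 : ℝ) * 2 ^ R ≤ 3 * ((univ.filter fun ρ : Fin R → Bool =>
          A.output (instOf h (wB p B G g)) ρ = false).card : ℝ) := by exact_mod_cast h3
      linarith)
  unfold Pool.Agent.Helper95.LK.fB
  linarith

lemma sum_fTS {A : LAlg n L R} (hdec : A.Decides) {h : 3 * m ≤ n} {p : Fin 3 × Fin m → ℤ}
    {B G : ℕ} {S : (Fin n → Fin n → ℤ) → ℤ → Prop} (H : HidesS n h p B G S) (T : Tri m) :
    3 * ∑ ρ, Pool.Agent.Helper95.LK.fT A h p B G T ρ ≤ (2 : ℝ) ^ R := by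
  have hW : (0 : ℝ) < ((G : ℝ) + 1) ^ Fintype.card (E m) := by positivity
  have h1 := Pool.Agent.Helper95.LK.sum_prob' (R := R) _ hW (Pool.Agent.Helper95.LK.card_noise G m)
    (fun (g : E m → Fin (G + 1)) ρ => A.output (instOf h (wT p B G T g)) ρ = false)
    ((2 : ℝ) ^ R / 3) (by
      intro g
      have h2 := hdec _ (H.validT T g)
      have h3 : 2 * 2 ^ R ≤ 3 * (univ.filter fun ρ : Fin R → Bool =>
          A.output (instOf h (wT p B G T g)) ρ = true).card := by
        refine h2.trans (Nat.mul_le_mul_left 3 (Finset.card_le_card ?_))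
        classical
        intro ρ hρ
        rw [Finset.mem_filter] at hρ ⊢
        exact ⟨Finset.mem_univ _, hρ.2.2 (H.yesT T g)⟩
      have h4 : (2 : ℝ) * 2 ^ R ≤ 3 * ((univ.filter fun ρ : Fin R → Bool =>
          A.output (instOf h (wT p B G T g)) ρ = true).card : ℝ) := by exact_mod_cast h3
      have h5 : (univ.filter fun ρ : Fin R → Bool =>
          A.output (instOf h (wT p B G T g)) ρ = true).card + (univ.filter fun ρ : Fin R → Bool =>
          A.output (instOf h (wT p B G T g)) ρ = false).card = 2 ^ R := by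
        have h6 := Finset.card_filter_add_card_filter_not (s := (univ : Finset (Fin R → Bool)))
          (fun ρ => A.output (instOf h (wT p B G T g)) ρ = true)
        rw [Finset.card_univ] at h6
        simp only [Bool.not_eq_true] at h6
        rw [h6]
        simp
      have h7 : ((univ.filter fun ρ : Fin R → Bool =>
          A.output (instOf h (wT p B G T g)) ρ = true).card : ℝ) + ((univ.filter
          fun ρ : Fin R → Bool =>
          A.output (instOf h (wT p B G T g)) ρ = false).card : ℝ) = 2 ^ R := by exact_mod_cast h5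
      linarith)
  unfold Pool.Agent.Helper95.LK.fT
  linarith

end prob

end Pool.Agent.Helper7.LK
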