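import Mathlib
import Pool.Agent.Helper7.LK.Sgn

/-!
# The lower bound with periodic bits and sign queries that are one-signed or not determined by the
triangle sums
-/

set_option autoImplicit false

namespace Pool.Agent.Helper7.LK

open Finset
open Pool.Agent.Helper22.ETModel Pool.Agent.Helper8.LK
open Pool.Agent.Helper95.LK (params assembly numeric)

/-- The admissible sign queries with parameters `r`, `c`, for the flags `fl`: at most `r` weights
occur, the integer coefficients and the constant are at most `n ^ c` in absolute value, and at most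
one coefficient is negative, or at most one coefficient is positive, or some change of the weights
of the edges keeps all triangle sums and changes the form. -/
def SignOK2 (n r c : ℕ) (fl : Fin n → Fin n → Bool) (a : Fin n → Fin n → ℤ) (b : ℤ) : Prop :=
  SparseOK n r c a b ∧
  (((Finset.univ.filter fun p : Fin n × Fin n => a p.1 p.2 < 0).card ≤ 1 ∨
    (Finset.univ.filter fun p : Fin n × Fin n => 0 < a p.1 p.2).card ≤ 1) ∨ Moves fl a)

lemma sign_adm2 {n m r c : ℕ} (h : 3 * m ≤ n) {a : Fin n → Fin n → ℤ} {b : ℤ}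
    (hS : SparseOK n r c a b) :
    (univ.filter fun e => redc h a e ≠ 0).card ≤ r ∧ (∀ e, |redc h a e| ≤ ((2 * n ^ c : ℕ) : ℤ)) ∧
      |b| ≤ ((n ^ c : ℕ) : ℤ) := by
  obtain ⟨h1, h2, h3⟩ := hS
  refine ⟨?_, ?_, ?_⟩
  · exact (card_redc_le h a (fun x => x ≠ 0) (by intro x y; omega)).trans h1
  · intro e
    unfold redc
    refine (abs_add_le _ _).trans ?_
    push_cast
    linarith [h2 (enc h e).1 (enc h e).2, h2 (enc h e).2 (enc h e).1]
  · push_cast; exact h3

/-- There are potentials that hide everything. -/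
theorem exists_hidesS {n m r c e : ℕ} (hn : 3 ≤ n) (hrc : r * (c + 4) + 2 * c + e ≤ 270)
    (h : 3 * m ≤ n) (hm : 0 < m) :
    ∃ p : Fin 3 × Fin m → ℤ, HidesS n h p (n ^ (c + 18 + e)) (n ^ (12 + e))
      (fun a b => SignOK2 n r c (flagOf h) a b) := by
  classical
  obtain ⟨P1, P2, P3, P4⟩ := params hn hrc h
  obtain ⟨p, hp0, hp⟩ := exists_pot hm (2 * n ^ c) r (n ^ (2 * c + 24 + e))
    (n ^ (r * (c + 4) + 2 * c + 25 + e)) P3
  refine ⟨p, ?_⟩
  generalize hB : n ^ (c + 18 + e) = B at *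
  generalize hG : n ^ (12 + e) = G at *
  generalize hRp : n ^ (r * (c + 4) + 2 * c + 25 + e) = Rp at *
  have hBpos : 0 < B := by rw [← hB]; exact Nat.pow_pos (by omega)
  have hpot : ∀ e : E m, |pot p e| ≤ Rp := by
    intro e
    have h1 := hp0 (e.1, e.2.1)
    have h2 := hp0 (e.1 + 1, e.2.2)
    unfold pot
    rw [abs_le]
    constructor <;> linarith [h1.1, h1.2, h2.1, h2.2]
  have hgle : ∀ (g : E m → Fin (G + 1)) e, ((g e : ℕ) : ℤ) ≤ G := by
    intro g e
    have := (g e).isLt
    have h1 : (g e : ℕ) ≤ G := by omega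
    exact_mod_cast h1
  have hg0 : ∀ (g : E m → Fin (G + 1)) e, (0:ℤ) ≤ ((g e : ℕ) : ℤ) := fun g e => by positivity
  have P4' : (Rp : ℤ) + B + 2 * G ≤ (n:ℤ) ^ 300 := by exact_mod_cast P4
  have hB0 : (0:ℤ) ≤ B := by positivity
  have hG0 : (0:ℤ) ≤ G := by positivity
  refine ⟨?_, ?_, ?_, ?_, ?_, ?_⟩
  · intro g
    apply instOf_valid
    intro e
    have h1 := abs_le.1 (hpot e)
    have h2 := hgle g e
    have h3 := hg0 g e
    unfold wB
    rw [abs_le]
    constructor <;> linarith [h1.1, h1.2]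
  · intro T g
    apply instOf_valid
    intro e
    have h1 := abs_le.1 (hpot e)
    have h2 := hgle g e
    have h3 := hg0 g e
    have h4 := hgle g (tk T 0)
    have h5 := hg0 g (tk T 0)
    have h6 := hgle g (tk T 1)
    have h7 := hg0 g (tk T 1)
    unfold wT
    split_ifs
    · rw [abs_le]; constructor <;> linarith [h1.1, h1.2]
    · rw [abs_le]; constructor <;> linarith [h1.1, h1.2]
    · rw [abs_le]; constructor <;> linarith [h1.1, h1.2]
  · intro g hy
    rw [instOf_yes] at hy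
    obtain ⟨T, hT⟩ := hy
    exact wB_no p hBpos G g T hT
  · intro T g
    rw [instOf_yes]
    exact ⟨T, wT_yes p B G T g⟩
  · intro a b hS' g
    obtain ⟨hS, hsgn⟩ := hS'
    rcases hsgn with hsgn | hM
    swap
    · obtain ⟨h1, h2, h3⟩ := sign_adm2 h hS
      have h7 := code_free (G := B + 2 * G) hp P2 h1 h2 h3 (bv_ne_zero_of_moves h hM)
        (x := fun e => (B : ℤ) + ((g e : ℕ) : ℤ)) (by
          intro e
          have h5 := hgle g e
          have h6 := hg0 g e
          push_cast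
          rw [abs_le]; constructor <;> linarith)
      rw [← h7]
      congr 2
      refine Finset.sum_congr rfl fun e _ => ?_
      unfold wB
      ring
    obtain ⟨h1, h2, h3, h4⟩ := Pool.Agent.Helper95.LK.sign_adm h (⟨hS.1, hS.2.1, hS.2.2, hsgn⟩ : SignOK n r c a b)
    apply sign_robust (G2 := 2 * G) (B := B) hp P2 P1 h1 h2 h3 h4 (s := fun _ => 1) _ (Or.inl fun _ => rfl)
    intro e
    have h5 := hgle g e
    have h6 := hg0 g e
    unfold wB
    push_cast
    rw [abs_le]; constructor <;> linarith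
  · intro a b hS' T hhit g
    obtain ⟨hS, hsgn⟩ := hS'
    rcases hsgn with hsgn | hM
    swap
    · obtain ⟨h1, h2, h3⟩ := sign_adm2 h hS
      have h7 := code_free (G := B + 2 * G) hp P2 h1 h2 h3 (bv_ne_zero_of_moves h hM)
        (x := fun e => wT p B G T g e - pot p e) (by
          intro e
          have h5 := hgle g e
          have h6 := hg0 g e
          have h7 := hgle g (tk T 0)
          have h8 := hg0 g (tk T 0)
          have h9 := hgle g (tk T 1)
          have h10 := hg0 g (tk T 1)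
          unfold wT
          push_cast
          by_cases he : e ∈ te T
          · simp only [if_pos he]
            split_ifs
            · rw [abs_le]; constructor <;> linarith
            · rw [abs_le]; constructor <;> linarith
          · simp only [if_neg he]
            rw [abs_le]; constructor <;> linarith)
      rw [← h7]
      congr 2
      refine Finset.sum_congr rfl fun e _ => ?_
      ring
    obtain ⟨h1, h2, h3, h4⟩ := Pool.Agent.Helper95.LK.sign_adm h (⟨hS.1, hS.2.1, hS.2.2, hsgn⟩ : SignOK n r c a b)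
    by_cases hz : redc h a = 0
    · rw [hz]
      unfold code
      have : bv (0 : E m → ℤ) = 0 := by funext v; simp [bv]
      simp [this]
    · apply sign_robust (G2 := 2 * G) (B := B) hp P2 P1 h1 h2 h3 h4
        (s := fun e => if e ∈ te T then 0 else 1) _
      · right
        refine ⟨T, fun _ => rfl, ?_⟩
        intro c0 hc0
        refine hhit c0 ?_ hc0
        rintro rfl
        apply hz
        rw [hc0]
        funext e
        simp [Pool.Agent.Helper22.ETModel.ind]
      · intro e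
        have h5 := hgle g e
        have h6 := hg0 g e
        have h7 := hgle g (tk T 0)
        have h8 := hg0 g (tk T 0)
        have h9 := hgle g (tk T 1)
        have h10 := hg0 g (tk T 1)
        unfold wT
        push_cast
        by_cases he : e ∈ te T
        · simp only [if_pos he]
          split_ifs
          · rw [abs_le]; constructor <;> linarith
          · rw [abs_le]; constructor <;> linarith
        · simp only [if_neg he]
          rw [abs_le]; constructor <;> linarith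

variable {n m L R D b d r c e : ℕ}

/-- The ideal run of an algorithm for the random string `ρ`. -/
noncomputable def idealOfS (A : LAlg n L R) (h : 3 * m ≤ n) (p : Fin 3 × Fin m → ℤ)
    (ρ : Fin R → Bool) (B G q : ℕ) [NeZero q] {S : (Fin n → Fin n → ℤ) → ℤ → Prop}
    (hH : HidesS n h p B G S)
    (hbig : D ^ 2 * d < (G + 1) / q) (hW : A.Within D b)
    (hA1 : ∀ fl ρ ans f, A.next fl ρ ans = Act.query (Query.value f) → f.totalDegree ≤ d)
    (hA2 : ∀ ans a b, A.next (flagOf h) ρ ans = Act.query (Query.sign a b) → S a b)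
    (hper : ∀ ans i j φ, A.next (flagOf h) ρ ans = Act.bit i j φ → ∀ z : ℤ, φ (z + q) = φ z)
    (l : ℕ) (hl : 1 ≤ l) (hD : D < 2 ^ l) :
    Helper95.LK.Ideal m L b ((468 * (d + 1) * l ^ 3) * D + D) q where
  R := reading A h p ρ q
  used_le := fun x e => used_leS A h p B G ρ hH hbig hW hA1 hA2 hper x e
  lout := fun x => lout A h p ρ x
  lout_eq := fun _ _ hc => lout_congr A h p ρ hc
  Cov := fun x => Cov A h p ρ x
  Cov_eq := fun _ _ hc => Cov_congr A h p ρ hc
  Cov_le := fun x => card_Cov_leS A h p B G ρ hH hbig hW hA1 hA2 hper hl hD x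

/-- The bound for one potential that hides the planted triangles. -/
theorem core_boundS {G : ℕ} (hn : 2 ^ (b + 17) ≤ n)
    (hbig' : ∀ q, 1 ≤ q → q ≤ n ^ e → D ^ 2 * d < (G + 1) / q)
    (herr' : ∀ q, 1 ≤ q → q ≤ n ^ e → err m G q D d ≤ 1 / 200)
    (A : LAlg n L R)
    (hA1 : ∀ fl ρ ans f, A.next fl ρ ans = Act.query (Query.value f) → f.totalDegree ≤ d)
    (hA2 : ∀ fl ρ ans a x, A.next fl ρ ans = Act.query (Query.sign a x) →
      SignOK2 n r c fl a x)
    (hA3 : ∃ q : (Fin n → Fin n → Bool) → (Fin R → Bool) → ℕ,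
      (∀ fl ρ, 1 ≤ q fl ρ ∧ q fl ρ ≤ n ^ e) ∧
      ∀ fl ρ ans i j φ, A.next fl ρ ans = Act.bit i j φ → ∀ z : ℤ, φ (z + q fl ρ) = φ z)
    (hW : A.Within D b) (hdec : A.Decides)
    (h : 3 * m ≤ n) (hK : 2 ^ (b + 15) ≤ m) (p : Fin 3 × Fin m → ℤ) (B : ℕ)
    (hG : G = n ^ (12 + e))
    (H : HidesS n h p B G (fun a b => SignOK2 n r c (flagOf h) a b)) (l : ℕ) (hl : 1 ≤ l) (hDl : D < 2 ^ l) :
    (m : ℝ) ^ 3 ≤ 10 * ((468 * (d + 1) * l ^ 3 * D + D : ℕ) : ℝ) * 2 ^ (b + 15) := by
  obtain ⟨q0, hq0, hper0⟩ := hA3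
  have hA2' : ∀ ρ ans a x, A.next (flagOf h) ρ ans = Act.query (Query.sign a x) →
      SignOK2 n r c (flagOf h) a x := fun ρ ans a x hq => hA2 _ _ _ _ _ hq
  have hn17 : 2 ^ 17 ≤ n := le_trans (Nat.pow_le_pow_right (by norm_num) (by omega)) hn
  have hn1000 : 1000 ≤ n := le_trans (by norm_num) hn17
  have hm0 : 0 < m := lt_of_lt_of_le (by positivity) hK
  let q : (Fin R → Bool) → ℕ := fun ρ => q0 (flagOf h) ρ
  have hq1 : ∀ ρ, 1 ≤ q ρ := fun ρ => (hq0 (flagOf h) ρ).1
  have hqe : ∀ ρ, q ρ ≤ n ^ e := fun ρ => (hq0 (flagOf h) ρ).2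
  haveI hqz : ∀ ρ, NeZero (q ρ) := fun ρ => ⟨by have := hq1 ρ; omega⟩
  have hper : ∀ ρ, ∀ ans i j φ, A.next (flagOf h) ρ ans = Act.bit i j φ →
      ∀ z : ℤ, φ (z + q ρ) = φ z := fun ρ ans i j φ hφ => hper0 (flagOf h) ρ ans i j φ hφ
  have hbig : ∀ ρ, D ^ 2 * d < (G + 1) / q ρ := fun ρ => hbig' _ (hq1 ρ) (hqe ρ)
  have hR : ∀ ρ, Fintype.card (E m) * q ρ ≤ G + 1 := fun ρ => by
    rw [hG]; exact card_le_of (by omega) h (hqe ρ)
  have herr : ∀ ρ, err m G (q ρ) D d ≤ 1 / 200 := fun ρ => herr' _ (hq1 ρ) (hqe ρ)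
  have hsum := assembly (m := m) (L := L) (b := b) (N := (468 * (d + 1) * l ^ 3) * D + D) (R := R)
    hm0 hK q (fun ρ => idealOfS A h p ρ B G (q ρ) H (hbig ρ) hW hA1 (hA2' ρ) (hper ρ) l hl hDl)
    (Helper95.LK.fB A h p B G) (Helper95.LK.fT A h p B G) (1 / 200) le_rfl (sum_fBS hdec H) (sum_fTS hdec H)
    (by
      intro ρ
      have h1 := out_nullS A h p B G ρ H (hbig ρ) (hR ρ) hW hA1 (hA2' ρ) (hper ρ)
      have h2 := herr ρ
      refine le_trans (le_of_eq ?_) (h1.trans (add_le_add (le_of_eq ?_) h2))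
      · unfold Helper95.LK.fB
        push_cast
        congr!
      · unfold Helper95.LK.Ideal.pB idealOfS
        congr!)
    (by
      intro ρ T
      have h1 := out_plantedS A h p B G ρ H (hbig ρ) (hR ρ) hW hA1 (hA2' ρ) (hper ρ) T
      have h2 := herr ρ
      refine le_trans (sub_le_sub (le_of_eq ?_) h2) (h1.trans (le_of_eq ?_))
      · unfold Helper95.LK.Ideal.pT idealOfS
        congr!
      · unfold Helper95.LK.fT
        push_cast
        congr!)
  exact hsum

/-- **Lower bound with periodic bits; sign queries one-signed or not determined by the triangle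
sums.** -/
theorem lower_bound_sgn {n L R D b d r c e : ℕ} (hrc : r * (c + 4) + 2 * c + e ≤ 270)
    (hn : 2 ^ (b + 17) ≤ n) (A : LAlg n L R)
    (hA1 : ∀ fl ρ ans f, A.next fl ρ ans = Act.query (Query.value f) → f.totalDegree ≤ d)
    (hA2 : ∀ fl ρ ans a x, A.next fl ρ ans = Act.query (Query.sign a x) →
      SignOK2 n r c fl a x)
    (hA3 : ∃ q : (Fin n → Fin n → Bool) → (Fin R → Bool) → ℕ,
      (∀ fl ρ, 1 ≤ q fl ρ ∧ q fl ρ ≤ n ^ e) ∧
      ∀ fl ρ ans i j φ, A.next fl ρ ans = Act.bit i j φ → ∀ z : ℤ, φ (z + q fl ρ) = φ z)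
    (hW : A.Within D b) (hdec : A.Decides) :
    (n : ℝ) ^ 3 ≤ 2 ^ (b + 37) * (D : ℝ) * ((d : ℝ) + 1) * (Real.logb 2 (n : ℝ)) ^ 3 := by
  have hn17 : 2 ^ 17 ≤ n := le_trans (Nat.pow_le_pow_right (by norm_num) (by omega)) hn
  have hn3 : 3 ≤ n := le_trans (by norm_num) hn17
  have hK : 2 ^ (b + 15) ≤ n / 3 := by
    have h1 : 2 ^ (b + 17) = 4 * 2 ^ (b + 15) := by
      rw [show b + 17 = (b + 15) + 2 by ring, pow_add]; ring
    have h2 : 1 ≤ 2 ^ (b + 15) := Nat.one_le_two_pow
    omega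
  have hm0 : 0 < n / 3 := lt_of_lt_of_le (by positivity) hK
  have h : 3 * (n / 3) ≤ n := Nat.mul_div_le n 3
  have hlam1 : 1 ≤ Real.logb 2 (n : ℝ) := by
    have hn3' : (3 : ℝ) ≤ n := by exact_mod_cast hn3
    rw [Real.le_logb_iff_rpow_le (by norm_num) (by linarith)]
    norm_num; linarith
  have hlam3 : 1 ≤ (Real.logb 2 (n : ℝ)) ^ 3 := one_le_pow₀ hlam1
  have hn4 : 10000 ≤ n := le_trans (by norm_num) hn17
  obtain ⟨p, H⟩ := exists_hidesS hn3 hrc h hm0
  have hmR : (0 : ℝ) < ((n / 3 : ℕ) : ℝ) ^ 3 := by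
    have : (0 : ℝ) < ((n / 3 : ℕ) : ℝ) := by exact_mod_cast hm0
    positivity
  have hD1 : 1 ≤ D := by
    by_contra hcon
    have hD0 : D = 0 := by omega
    subst hD0
    have h1 := core_boundS (d := d) hn
      (fun q hq1 hq => by
        have := big_of (D := 0) (d := 0) (by omega : 100 ≤ n) hq1 hq (Nat.zero_le _) (Nat.zero_le _)
        simpa using this)
      (fun q hq1 hq => by
        have := err_le' (m := n / 3) (D := 0) (d := 0) hn4 h hq1 hq (Nat.zero_le _) (Nat.zero_le _)
        refine le_trans (le_of_eq ?_) (this.trans (by norm_num))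
        unfold err
        simp)
      A hA1 hA2 hA3 hW hdec h hK p _ rfl H 1 le_rfl (by norm_num)
    simp only [mul_zero, add_zero, Nat.cast_zero, zero_mul] at h1
    linarith
  by_cases hDn : D ≤ n ^ 3 ∧ d ≤ n ^ 3
  · obtain ⟨hDn, hdn⟩ := hDn
    set l := Nat.log 2 D + 1 with hl
    have hDl : D < 2 ^ l := Nat.lt_pow_succ_log_self (by norm_num) D
    have h1 := core_boundS hn
      (fun q hq1 hq => big_of (by omega) hq1 hq hDn hdn)
      (fun q hq1 hq => (err_le' hn4 h hq1 hq hDn hdn).trans (by norm_num))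
      A hA1 hA2 hA3 hW hdec h hK p _ rfl H l (by omega) hDl
    have h2 := numeric hn hD1 hDn hl h1
    refine h2.trans (le_of_eq ?_)
    rw [pow_add]
    ring
  · rw [not_and_or] at hDn
    push Not at hDn
    have hDr : (1 : ℝ) ≤ D := by exact_mod_cast hD1
    have hd0 : (0 : ℝ) ≤ d := Nat.cast_nonneg _
    have h0 : (n : ℝ) ^ 3 ≤ D * ((d : ℝ) + 1) := by
      rcases hDn with hDn | hdn
      · have h1 : (n : ℝ) ^ 3 ≤ D := by exact_mod_cast hDn.le
        nlinarith
      · have h1 : (n : ℝ) ^ 3 ≤ d := by exact_mod_cast hdn.le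
        nlinarith
    have h2 : (1 : ℝ) ≤ 2 ^ (b + 37) := one_le_pow₀ (by norm_num)
    calc (n : ℝ) ^ 3 ≤ D * ((d : ℝ) + 1) := h0
      _ ≤ 2 ^ (b + 37) * (D * ((d : ℝ) + 1)) := by
          have : 0 ≤ (D : ℝ) * ((d : ℝ) + 1) := by positivity
          nlinarith
      _ = 2 ^ (b + 37) * D * ((d : ℝ) + 1) * 1 := by ring
      _ ≤ _ := by gcongr

end Pool.Agent.Helper7.LK
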